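import Pool.Agent.Lib.MP_60fb2a_nt.S.Log2
import Pool.Agent.Lib.MP_60fb2a_nt.An.One
import Pool.Agent.Lib.MP_60fb2a_nt.G.Cls

/-!
MP_60fb2a_nt, directory S: the final statements with the sharp exceptional sets.
-/

set_option autoImplicit false

namespace Pool.Agent.Lib.NagA

open Polynomial Finset Classical

/-- natural averages; `R d` is the expected limit for the twist by `d` -/
def StA (A B : ℤ[X]) (R : ℤ → ℝ) : Prop := ∀ ε κ θ a : ℝ, 0 < ε → 0 < κ → κ < θ → θ ≤ 1 → 1 + 2 / θ < a →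
  ∃ N₀ : ℕ, ∀ N : ℕ, N₀ ≤ N → (({d : ℤ | Squarefree d ∧ |d| ≤ N ∧ ∃ X : ℝ, Real.log |(d : ℝ)| ^ a ≤ X ∧
    X ≤ Real.exp (|(d : ℝ)| ^ κ) ∧ ε < |NS (twA d A) (twB d B) X - R d|}).ncard : ℝ) ≤ (N : ℝ) ^ θ

/-- logarithmic averages -/
def StL (A B : ℤ[X]) (R : ℤ → ℝ) : Prop := ∀ ε κ θ : ℝ, 0 < ε → 0 < κ → κ < θ → θ ≤ 1 →
  ∃ N₀ : ℕ, ∀ N : ℕ, N₀ ≤ N → (({d : ℤ | Squarefree d ∧ |d| ≤ N ∧ ∃ X : ℝ,
    Real.exp (Real.log (Real.log |(d : ℝ)|) ^ 2) ≤ X ∧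
    X ≤ Real.exp (Real.exp (|(d : ℝ)| ^ κ)) ∧ ε < |NL (twA d A) (twB d B) X - R d|}).ncard : ℝ) ≤ (N : ℝ) ^ θ

/-- from large `|d|` to all `d`, and from `Sq` to sets -/
theorem Fin2_gen (F G : ℤ → Prop) (E : Set ℤ) (hE : E.Finite) (d₁ : ℕ)
    (h : ∀ d : ℤ, (d₁ : ℝ) ≤ |(d : ℝ)| → Squarefree d → d ∉ E → F d → G d) (θ₁ θ : ℝ) (h0 : 0 < θ₁) (h1 : θ₁ < θ)
    (N₀ : ℕ) (H : ∀ N : ℕ, N₀ ≤ N → (((Sq N).filter G).card : ℝ) ≤ (N : ℝ) ^ θ₁) :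
    ∃ N₁ : ℕ, ∀ N : ℕ, N₁ ≤ N →
      (({d : ℤ | Squarefree d ∧ |d| ≤ N ∧ F d}).ncard : ℝ) ≤ (N : ℝ) ^ θ := by
  obtain ⟨D₄, h4⟩ := Filter.eventually_atTop.1 (((tendsto_rpow_atTop (show 0 < θ - θ₁ by linarith)).comp
    (tendsto_natCast_atTop_atTop (R := ℝ))).eventually_ge_atTop (1 + ((2 * (d₁ : ℝ) + 1) + (E.ncard : ℝ))))
  refine ⟨max 1 (max N₀ D₄), fun N hN => ?_⟩
  have hN1 : (1 : ℝ) ≤ N := by exact_mod_cast le_trans (le_max_left _ _) hN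
  have hN0 : (0 : ℝ) < N := by linarith
  have hN2 : N₀ ≤ N := le_trans (le_trans (le_max_left _ _) (le_max_right _ _)) hN
  have hN3 : D₄ ≤ N := le_trans (le_trans (le_max_right _ _) (le_max_right _ _)) hN
  have hsub : {d : ℤ | Squarefree d ∧ |d| ≤ N ∧ F d} ⊆
      (((Sq N).filter G ∪ Finset.Icc (-(d₁ : ℤ)) d₁ ∪ hE.toFinset : Finset ℤ) : Set ℤ) := by
    rintro d ⟨hd1, hd2, hd3⟩
    rw [Finset.mem_coe, Finset.mem_union, Finset.mem_union]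
    by_cases hdE : d ∈ E
    · right
      rw [Set.Finite.mem_toFinset]
      exact hdE
    · left
      by_cases hdd : (d₁ : ℝ) ≤ |(d : ℝ)|
      · left
        rw [Finset.mem_filter]
        unfold Sq
        rw [Finset.mem_filter, Finset.mem_Icc]
        exact ⟨⟨abs_le.mp hd2, hd1⟩, h d hdd hd1 hdE hd3⟩
      · right
        rw [not_le] at hdd
        have h3 : |d| < (d₁ : ℤ) := by exact_mod_cast hdd
        rw [Finset.mem_Icc]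
        exact abs_le.1 h3.le
  have hc : ((Finset.Icc (-(d₁ : ℤ)) d₁).card : ℝ) = 2 * (d₁ : ℝ) + 1 := by
    rw [Int.card_Icc]
    have : ((d₁ : ℤ) + 1 - -(d₁ : ℤ)).toNat = 2 * d₁ + 1 := by omega
    rw [this]
    push_cast
    ring
  have hE2 : (hE.toFinset.card : ℝ) = (E.ncard : ℝ) := by
    rw [Set.ncard_eq_toFinset_card E hE]
  have h5 := Set.ncard_le_ncard hsub (Finset.finite_toSet _)
  rw [Set.ncard_coe_finset] at h5
  have h6 : ((((Sq N).filter G ∪ Finset.Icc (-(d₁ : ℤ)) d₁ ∪ hE.toFinset : Finset ℤ)).card : ℝ) ≤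
      (((Sq N).filter G).card : ℝ) + ((Finset.Icc (-(d₁ : ℤ)) d₁).card : ℝ) + (hE.toFinset.card : ℝ) := by
    exact_mod_cast le_trans (Finset.card_union_le _ _) (Nat.add_le_add_right (Finset.card_union_le _ _) _)
  have e4 : (N : ℝ) ^ θ = (N : ℝ) ^ (θ - θ₁) * (N : ℝ) ^ θ₁ := by
    rw [← Real.rpow_add hN0]
    congr 1
    ring
  have e5 : 1 ≤ (N : ℝ) ^ θ₁ := Real.one_le_rpow hN1 h0.le
  have e6 : 1 + ((2 * (d₁ : ℝ) + 1) + (E.ncard : ℝ)) ≤ (N : ℝ) ^ (θ - θ₁) := h4 N hN3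
  have e7 : 0 ≤ (2 * (d₁ : ℝ) + 1) + (E.ncard : ℝ) := by positivity
  calc (({d : ℤ | Squarefree d ∧ |d| ≤ N ∧ F d}).ncard : ℝ) ≤
        ((((Sq N).filter G ∪ Finset.Icc (-(d₁ : ℤ)) d₁ ∪ hE.toFinset : Finset ℤ)).card : ℝ) := by
        exact_mod_cast h5
    _ ≤ (((Sq N).filter G).card : ℝ) + ((Finset.Icc (-(d₁ : ℤ)) d₁).card : ℝ) + (hE.toFinset.card : ℝ) := h6
    _ ≤ (N : ℝ) ^ θ₁ + (2 * (d₁ : ℝ) + 1) + (E.ncard : ℝ) := by
        rw [hc, hE2]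
        have := H N hN2
        linarith
    _ ≤ (1 + ((2 * (d₁ : ℝ) + 1) + (E.ncard : ℝ))) * (N : ℝ) ^ θ₁ := by
        have := le_mul_of_one_le_right e7 e5
        linarith
    _ ≤ (N : ℝ) ^ (θ - θ₁) * (N : ℝ) ^ θ₁ := mul_le_mul_of_nonneg_right e6 (by positivity)
    _ = (N : ℝ) ^ θ := e4.symm

theorem tStA (hF : Fix2Stmt) (hN : NssStmt) (A B : ℤ[X]) (hC : ∃ C : ℝ, ∀ p : ℕ, p.Prime → |Av A B p| ≤ C)
    (R : ℤ → ℝ) (hR : {d : ℤ | Squarefree d ∧ R d ≠ 0}.Finite) : StA A B R := by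
  intro ε κ θ a hε hκ hκθ hθ ha
  obtain ⟨C, hC⟩ := hC
  have hBd : Bd (Av A B) (max C 1) := fun p hp => le_trans (hC p hp) (le_max_left _ _)
  obtain ⟨θ₁, a₁, g1, g2, g3, g4⟩ := Fix2_exp κ θ a hκ hκθ ha
  have hθ₁ : 0 < θ₁ := by linarith
  have ha0 : 1 < a := by
    have : 0 < 2 / θ₁ := by positivity
    linarith
  obtain ⟨N₀, H⟩ := hF (max C 1) (ε / 2) κ θ₁ a (by positivity) (by positivity) hκ g1 (by linarith) (by linarith)
  obtain ⟨d₁, hd₁⟩ := exists_nat_ge (Real.exp (max 1 (8 / ε)))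
  refine Fin2_gen _ _ _ hR d₁ ?_ θ₁ θ hθ₁ g2 N₀ (fun N hN' => H N hN' (Av A B) hBd)
  rintro d hd hsq hdE ⟨X, hX1, hX2, hX3⟩
  have hR0 : R d = 0 := by
    by_contra h
    exact hdE ⟨hsq, h⟩
  rw [hR0, sub_zero] at hX3
  refine ⟨X, hX1, hX2, ?_⟩
  have h1 : max 1 (8 / ε) ≤ Real.log |(d : ℝ)| := by
    rw [Real.le_log_iff_exp_le (lt_of_lt_of_le (Real.exp_pos _) (le_trans hd₁ hd))]
    exact le_trans hd₁ hd
  have h2 : 1 ≤ Real.log |(d : ℝ)| := le_trans (le_max_left _ _) h1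
  have h3 : Real.log |(d : ℝ)| ≤ Real.log |(d : ℝ)| ^ a := by
    calc Real.log |(d : ℝ)| = Real.log |(d : ℝ)| ^ (1 : ℝ) := (Real.rpow_one _).symm
      _ ≤ Real.log |(d : ℝ)| ^ a := Real.rpow_le_rpow_of_exponent_le h2 ha0.le
  have h4 : 1 ≤ X := le_trans h2 (le_trans h3 hX1)
  have h5 : 8 / ε ≤ X := le_trans (le_max_right _ _) (le_trans h1 (le_trans h3 hX1))
  have h6 : 4 / X ≤ ε / 2 := by
    rw [div_le_iff₀ (by linarith)]
    rw [div_le_iff₀ hε] at h5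
    linarith
  have h7 := hN A B d X h4
  have h8 : |NS (twA d A) (twB d B) X| ≤ |NS (twA d A) (twB d B) X + SX (Av A B) d X| +
      |SX (Av A B) d X| := by
    have := abs_sub (NS (twA d A) (twB d B) X + SX (Av A B) d X) (SX (Av A B) d X)
    rw [add_sub_cancel_right] at this
    exact this
  linarith

theorem tStL (hF : Lfx2Stmt) (hN : NlsStmt) (A B : ℤ[X]) (hC : ∃ C : ℝ, ∀ p : ℕ, p.Prime → |Av A B p| ≤ C)
    (R : ℤ → ℝ) (hR : {d : ℤ | Squarefree d ∧ R d ≠ 0}.Finite) : StL A B R := by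
  intro ε κ θ hε hκ hκθ hθ
  obtain ⟨C, hC⟩ := hC
  have hBd : Bd (Av A B) (max C 1) := fun p hp => le_trans (hC p hp) (le_max_left _ _)
  obtain ⟨θ₁, g1, g2⟩ := exists_between hκθ
  have hθ₁ : 0 < θ₁ := by linarith
  obtain ⟨N₀, H⟩ := hF (max C 1) (ε / 2) κ θ₁ (by positivity) (by positivity) hκ g1 (by linarith)
  obtain ⟨m, hm⟩ : ∃ m : ℝ, m = max 1 (8 / ε) := ⟨_, rfl⟩
  have hm1 : 1 ≤ m := by rw [hm]; exact le_max_left _ _
  have hm2 : 8 / ε ≤ m := by rw [hm]; exact le_max_right _ _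
  obtain ⟨d₁, hd₁⟩ := exists_nat_ge (Real.exp (Real.exp m))
  refine Fin2_gen _ _ _ hR d₁ ?_ θ₁ θ hθ₁ g2 N₀ (fun N hN' => H N hN' (Av A B) hBd)
  rintro d hd hsq hdE ⟨X, hX1, hX2, hX3⟩
  have hR0 : R d = 0 := by
    by_contra h
    exact hdE ⟨hsq, h⟩
  rw [hR0, sub_zero] at hX3
  refine ⟨X, hX1, hX2, ?_⟩
  have hX0 : 0 < X := lt_of_lt_of_le (Real.exp_pos _) hX1
  have h0 : Real.exp m ≤ Real.log |(d : ℝ)| := by
    rw [Real.le_log_iff_exp_le (lt_of_lt_of_le (Real.exp_pos _) (le_trans hd₁ hd))]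
    exact le_trans hd₁ hd
  have h0' : m ≤ Real.log (Real.log |(d : ℝ)|) := by
    rw [Real.le_log_iff_exp_le (lt_of_lt_of_le (Real.exp_pos _) h0)]
    exact h0
  have hlX : m ≤ Real.log X := by
    have h1 : Real.log (Real.log |(d : ℝ)|) ^ 2 ≤ Real.log X := by
      rw [Real.le_log_iff_exp_le hX0]
      exact hX1
    nlinarith
  have h2 : 1 ≤ Real.log X := le_trans hm1 hlX
  have h5 : 8 / ε ≤ Real.log X := le_trans hm2 hlX
  have h4 : 1 < X := by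
    have h3 : Real.exp 1 ≤ X := by
      rw [← Real.le_log_iff_exp_le hX0]
      exact h2
    have := Real.add_one_le_exp (1 : ℝ)
    linarith
  have h6 : 4 / Real.log X ≤ ε / 2 := by
    rw [div_le_iff₀ (by linarith)]
    rw [div_le_iff₀ hε] at h5
    linarith
  have h7 := hN A B d X h4
  have h8 : |NL (twA d A) (twB d B) X| ≤ |NL (twA d A) (twB d B) X + SL (Av A B) d X| +
      |SL (Av A B) d X| := by
    have := abs_sub (NL (twA d A) (twB d B) X + SL (Av A B) d X) (SL (Av A B) d X)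
    rw [add_sub_cancel_right] at this
    exact this
  linarith

end Pool.Agent.Lib.NagA
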