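import Pool.Agent.Lib.MP_60fb2a_nt.All
import Pool.Agent.Lib.MP_60fb2a_nt.S.Fin2

/-!
MP_60fb2a_nt, directory S: assembly.
-/

set_option autoImplicit false

namespace Pool.Agent.Lib.NagA

open Polynomial Finset Classical

theorem aRga2 : Rga2Stmt := tRga2 aLsq aMom aChb
theorem aCnt2 : Cnt2Stmt := tCnt2 aRga2 aRgb aRgc aLip
theorem aFix2 : Fix2Stmt := tFix2 aCnt2
theorem aLgt2 : Lgt2Stmt := tLgt2 aLgc aLgl
theorem aLlo2 : Llo2Stmt := tLlo2 aCnt2 aLab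
theorem aLfx2 : Lfx2Stmt := tLfx2 aLlo2 aLgt2

theorem rk_cast (A B : ℤ[X]) (h : {d : ℤ | Squarefree d ∧ rk (twA d A) (twB d B) ≠ 0}.Finite) :
    {d : ℤ | Squarefree d ∧ ((rk (twA d A) (twB d B) : ℕ) : ℝ) ≠ 0}.Finite := by
  refine h.subset ?_
  rintro d ⟨h1, h2⟩
  exact ⟨h1, by exact_mod_cast h2⟩

/-- natural averages, non-split quadratic twists of constant curves -/
theorem finA (A B : ℤ[X]) (hd : 4 * A ^ 3 + 27 * B ^ 2 ≠ 0) (hc : ConstTwist A B) (hs : ¬ Split A B) :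
    StA A B (fun d => (rk (twA d A) (twB d B) : ℝ)) :=
  tStA aFix2 aNss A B (Cls_bd aBdd A B hd hc hs) _ (rk_cast A B (Cls_rk R.rankAll R.tGrp A B hd hc hs))

/-- logarithmic averages, non-split quadratic twists of constant curves -/
theorem finL (A B : ℤ[X]) (hd : 4 * A ^ 3 + 27 * B ^ 2 ≠ 0) (hc : ConstTwist A B) (hs : ¬ Split A B) :
    StL A B (fun d => (rk (twA d A) (twB d B) : ℝ)) :=
  tStL aLfx2 aNls A B (Cls_bd aBdd A B hd hc hs) _ (rk_cast A B (Cls_rk R.rankAll R.tGrp A B hd hc hs))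

/-- natural averages, all curves with bounded averages and finitely generated group over `kk(T)` -/
theorem finG (A B : ℤ[X]) (hd : 4 * A ^ 3 + 27 * B ^ 2 ≠ 0) (hb : ∃ K : ℝ, ∀ p : ℕ, p.Prime → |Av A B p| ≤ K)
    (hf : Module.Finite ℤ (R.Pt (R.dd A) (R.dd B))) :
    StA A B (fun d => (rk (twA d A) (twB d B) : ℝ)) :=
  tStA aFix2 aNss A B hb _ (rk_cast A B (aLne A B hd hf))

end Pool.Agent.Lib.NagA
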