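import Pool.Agent.Lib.MP_60fb2a_nt.S.Rga2

/-!
MP_60fb2a_nt, directory S (sharp exceptional sets), module Cnt2: the union over the grid.
-/

set_option autoImplicit false

namespace Pool.Agent.Lib.NagA

open Polynomial Finset Classical

/-- the union over the grid: at most `D^θ` bad `d` for the range `(log D)^a ≤ X ≤ exp(D^κ)`, `κ < θ`, `a > 1 + 2/θ` -/
def Cnt2Stmt : Prop := ∀ C ε κ θ a : ℝ, 0 < C → 0 < ε → 0 < κ → κ < θ → θ ≤ 1 → 1 + 2 / θ < a →
  ∃ D₀ : ℕ, ∀ D : ℕ, D₀ ≤ D →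
  ∀ W : ℕ → ℝ, Bd W C → (((Sq D).filter (fun d => ∃ X : ℝ, Real.log D ^ a ≤ X ∧
    X ≤ Real.exp ((D : ℝ) ^ κ) ∧ ε < |SX W d X|)).card : ℝ) ≤ (D : ℝ) ^ θ

private theorem Cnt2_j {q l M : ℝ} (hq : 1 < q) (hl : 1 ≤ l) {j : ℕ} (h : l * q ^ j ≤ M) :
    (j : ℝ) ≤ Real.log M / Real.log q := by
  have hq0 : 0 < q := by linarith
  have hlq : 0 < Real.log q := Real.log_pos hq
  rw [le_div_iff₀ hlq, ← Real.log_pow]
  refine Real.log_le_log (by positivity) ?_
  refine le_trans ?_ h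
  exact le_mul_of_one_le_left (by positivity) hl

private theorem Cnt2_card {q l M : ℝ} (S : Finset ℕ) (hq : 1 < q) (hl : 1 ≤ l) (hM : 1 ≤ M) :
    ((S.filter (fun j => l * q ^ j ≤ M)).card : ℝ) ≤ Real.log M / Real.log q + 1 := by
  have hlq : 0 < Real.log q := Real.log_pos hq
  have h0 : 0 ≤ Real.log M / Real.log q := div_nonneg (Real.log_nonneg hM) hlq.le
  have h1 : S.filter (fun j => l * q ^ j ≤ M) ⊆
      Finset.range (⌊Real.log M / Real.log q⌋₊ + 1) := by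
    intro j hj
    have h2 := Cnt2_j hq hl (mem_filter.1 hj).2
    rw [Finset.mem_range, Nat.lt_succ_iff]
    exact Nat.le_floor h2
  have h2 := card_le_card h1
  rw [card_range] at h2
  have h3 : ((S.filter (fun j => l * q ^ j ≤ M)).card : ℝ) ≤
      (⌊Real.log M / Real.log q⌋₊ : ℝ) + 1 := by exact_mod_cast h2
  have h4 := Nat.floor_le h0
  linarith

private theorem Cnt2_num (y l κ θ θ₁ K K' : ℝ) (m : ℝ) (hy : 1 ≤ y) (hl : 1 ≤ l) (hm : 1 ≤ m)
    (hK : 0 < K) (hK' : 0 < K')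
    (hκ : 0 < κ) (e1 : 12 * m * l ≤ y ^ (θ - θ₁))
    (e2 : 6 * m * K ≤ y ^ (θ - κ)) (e3 : 6 * m * K' ≤ y ^ (θ - κ)) :
    (3 * l * m + 1) * y ^ θ₁ + (y ^ (κ / 2) * m + 1) * (K * y ^ (κ / 2)) +
      (y ^ κ * m + 1) * K' ≤ y ^ θ := by
  have hy0 : 0 < y := by linarith
  have hp : ∀ s : ℝ, 0 ≤ s → 1 ≤ y ^ s := fun s hs => Real.one_le_rpow hy hs
  have hadd : ∀ s t : ℝ, y ^ s * y ^ t = y ^ (s + t) := fun s t => (Real.rpow_add hy0 s t).symm
  have hpos : ∀ s : ℝ, 0 < y ^ s := fun s => Real.rpow_pos_of_pos hy0 s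
  have t1 : (3 * l * m + 1) * y ^ θ₁ ≤ y ^ θ / 3 := by
    have h1 : 3 * l * m + 1 ≤ 4 * m * l := by nlinarith
    calc (3 * l * m + 1) * y ^ θ₁ ≤ (4 * m * l) * y ^ θ₁ :=
          mul_le_mul_of_nonneg_right h1 (hpos _).le
      _ = (12 * m * l) * y ^ θ₁ / 3 := by ring
      _ ≤ y ^ (θ - θ₁) * y ^ θ₁ / 3 := by
          have := mul_le_mul_of_nonneg_right e1 (hpos θ₁).le
          linarith
      _ = y ^ θ / 3 := by
          rw [hadd]
          congr 2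
          ring
  have t2 : (y ^ (κ / 2) * m + 1) * (K * y ^ (κ / 2)) ≤ y ^ θ / 3 := by
    have h1 : y ^ (κ / 2) * m + 1 ≤ 2 * m * y ^ (κ / 2) := by
      have := hp (κ / 2) (by linarith)
      nlinarith
    calc (y ^ (κ / 2) * m + 1) * (K * y ^ (κ / 2)) ≤ (2 * m * y ^ (κ / 2)) * (K * y ^ (κ / 2)) :=
          mul_le_mul_of_nonneg_right h1 (mul_pos hK (hpos _)).le
      _ = (6 * m * K) * (y ^ (κ / 2) * y ^ (κ / 2)) / 3 := by ring
      _ = (6 * m * K) * y ^ κ / 3 := by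
          rw [hadd]
          congr 3
          ring
      _ ≤ y ^ (θ - κ) * y ^ κ / 3 := by
          have := mul_le_mul_of_nonneg_right e2 (hpos κ).le
          linarith
      _ = y ^ θ / 3 := by
          rw [hadd]
          congr 2
          ring
  have t3 : (y ^ κ * m + 1) * K' ≤ y ^ θ / 3 := by
    have h1 : y ^ κ * m + 1 ≤ 2 * m * y ^ κ := by
      have := hp κ hκ.le
      nlinarith
    calc (y ^ κ * m + 1) * K' ≤ (2 * m * y ^ κ) * K' :=
          mul_le_mul_of_nonneg_right h1 hK'.le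
      _ = (6 * m * K') * y ^ κ / 3 := by ring
      _ ≤ y ^ (θ - κ) * y ^ κ / 3 := by
          have := mul_le_mul_of_nonneg_right e3 (hpos κ).le
          linarith
      _ = y ^ θ / 3 := by
          rw [hadd]
          congr 2
          ring
  linarith

private theorem Cnt2_ev (m K K' X₀ α β : ℝ) (hm : 1 ≤ m) (hα : 0 < α) (hβ : 0 < β) :
    ∃ D₀ : ℕ, ∀ D : ℕ, D₀ ≤ D →
    1 ≤ Real.log D ∧ X₀ ≤ Real.log D ∧ 12 * m * Real.log D ≤ (D : ℝ) ^ α ∧
      6 * m * K ≤ (D : ℝ) ^ β ∧ 6 * m * K' ≤ (D : ℝ) ^ β := by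
  have hlog : Filter.Tendsto (fun D : ℕ => Real.log D) Filter.atTop Filter.atTop :=
    Real.tendsto_log_atTop.comp tendsto_natCast_atTop_atTop
  have a1 := hlog.eventually_ge_atTop 1
  have a2 := hlog.eventually_ge_atTop X₀
  have a3 := (tendsto_natCast_atTop_atTop (R := ℝ)).eventually
    ((isLittleO_log_rpow_atTop hα).bound (show (0 : ℝ) < 1 / (12 * m) by positivity))
  have a4 := (tendsto_natCast_atTop_atTop (R := ℝ)).eventually
    ((tendsto_rpow_atTop hβ).eventually_ge_atTop (6 * m * K))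
  have a5 := (tendsto_natCast_atTop_atTop (R := ℝ)).eventually
    ((tendsto_rpow_atTop hβ).eventually_ge_atTop (6 * m * K'))
  obtain ⟨D₀, h⟩ := Filter.eventually_atTop.1 ((((a1.and a2).and a3).and a4).and a5)
  refine ⟨D₀, fun D hD => ?_⟩
  obtain ⟨⟨⟨⟨b1, b2⟩, b3⟩, b4⟩, b5⟩ := h D hD
  refine ⟨b1, b2, ?_, b4, b5⟩
  have hl : 0 ≤ Real.log (D : ℝ) := by linarith
  rw [Real.norm_of_nonneg hl, Real.norm_of_nonneg (by positivity)] at b3
  have h12 : (0 : ℝ) < 12 * m := by positivity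
  calc 12 * m * Real.log D ≤ 12 * m * (1 / (12 * m) * (D : ℝ) ^ α) :=
        mul_le_mul_of_nonneg_left b3 h12.le
    _ = _ := by
        field_simp

theorem tCnt2 (h1 : Rga2Stmt) (h2 : RgbStmt) (h3 : RgcStmt) (h4 : LipStmt) : Cnt2Stmt := by
  intro C ε κ θ a hC hε hκ hκθ hθ ha
  have hθ0 : 0 < θ := by linarith
  have ha1 : 1 < a := by
    have : 0 < 2 / θ := by positivity
    linarith
  have ha1' : 0 < a - 1 := by linarith
  have haθ : 2 / (a - 1) < θ := by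
    rw [div_lt_iff₀ ha1']
    have h5 : 2 / θ < a - 1 := by linarith
    rw [div_lt_iff₀ hθ0] at h5
    linarith
  obtain ⟨θ₁, hθ₁⟩ : ∃ θ₁ : ℝ, max κ (2 / (a - 1)) < θ₁ ∧ θ₁ < θ := exists_between (max_lt hκθ haθ)
  have hθ₁0 : 0 < θ₁ := lt_trans hκ (lt_of_le_of_lt (le_max_left _ _) hθ₁.1)
  have ha2 : 1 + 2 / θ₁ < a := by
    have h5 : 2 / (a - 1) < θ₁ := lt_of_le_of_lt (le_max_right _ _) hθ₁.1
    rw [div_lt_iff₀ ha1'] at h5
    have h6 : 2 / θ₁ < a - 1 := by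
      rw [div_lt_iff₀ hθ₁0]
      linarith
    linarith
  obtain ⟨h, X₀, hh0, hh1, hX₀, hlip⟩ := h4 C (ε / 2) hC (by positivity)
  obtain ⟨D₁, hD₁⟩ := h1 C (ε / 2) θ₁ a hC (by positivity) hθ₁0 (by linarith) ha2
  obtain ⟨K, D₂, hK, hD₂⟩ := h2 C (ε / 2) hC (by positivity)
  obtain ⟨K', D₃, hK', hD₃⟩ := h3 C (ε / 2) (κ / 2) hC (by positivity) (by positivity)
  have hq : 1 < 1 + h := by linarith
  have hlq : 0 < Real.log (1 + h) := Real.log_pos hq
  have hlq1 : Real.log (1 + h) ≤ 1 := by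
    have h5 := Real.log_le_sub_one_of_pos (show 0 < 1 + h by linarith)
    linarith
  obtain ⟨m, hm⟩ : ∃ m : ℝ, m = 1 / Real.log (1 + h) := ⟨_, rfl⟩
  have hm1 : 1 ≤ m := by
    rw [hm, one_le_div hlq]
    exact hlq1
  obtain ⟨D₄, hD₄⟩ := Cnt2_ev m K K' X₀ (θ - θ₁) (θ - κ) hm1 (by linarith) (by linarith)
  refine ⟨max (max D₁ D₂) (max D₃ D₄), ?_⟩
  intro D hD W hW
  have hDa : D₁ ≤ D := le_trans (le_trans (le_max_left _ _) (le_max_left _ _)) hD
  have hDb : D₂ ≤ D := le_trans (le_trans (le_max_right _ _) (le_max_left _ _)) hD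
  have hDc : D₃ ≤ D := le_trans (le_trans (le_max_left _ _) (le_max_right _ _)) hD
  have hDd : D₄ ≤ D := le_trans (le_trans (le_max_right _ _) (le_max_right _ _)) hD
  obtain ⟨b1, b2, b3, b4, b5⟩ := hD₄ D hDd
  obtain ⟨L, hL⟩ : ∃ L : ℝ, L = Real.log D := ⟨_, rfl⟩
  rw [← hL] at b1 b2 b3 ⊢
  have hD0 : (0 : ℝ) < D := by
    rcases Nat.eq_zero_or_pos D with h0 | h0
    · exfalso
      subst h0
      rw [hL, Nat.cast_zero, Real.log_zero] at b1
      linarith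
    · exact_mod_cast h0
  have hD1 : (1 : ℝ) ≤ D := by
    have h0 : 0 < D := by exact_mod_cast hD0
    exact_mod_cast h0
  obtain ⟨l, hl⟩ : ∃ l : ℝ, l = L ^ a := ⟨_, rfl⟩
  have hlL : L ≤ l := by
    rw [hl]
    calc L = L ^ (1 : ℝ) := (Real.rpow_one L).symm
      _ ≤ L ^ a := Real.rpow_le_rpow_of_exponent_le b1 ha1.le
  have hl1 : 1 ≤ l := b1.trans hlL
  have hl0 : 0 < l := by linarith
  obtain ⟨J, hJ⟩ : ∃ J, J = ⌊(D : ℝ) ^ κ / Real.log (1 + h)⌋₊ := ⟨_, rfl⟩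
  have hsub : (Sq D).filter (fun d => ∃ X : ℝ, L ^ a ≤ X ∧ X ≤ Real.exp ((D : ℝ) ^ κ) ∧
      ε < |SX W d X|) ⊆ (Finset.range (J + 1)).biUnion (fun j =>
        bad W D (ε / 2) (l * (1 + h) ^ j)) := by
    intro d hd
    obtain ⟨hd1, X, hX1, hX2, hX3⟩ := mem_filter.1 hd
    rw [← hl] at hX1
    have hX0 : 0 < X := by linarith
    obtain ⟨j, hj1, hj2⟩ := exists_nat_pow_near (x := X / l) (y := 1 + h)
      ((one_le_div hl0).2 hX1) hq
    have hj1' : l * (1 + h) ^ j ≤ X := by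
      rw [le_div_iff₀ hl0] at hj1
      linarith
    have hj2' : X ≤ (1 + h) * (l * (1 + h) ^ j) := by
      rw [div_lt_iff₀ hl0, pow_succ] at hj2
      linarith
    have hlow : l ≤ l * (1 + h) ^ j := le_mul_of_one_le_right hl0.le (one_le_pow₀ hq.le)
    refine mem_biUnion.2 ⟨j, ?_, ?_⟩
    · rw [Finset.mem_range, Nat.lt_succ_iff, hJ]
      refine Nat.le_floor ?_
      refine (Cnt2_j hq hl1 (hj1'.trans hX2)).trans (le_of_eq ?_)
      rw [Real.log_exp]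
    · refine mem_filter.2 ⟨hd1, ?_⟩
      have h5 := hlip W hW d (l * (1 + h) ^ j) X (by linarith) hj1' hj2'
      have h6 : |SX W d X| ≤ |SX W d X - SX W d (l * (1 + h) ^ j)| +
          |SX W d (l * (1 + h) ^ j)| := by
        have := abs_add_le (SX W d X - SX W d (l * (1 + h) ^ j)) (SX W d (l * (1 + h) ^ j))
        rwa [sub_add_cancel] at this
      linarith
  have hone : ∀ j ∈ Finset.range (J + 1), ((bad W D (ε / 2) (l * (1 + h) ^ j)).card : ℝ) ≤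
      (if l * (1 + h) ^ j ≤ (D : ℝ) ^ 3 then (D : ℝ) ^ θ₁ else 0) +
      (if l * (1 + h) ^ j ≤ Real.exp ((D : ℝ) ^ (κ / 2)) then K * (D : ℝ) ^ (κ / 2) else 0) + K' := by
    intro j _
    have hx1 : 1 ≤ l * (1 + h) ^ j := by
      have := le_mul_of_one_le_right hl0.le (one_le_pow₀ hq.le (n := j))
      linarith
    have hKp : 0 < K * (D : ℝ) ^ (κ / 2) := by positivity
    by_cases c1 : l * (1 + h) ^ j ≤ (D : ℝ) ^ 3
    · rw [if_pos c1]
      have h5 := hD₁ D hDa W hW (l * (1 + h) ^ j) (by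
        rw [← hL, ← hl]
        exact le_mul_of_one_le_right hl0.le (one_le_pow₀ hq.le)) c1
      have h6 : (0 : ℝ) ≤ if l * (1 + h) ^ j ≤ Real.exp ((D : ℝ) ^ (κ / 2)) then
          K * (D : ℝ) ^ (κ / 2) else 0 := by
        split_ifs
        · exact hKp.le
        · exact le_rfl
      linarith
    · rw [if_neg c1]
      rw [not_le] at c1
      by_cases c2 : l * (1 + h) ^ j ≤ Real.exp ((D : ℝ) ^ (κ / 2))
      · rw [if_pos c2]
        have h5 := hD₂ D hDb W hW (l * (1 + h) ^ j) c1.le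
        have h6 : Real.log (l * (1 + h) ^ j) ≤ (D : ℝ) ^ (κ / 2) := by
          rw [← Real.log_exp ((D : ℝ) ^ (κ / 2))]
          exact Real.log_le_log (by linarith) c2
        have h7 := mul_le_mul_of_nonneg_left h6 hK.le
        linarith
      · rw [if_neg c2]
        rw [not_le] at c2
        have h5 := hD₃ D hDc W hW (l * (1 + h) ^ j) c2.le
        linarith
  have hcard : (((Sq D).filter (fun d => ∃ X : ℝ, L ^ a ≤ X ∧ X ≤ Real.exp ((D : ℝ) ^ κ) ∧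
      ε < |SX W d X|)).card : ℝ) ≤ ∑ j ∈ Finset.range (J + 1),
        ((bad W D (ε / 2) (l * (1 + h) ^ j)).card : ℝ) := by
    have := (card_le_card hsub).trans card_biUnion_le
    exact_mod_cast this
  have hD3 : (1 : ℝ) ≤ (D : ℝ) ^ 3 := one_le_pow₀ hD1
  have hc1 := Cnt2_card (Finset.range (J + 1)) hq hl1 hD3
  have hc2 := Cnt2_card (Finset.range (J + 1)) hq hl1
    (Real.one_le_exp (show 0 ≤ (D : ℝ) ^ (κ / 2) by positivity))
  rw [Real.log_pow, ← hL] at hc1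
  rw [Real.log_exp] at hc2
  have hJR : ((J + 1 : ℕ) : ℝ) ≤ (D : ℝ) ^ κ * m + 1 := by
    have h5 : (J : ℝ) ≤ (D : ℝ) ^ κ / Real.log (1 + h) := by
      rw [hJ]
      exact Nat.floor_le (by positivity)
    rw [hm]
    push_cast
    rw [mul_one_div]
    linarith
  have e1 : (3 : ℕ) * L / Real.log (1 + h) + 1 = 3 * L * m + 1 := by
    rw [hm, mul_one_div]
    push_cast
    rfl
  have e2 : (D : ℝ) ^ (κ / 2) / Real.log (1 + h) + 1 = (D : ℝ) ^ (κ / 2) * m + 1 := by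
    rw [hm, mul_one_div]
  rw [e1] at hc1
  rw [e2] at hc2
  refine hcard.trans ((sum_le_sum hone).trans ?_)
  rw [sum_add_distrib, sum_add_distrib, ← sum_filter, ← sum_filter, sum_const, sum_const,
    sum_const, nsmul_eq_mul, nsmul_eq_mul, nsmul_eq_mul, card_range]
  refine le_trans ?_ (Cnt2_num D L κ θ θ₁ K K' m hD1 b1 hm1 hK hK' hκ b3 b4 b5)
  refine add_le_add (add_le_add ?_ ?_) ?_
  · exact mul_le_mul_of_nonneg_right hc1 (by positivity)
  · exact mul_le_mul_of_nonneg_right hc2 (by positivity)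
  · exact mul_le_mul_of_nonneg_right hJR hK'.le

end Pool.Agent.Lib.NagA
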