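import Pool.Agent.Lib.MP_60fb2a_nt.S.Slv

/-!
MP_60fb2a_nt, directory S: iterated sums over intervals (convolution weights).
-/

set_option autoImplicit false

namespace Pool.Agent.Lib.NagA

open Polynomial Finset Classical

/-- sum over an interval of length `L` -/
noncomputable def Tw (L : ℕ) (f : ℕ → ℝ) : ℕ → ℝ := fun n => ∑ a ∈ range L, f (n + a)

/-- the weights of the `j`-th iterate of `Tw L` -/
noncomputable def Rw (L : ℕ) : ℕ → ℕ → ℝ
  | 0, t => if t = 0 then 1 else 0
  | j + 1, t => ∑ a ∈ range L, if a ≤ t then Rw L j (t - a) else 0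

theorem Rw_nonneg (L j t : ℕ) : 0 ≤ Rw L j t := by
  induction j generalizing t with
  | zero =>
    unfold Rw
    split_ifs <;> norm_num
  | succ j ih =>
    unfold Rw
    refine Finset.sum_nonneg fun a _ => ?_
    split_ifs
    · exact ih _
    · exact le_rfl

theorem Rw_supp (L j t : ℕ) (h : j * L < t) : Rw L j t = 0 := by
  induction j generalizing t with
  | zero =>
    unfold Rw
    rw [if_neg (by omega)]
  | succ j ih =>
    unfold Rw
    refine Finset.sum_eq_zero fun a ha => ?_
    rw [Finset.mem_range] at ha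
    split_ifs
    · apply ih
      rw [Nat.succ_mul] at h
      omega
    · rfl

theorem Rw_low (L M i : ℕ) (hM : M ≤ L) (t : ℕ) (h1 : i * (M - 1) ≤ t) (h2 : t < L) :
    (M : ℝ) ^ i ≤ Rw L (i + 1) t := by
  induction i generalizing t with
  | zero =>
    unfold Rw
    rw [pow_zero]
    refine le_trans (le_of_eq ?_) (Finset.single_le_sum (f := fun a => if a ≤ t then Rw L 0 (t - a) else 0)
      (fun a _ => ?_) (Finset.mem_range.2 h2))
    · simp [Rw]
    · split_ifs
      · exact Rw_nonneg _ _ _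
      · exact le_rfl
  | succ i ih =>
    have e : Rw L (i + 1 + 1) t = ∑ a ∈ range L, if a ≤ t then Rw L (i + 1) (t - a) else 0 := rfl
    rw [e]
    have h3 : ∀ a ∈ range M, (M : ℝ) ^ i ≤ if a ≤ t then Rw L (i + 1) (t - a) else 0 := by
      intro a ha
      rw [Finset.mem_range] at ha
      have h4 : (i + 1) * (M - 1) = i * (M - 1) + (M - 1) := by ring
      rw [h4] at h1
      rw [if_pos (by omega)]
      exact ih (t - a) (by omega) (by omega)
    calc (M : ℝ) ^ (i + 1) = ∑ _a ∈ range M, (M : ℝ) ^ i := by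
          rw [Finset.sum_const, Finset.card_range, nsmul_eq_mul, pow_succ, mul_comm]
      _ ≤ ∑ a ∈ range M, (if a ≤ t then Rw L (i + 1) (t - a) else 0) := Finset.sum_le_sum h3
      _ ≤ ∑ a ∈ range L, (if a ≤ t then Rw L (i + 1) (t - a) else 0) := by
          refine Finset.sum_le_sum_of_subset_of_nonneg (Finset.range_subset_range.2 hM) fun a _ _ => ?_
          split_ifs
          · exact Rw_nonneg _ _ _
          · exact le_rfl

theorem Tw_iter (L j : ℕ) (f : ℕ → ℝ) (n : ℕ) :
    (Tw L)^[j] f n = ∑ t ∈ range (j * L + 1), Rw L j t * f (n + t) := by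
  induction j generalizing n with
  | zero =>
    simp [Rw]
  | succ j ih =>
    rw [Function.iterate_succ_apply']
    change ∑ a ∈ range L, (Tw L)^[j] f (n + a) = _
    have e1 : ∀ a ∈ range L, (Tw L)^[j] f (n + a) = ∑ t ∈ range ((j + 1) * L + 1),
        (if a ≤ t then Rw L j (t - a) else 0) * f (n + t) := by
      intro a ha
      rw [Finset.mem_range] at ha
      rw [ih (n + a)]
      have e2 : ∑ t ∈ range ((j + 1) * L + 1), (if a ≤ t then Rw L j (t - a) else 0) * f (n + t) =
          ∑ t ∈ (range ((j + 1) * L + 1)).filter (fun t => a ≤ t), Rw L j (t - a) * f (n + t) := by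
        rw [Finset.sum_filter]
        refine Finset.sum_congr rfl fun t _ => ?_
        split_ifs
        · rfl
        · rw [zero_mul]
      rw [e2]
      have e3 : (range ((j + 1) * L + 1)).filter (fun t => a ≤ t) =
          (range ((j + 1) * L + 1 - a)).map (addRightEmbedding a) := by
        ext t
        rw [Finset.mem_filter, Finset.mem_map]
        constructor
        · rintro ⟨h1, h2⟩
          rw [Finset.mem_range] at h1
          refine ⟨t - a, Finset.mem_range.2 (by omega), ?_⟩
          simp only [addRightEmbedding_apply]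
          omega
        · rintro ⟨u, h1, h2⟩
          rw [Finset.mem_range] at h1
          simp only [addRightEmbedding_apply] at h2
          rw [Finset.mem_range]
          omega
      rw [e3, Finset.sum_map]
      simp only [addRightEmbedding_apply]
      have hL : (j + 1) * L = j * L + L := by ring
      symm
      rw [← Finset.sum_subset (s₁ := range (j * L + 1))]
      · refine Finset.sum_congr rfl fun t _ => ?_
        rw [Nat.add_sub_cancel]
        congr 2
        ring
      · intro t ht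
        rw [Finset.mem_range] at ht ⊢
        omega
      · intro t _ ht
        rw [Finset.mem_range, not_lt] at ht
        rw [Nat.add_sub_cancel, Rw_supp L j t (by omega), zero_mul]
    rw [Finset.sum_congr rfl e1, Finset.sum_comm]
    refine Finset.sum_congr rfl fun t _ => ?_
    rw [← Finset.sum_mul]
    rfl

theorem Tw_per (L : ℕ) (f : ℕ → ℝ) (q : ℕ) (hf : ∀ n, f (n + q) = f n) (n : ℕ) : Tw L f (n + q) = Tw L f n := by
  unfold Tw
  refine Finset.sum_congr rfl fun a _ => ?_
  rw [← hf (n + a)]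
  congr 1
  ring

theorem Tw_full (f : ℕ → ℝ) (q : ℕ) (hf : ∀ n, f (n + q) = f n) (hz : ∑ n ∈ range q, f n = 0) (n : ℕ) :
    Tw q f n = 0 := by
  induction n with
  | zero =>
    unfold Tw
    simpa using hz
  | succ n ih =>
    have h1 : Tw q f (n + 1) + f n = Tw q f n + f (n + q) := by
      unfold Tw
      have h2 := Finset.sum_range_succ (fun a => f (n + a)) q
      have h3 := Finset.sum_range_succ' (fun a => f (n + a)) q
      have h4 : ∑ a ∈ range q, f (n + 1 + a) = ∑ a ∈ range q, f (n + (a + 1)) := by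
        refine Finset.sum_congr rfl fun a _ => ?_
        congr 1
        ring
      rw [h4]
      rw [add_zero] at h3
      linarith
    rw [ih, hf n] at h1
    linarith

theorem Tw_mul (f : ℕ → ℝ) (q k : ℕ) (hf : ∀ n, f (n + q) = f n) (hz : ∑ n ∈ range q, f n = 0) (n : ℕ) :
    Tw (q * k) f n = 0 := by
  induction k with
  | zero => simp [Tw]
  | succ k ih =>
    unfold Tw at ih ⊢
    rw [Nat.mul_succ, Finset.sum_range_add, ih, zero_add]
    have := Tw_full f q hf hz (n + q * k)
    unfold Tw at this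
    rw [← this]
    refine Finset.sum_congr rfl fun a _ => ?_
    congr 1
    ring

theorem Tw_sum (L : ℕ) (f : ℕ → ℝ) (q : ℕ) (hf : ∀ n, f (n + q) = f n) (hz : ∑ n ∈ range q, f n = 0) :
    ∑ n ∈ range q, Tw L f n = 0 := by
  unfold Tw
  rw [Finset.sum_comm]
  refine Finset.sum_eq_zero fun a _ => ?_
  have := Tw_full f q hf hz a
  unfold Tw at this
  rw [← this]
  refine Finset.sum_congr rfl fun n _ => ?_
  congr 1
  ring

theorem Tw_bd (L : ℕ) (f : ℕ → ℝ) (q : ℕ) (hq : 0 < q) (hf : ∀ n, f (n + q) = f n)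
    (hz : ∑ n ∈ range q, f n = 0) (B : ℝ) (hB : ∀ n, |f n| ≤ B) (n : ℕ) : |Tw L f n| ≤ q * B := by
  have hB0 : 0 ≤ B := le_trans (abs_nonneg _) (hB 0)
  have h1 : Tw L f n = ∑ a ∈ range (L % q), f (n + (q * (L / q) + a)) := by
    have h2 := Tw_mul f q (L / q) hf hz n
    unfold Tw at h2 ⊢
    have h3 : L = q * (L / q) + L % q := (Nat.div_add_mod L q).symm
    conv_lhs => rw [h3]
    rw [Finset.sum_range_add, h2, zero_add]
  rw [h1]
  refine (Finset.abs_sum_le_sum_abs _ _).trans ((Finset.sum_le_sum fun a _ => hB _).trans ?_)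
  rw [Finset.sum_const, Finset.card_range, nsmul_eq_mul]
  refine mul_le_mul_of_nonneg_right ?_ hB0
  exact_mod_cast (Nat.mod_lt L hq).le

/-- iterated sums of a periodic function with mean zero -/
theorem Tw_iter_bd (L : ℕ) (f : ℕ → ℝ) (q : ℕ) (hq : 0 < q) (hf : ∀ n, f (n + q) = f n)
    (hz : ∑ n ∈ range q, f n = 0) (hB : ∀ n, |f n| ≤ 1) (j : ℕ) :
    (∀ n, (Tw L)^[j] f (n + q) = (Tw L)^[j] f n) ∧ ∑ n ∈ range q, (Tw L)^[j] f n = 0 ∧
      ∀ n, |(Tw L)^[j] f n| ≤ (q : ℝ) ^ j := by
  induction j with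
  | zero => exact ⟨hf, hz, fun n => by simpa using hB n⟩
  | succ j ih =>
    obtain ⟨h1, h2, h3⟩ := ih
    rw [Function.iterate_succ_apply']
    refine ⟨fun n => Tw_per L _ q h1 n, Tw_sum L _ q h1 h2, fun n => ?_⟩
    refine (Tw_bd L _ q hq h1 h2 _ h3 n).trans (le_of_eq ?_)
    ring

theorem Tw_iter_le (L : ℕ) (f : ℕ → ℝ) (B : ℝ) (hB : ∀ n, |f n| ≤ B) (j n : ℕ) :
    |(Tw L)^[j] f n| ≤ (L : ℝ) ^ j * B := by
  induction j generalizing n with
  | zero => simpa using hB n
  | succ j ih =>
    rw [Function.iterate_succ_apply']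
    unfold Tw
    refine (Finset.abs_sum_le_sum_abs _ _).trans ((Finset.sum_le_sum fun a _ => ih (n + a)).trans (le_of_eq ?_))
    rw [Finset.sum_const, Finset.card_range, nsmul_eq_mul]
    ring

theorem Tw_iter_sub (L : ℕ) (f g : ℕ → ℝ) (j n : ℕ) :
    (Tw L)^[j] (fun m => f m - g m) n = (Tw L)^[j] f n - (Tw L)^[j] g n := by
  induction j generalizing n with
  | zero => rfl
  | succ j ih =>
    rw [Function.iterate_succ_apply', Function.iterate_succ_apply', Function.iterate_succ_apply']
    unfold Tw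
    rw [← Finset.sum_sub_distrib]
    exact Finset.sum_congr rfl fun a _ => ih (n + a)

theorem Tw_iter_const (L : ℕ) (c : ℝ) (j n : ℕ) : (Tw L)^[j] (fun _ => c) n = (L : ℝ) ^ j * c := by
  induction j generalizing n with
  | zero => simp
  | succ j ih =>
    rw [Function.iterate_succ_apply']
    change ∑ a ∈ range L, (Tw L)^[j] (fun _ => c) (n + a) = _
    rw [Finset.sum_congr rfl fun a _ => ih (n + a), Finset.sum_const, Finset.card_range, nsmul_eq_mul]
    ring

theorem Cvw_cnt (l : ℕ) (hl : 0 < l) (x : ℕ) :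
    (x : ℝ) / l ≤ (∑ m ∈ range x, if l ∣ m then (1 : ℝ) else 0) ∧
      (∑ m ∈ range x, if l ∣ m then (1 : ℝ) else 0) ≤ (x : ℝ) / l + 1 := by
  have hl' : (0 : ℝ) < l := by exact_mod_cast hl
  have key : (∑ m ∈ range x, if l ∣ m then (1 : ℝ) else 0) = (((x + (l - 1)) / l : ℕ) : ℝ) := by
    induction x with
    | zero =>
      rw [Finset.range_zero, Finset.sum_empty, zero_add, Nat.div_eq_of_lt (by omega), Nat.cast_zero]
    | succ x ih =>
      rw [Finset.sum_range_succ, ih]
      have h1 : x + 1 + (l - 1) = x + (l - 1) + 1 := by ring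
      rw [h1, Nat.succ_div]
      have h2 : x + (l - 1) + 1 = x + l := by omega
      rw [h2]
      by_cases h : l ∣ x
      · rw [if_pos h, if_pos ((Nat.dvd_add_left (dvd_refl l)).2 h)]
        push_cast
        ring
      · rw [if_neg h, if_neg (fun h3 => h ((Nat.dvd_add_left (dvd_refl l)).1 h3))]
        push_cast
        ring
  rw [key]
  have h1 : (x + (l - 1)) / l * l ≤ x + (l - 1) := Nat.div_mul_le_self _ _
  have h2 : x + (l - 1) < ((x + (l - 1)) / l + 1) * l := by
    have := Nat.lt_mul_div_succ (x + (l - 1)) hl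
    rw [mul_comm] at this
    exact this
  have h2' : x ≤ (x + (l - 1)) / l * l := by
    rw [Nat.add_mul, one_mul] at h2
    omega
  have h1' : (x + (l - 1)) / l * l ≤ x + l := by omega
  constructor
  · rw [div_le_iff₀ hl']
    exact_mod_cast h2'
  · have h3 : ((((x + (l - 1)) / l : ℕ) : ℝ)) ≤ ((x : ℝ) + l) / l := by
      rw [le_div_iff₀ hl']
      exact_mod_cast h1'
    rw [add_div, div_self hl'.ne'] at h3
    exact h3

theorem Tw_dvd (L l : ℕ) (hl : 0 < l) (n : ℕ) :
    |Tw L (fun m => if l ∣ m then (1 : ℝ) else 0) n - (L : ℝ) / l| ≤ 1 := by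
  have h1 : Tw L (fun m => if l ∣ m then (1 : ℝ) else 0) n =
      (∑ m ∈ range (n + L), if l ∣ m then (1 : ℝ) else 0) - (∑ m ∈ range n, if l ∣ m then (1 : ℝ) else 0) := by
    rw [Finset.sum_range_add]
    unfold Tw
    ring
  rw [h1]
  obtain ⟨a1, a2⟩ := Cvw_cnt l hl (n + L)
  obtain ⟨b1, b2⟩ := Cvw_cnt l hl n
  have e : ((n + L : ℕ) : ℝ) / l = (n : ℝ) / l + (L : ℝ) / l := by
    push_cast
    rw [add_div]
  rw [e] at a1 a2
  rw [abs_le]
  constructor <;> linarith

theorem Tw_iter_dvd (L l : ℕ) (hl : 0 < l) (j n : ℕ) :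
    |(Tw L)^[j + 1] (fun m => if l ∣ m then (1 : ℝ) else 0) n - (L : ℝ) ^ j * ((L : ℝ) / l)| ≤ (L : ℝ) ^ j := by
  rw [Function.iterate_succ_apply, ← Tw_iter_const L ((L : ℝ) / l) j n, ← Tw_iter_sub]
  refine (Tw_iter_le L _ 1 (fun m => Tw_dvd L l hl m) j n).trans (le_of_eq ?_)
  ring

end Pool.Agent.Lib.NagA
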