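import Pool.Agent.Lib.MP_60fb2a_nt.S.Cnt2

/-!
MP_60fb2a_nt, directory S (sharp exceptional sets), module Fix2: from `D` to `|d|` by dyadic intervals.
-/

set_option autoImplicit false

namespace Pool.Agent.Lib.NagA

open Polynomial Finset Classical

/-- natural averages, range `(log |d|)^a ≤ X ≤ exp(|d|^κ)`, at most `N^θ` exceptions -/
def Fix2Stmt : Prop := ∀ C ε κ θ a : ℝ, 0 < C → 0 < ε → 0 < κ → κ < θ → θ ≤ 1 → 1 + 2 / θ < a →
  ∃ N₀ : ℕ, ∀ N : ℕ, N₀ ≤ N →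
  ∀ W : ℕ → ℝ, Bd W C → (((Sq N).filter (fun d : ℤ => ∃ X : ℝ, Real.log |(d : ℝ)| ^ a ≤ X ∧
    X ≤ Real.exp (|(d : ℝ)| ^ κ) ∧ ε < |SX W d X|)).card : ℝ) ≤ (N : ℝ) ^ θ

private theorem Fix2_ev (α K : ℝ) (hα : 0 < α) : ∃ N₀ : ℕ, ∀ N : ℕ, N₀ ≤ N →
    1 ≤ N ∧ 4 * Real.log N + K ≤ (N : ℝ) ^ α := by
  have a3 := (tendsto_natCast_atTop_atTop (R := ℝ)).eventually
    ((isLittleO_log_rpow_atTop hα).bound (show (0 : ℝ) < 1 / 8 by norm_num))
  have a4 := (tendsto_natCast_atTop_atTop (R := ℝ)).eventually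
    ((tendsto_rpow_atTop hα).eventually_ge_atTop (2 * K))
  obtain ⟨D₀, h⟩ := Filter.eventually_atTop.1 ((a3.and a4).and (Filter.eventually_ge_atTop 1))
  refine ⟨D₀, fun D hD => ?_⟩
  obtain ⟨⟨b3, b4⟩, b5⟩ := h D hD
  refine ⟨b5, ?_⟩
  have hD1 : (1 : ℝ) ≤ D := by exact_mod_cast b5
  have hl : 0 ≤ Real.log (D : ℝ) := Real.log_nonneg hD1
  rw [Real.norm_of_nonneg hl, Real.norm_of_nonneg (by positivity)] at b3
  linarith

/-- Dyadic decomposition. -/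
theorem Fix2_gen (θ₁ θ : ℝ) (h0 : 0 < θ₁) (h1 : θ₁ < θ) (h1' : θ ≤ 1) (D₀ : ℕ) : ∃ N₀ : ℕ, ∀ F : ℤ → Prop,
    (∀ D : ℕ, D₀ ≤ D → (((Sq D).filter (fun d : ℤ => (D : ℝ) / 2 ≤ |(d : ℝ)| ∧ F d)).card : ℝ) ≤ (D : ℝ) ^ θ₁) →
    ∀ N : ℕ, N₀ ≤ N → (((Sq N).filter F).card : ℝ) ≤ (N : ℝ) ^ θ := by
  obtain ⟨N₀, hN₀⟩ := Fix2_ev (θ - θ₁) (4 + (2 * (D₀ : ℝ) + 1)) (by linarith)
  refine ⟨N₀, fun F H N hN => ?_⟩
  obtain ⟨hN1, hN2⟩ := hN₀ N hN
  have hN1' : (1 : ℝ) ≤ N := by exact_mod_cast hN1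
  have hNpos : (0 : ℝ) < N := by linarith
  have hsub : (Sq N).filter F ⊆ Finset.Icc (-(D₀ : ℤ)) D₀ ∪ ((Finset.range (Nat.log 2 N + 2)).filter
      (fun j => D₀ ≤ 2 ^ j)).biUnion
      (fun j => (Sq (2 ^ j)).filter (fun d : ℤ => ((2 ^ j : ℕ) : ℝ) / 2 ≤ |(d : ℝ)| ∧ F d)) := by
    intro d hd
    rw [Finset.mem_filter] at hd
    obtain ⟨hd1, hd2⟩ := hd
    obtain ⟨hd3, hd4⟩ := Finset.mem_filter.1 hd1
    rw [Finset.mem_union]
    by_cases hdd : d.natAbs ≤ D₀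
    · left
      rw [Finset.mem_Icc]
      omega
    · right
      rw [not_le] at hdd
      have hn0 : d.natAbs ≠ 0 := by omega
      have hnN : d.natAbs ≤ N := by
        rw [Finset.mem_Icc] at hd3
        omega
      have e1 : 2 ^ (Nat.log 2 d.natAbs) ≤ d.natAbs := Nat.pow_log_le_self 2 hn0
      have e2 : d.natAbs < 2 ^ (Nat.log 2 d.natAbs + 1) := Nat.lt_pow_succ_log_self (by norm_num) _
      have e3 : Nat.log 2 d.natAbs ≤ Nat.log 2 N := Nat.log_mono_right hnN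
      rw [Finset.mem_biUnion]
      refine ⟨Nat.log 2 d.natAbs + 1, ?_, ?_⟩
      · rw [Finset.mem_filter, Finset.mem_range]
        exact ⟨by omega, by omega⟩
      · rw [Finset.mem_filter]
        refine ⟨?_, ?_, hd2⟩
        · unfold Sq
          rw [Finset.mem_filter, Finset.mem_Icc]
          refine ⟨?_, hd4⟩
          generalize 2 ^ (Nat.log 2 d.natAbs + 1) = Q at e2
          omega
        · have h6 : |(d : ℝ)| = (d.natAbs : ℝ) := by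
            rw [Nat.cast_natAbs]
            push_cast
            rfl
          rw [h6, pow_succ]
          push_cast
          rw [mul_div_assoc, div_self (by norm_num : (2 : ℝ) ≠ 0), mul_one]
          exact_mod_cast e1
  have hc : ((Finset.Icc (-(D₀ : ℤ)) D₀).card : ℝ) = 2 * (D₀ : ℝ) + 1 := by
    rw [Int.card_Icc]
    have : ((D₀ : ℤ) + 1 - -(D₀ : ℤ)).toNat = 2 * D₀ + 1 := by omega
    rw [this]
    push_cast
    ring
  have h2N : ∀ j ∈ (Finset.range (Nat.log 2 N + 2)).filter (fun j => D₀ ≤ 2 ^ j),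
      (((Sq (2 ^ j)).filter (fun d : ℤ => ((2 ^ j : ℕ) : ℝ) / 2 ≤ |(d : ℝ)| ∧ F d)).card : ℝ) ≤ 2 * (N : ℝ) ^ θ₁ := by
    intro j hj
    rw [Finset.mem_filter, Finset.mem_range] at hj
    refine le_trans (H (2 ^ j) hj.2) ?_
    have e1 : 2 ^ j ≤ 2 * N := by
      have e2 : 2 ^ (Nat.log 2 N) ≤ N := Nat.pow_log_le_self 2 (by omega)
      calc 2 ^ j ≤ 2 ^ (Nat.log 2 N + 1) := Nat.pow_le_pow_right (by norm_num) (by omega)
        _ = 2 * 2 ^ (Nat.log 2 N) := by rw [pow_succ]; ring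
        _ ≤ 2 * N := Nat.mul_le_mul_left 2 e2
    calc ((2 ^ j : ℕ) : ℝ) ^ θ₁ ≤ (2 * (N : ℝ)) ^ θ₁ :=
          Real.rpow_le_rpow (by positivity) (by exact_mod_cast e1) h0.le
      _ = 2 ^ θ₁ * (N : ℝ) ^ θ₁ := Real.mul_rpow (by norm_num) hNpos.le
      _ ≤ 2 * (N : ℝ) ^ θ₁ := by
          refine mul_le_mul_of_nonneg_right ?_ (by positivity)
          calc (2 : ℝ) ^ θ₁ ≤ 2 ^ (1 : ℝ) := Real.rpow_le_rpow_of_exponent_le (by norm_num) (by linarith)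
            _ = 2 := Real.rpow_one 2
  have hlogN : (Nat.log 2 N : ℝ) ≤ 2 * Real.log N := by
    have e2 : 2 ^ (Nat.log 2 N) ≤ N := Nat.pow_log_le_self 2 (by omega)
    have e3 : ((2 : ℝ)) ^ (Nat.log 2 N) ≤ N := by exact_mod_cast e2
    have e4 := Real.log_le_log (by positivity) e3
    rw [Real.log_pow] at e4
    have e5 : (1 : ℝ) / 2 ≤ Real.log 2 := by
      have := Real.log_two_gt_d9
      linarith
    have e6 : (0 : ℝ) ≤ (Nat.log 2 N : ℝ) := Nat.cast_nonneg _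
    nlinarith
  have hNθ : 1 ≤ (N : ℝ) ^ θ₁ := Real.one_le_rpow hN1' h0.le
  calc (((Sq N).filter F).card : ℝ) ≤ ((Finset.Icc (-(D₀ : ℤ)) D₀ ∪ ((Finset.range (Nat.log 2 N + 2)).filter
      (fun j => D₀ ≤ 2 ^ j)).biUnion
      (fun j => (Sq (2 ^ j)).filter (fun d : ℤ => ((2 ^ j : ℕ) : ℝ) / 2 ≤ |(d : ℝ)| ∧ F d))).card : ℝ) := by
        exact_mod_cast Finset.card_le_card hsub
    _ ≤ ((Finset.Icc (-(D₀ : ℤ)) D₀).card : ℝ) + ((((Finset.range (Nat.log 2 N + 2)).filter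
      (fun j => D₀ ≤ 2 ^ j)).biUnion
      (fun j => (Sq (2 ^ j)).filter (fun d : ℤ => ((2 ^ j : ℕ) : ℝ) / 2 ≤ |(d : ℝ)| ∧ F d))).card : ℝ) := by
        exact_mod_cast Finset.card_union_le _ _
    _ ≤ (2 * (D₀ : ℝ) + 1) + ∑ j ∈ (Finset.range (Nat.log 2 N + 2)).filter (fun j => D₀ ≤ 2 ^ j),
      (((Sq (2 ^ j)).filter (fun d : ℤ => ((2 ^ j : ℕ) : ℝ) / 2 ≤ |(d : ℝ)| ∧ F d)).card : ℝ) := by
        rw [hc]
        gcongr
        exact_mod_cast Finset.card_biUnion_le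
    _ ≤ (2 * (D₀ : ℝ) + 1) + ∑ j ∈ (Finset.range (Nat.log 2 N + 2)).filter (fun j => D₀ ≤ 2 ^ j),
      2 * (N : ℝ) ^ θ₁ := by
        gcongr with j hj
        exact h2N j hj
    _ ≤ (2 * (D₀ : ℝ) + 1) + (2 * Real.log N + 2) * (2 * (N : ℝ) ^ θ₁) := by
        rw [Finset.sum_const, nsmul_eq_mul]
        have e1 : (((Finset.range (Nat.log 2 N + 2)).filter (fun j => D₀ ≤ 2 ^ j)).card : ℝ) ≤
            2 * Real.log N + 2 := by
          have e2 := Finset.card_filter_le (Finset.range (Nat.log 2 N + 2)) (fun j => D₀ ≤ 2 ^ j)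
          rw [Finset.card_range] at e2
          have e3 : (((Finset.range (Nat.log 2 N + 2)).filter (fun j => D₀ ≤ 2 ^ j)).card : ℝ) ≤
            (Nat.log 2 N : ℝ) + 2 := by exact_mod_cast e2
          linarith
        have := mul_le_mul_of_nonneg_right e1 (by positivity : 0 ≤ 2 * (N : ℝ) ^ θ₁)
        linarith
    _ ≤ (4 * Real.log N + (4 + (2 * (D₀ : ℝ) + 1))) * (N : ℝ) ^ θ₁ := by
        have e1 : (2 * (D₀ : ℝ) + 1) ≤ (2 * (D₀ : ℝ) + 1) * (N : ℝ) ^ θ₁ :=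
          le_mul_of_one_le_right (by positivity) hNθ
        nlinarith
    _ ≤ (N : ℝ) ^ (θ - θ₁) * (N : ℝ) ^ θ₁ := mul_le_mul_of_nonneg_right hN2 (by positivity)
    _ = (N : ℝ) ^ θ := by
        rw [← Real.rpow_add hNpos]
        congr 1
        ring

/-- lower ends of the range -/
theorem Fix2_low (a₁ a : ℝ) (h0 : 0 < a₁) (h1 : a₁ < a) : ∃ D₀ : ℕ, ∀ D : ℕ, D₀ ≤ D → 2 ≤ D ∧ ∀ t : ℝ, (D : ℝ) / 2 ≤ t →
    Real.log D ^ a₁ ≤ Real.log t ^ a := by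
  have ha : 0 < a := by linarith
  have hlog : Filter.Tendsto (fun D : ℕ => Real.log D) Filter.atTop Filter.atTop :=
    Real.tendsto_log_atTop.comp tendsto_natCast_atTop_atTop
  have a1 := hlog.eventually_ge_atTop 2
  have a2 := hlog.eventually ((tendsto_rpow_atTop (show 0 < a - a₁ by linarith)).eventually_ge_atTop ((2 : ℝ) ^ a))
  obtain ⟨D₀, h⟩ := Filter.eventually_atTop.1 ((a1.and a2).and (Filter.eventually_ge_atTop 2))
  refine ⟨D₀, fun D hD => ?_⟩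
  obtain ⟨⟨b1, b2⟩, b3⟩ := h D hD
  refine ⟨b3, fun t ht => ?_⟩
  have hD0 : (0 : ℝ) < D := by
    have : 0 < D := by omega
    exact_mod_cast this
  have hlt : Real.log D / 2 ≤ Real.log t := by
    have e1 : Real.log ((D : ℝ) / 2) ≤ Real.log t := Real.log_le_log (by positivity) ht
    rw [Real.log_div hD0.ne' (by norm_num)] at e1
    have := Real.log_two_lt_d9
    linarith
  have hL0 : 0 < Real.log D := by linarith
  calc Real.log D ^ a₁ = Real.log D ^ a₁ * 1 := (mul_one _).symm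
    _ ≤ Real.log D ^ a₁ * (Real.log D ^ (a - a₁) / 2 ^ a) := by
        refine mul_le_mul_of_nonneg_left ?_ (by positivity)
        rw [le_div_iff₀ (by positivity), one_mul]
        exact b2
    _ = (Real.log D / 2) ^ a := by
        rw [Real.div_rpow hL0.le (by norm_num), ← mul_div_assoc, ← Real.rpow_add hL0]
        congr 2
        ring
    _ ≤ Real.log t ^ a := Real.rpow_le_rpow (by positivity) hlt ha.le

/-- choice of intermediate exponents -/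
theorem Fix2_exp (κ θ a : ℝ) (hκ : 0 < κ) (hκθ : κ < θ) (ha : 1 + 2 / θ < a) :
    ∃ θ₁ a₁ : ℝ, κ < θ₁ ∧ θ₁ < θ ∧ 1 + 2 / θ₁ < a₁ ∧ a₁ < a := by
  have hθ0 : 0 < θ := by linarith
  have ha1 : 1 < a := by
    have : 0 < 2 / θ := by positivity
    linarith
  have ha1' : 0 < a - 1 := by linarith
  have haθ : 2 / (a - 1) < θ := by
    rw [div_lt_iff₀ ha1']
    have h5 : 2 / θ < a - 1 := by linarith
    rw [div_lt_iff₀ hθ0] at h5
    linarith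
  obtain ⟨θ₁, hθ₁, hθ₁'⟩ : ∃ θ₁ : ℝ, max κ (2 / (a - 1)) < θ₁ ∧ θ₁ < θ := exists_between (max_lt hκθ haθ)
  have hκ1 : κ < θ₁ := lt_of_le_of_lt (le_max_left _ _) hθ₁
  have hθ₁0 : 0 < θ₁ := lt_trans hκ hκ1
  have ha2 : 1 + 2 / θ₁ < a := by
    have h5 : 2 / (a - 1) < θ₁ := lt_of_le_of_lt (le_max_right _ _) hθ₁
    rw [div_lt_iff₀ ha1'] at h5
    have h6 : 2 / θ₁ < a - 1 := by
      rw [div_lt_iff₀ hθ₁0]
      linarith
    linarith
  obtain ⟨a₁, h3, h4⟩ := exists_between ha2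
  exact ⟨θ₁, a₁, hκ1, hθ₁', h3, h4⟩

theorem tFix2 (hC : Cnt2Stmt) : Fix2Stmt := by
  intro C ε κ θ a hC0 hε hκ hκθ hθ ha
  obtain ⟨θ₁, a₁, g1, g2, g3, g4⟩ := Fix2_exp κ θ a hκ hκθ ha
  have hθ₁ : 0 < θ₁ := by linarith
  have ha₁ : 0 < a₁ := by
    have : 0 < 2 / θ₁ := by positivity
    linarith
  obtain ⟨D₁, H⟩ := hC C ε κ θ₁ a₁ hC0 hε hκ g1 (by linarith) g3
  obtain ⟨D₂, H2⟩ := Fix2_low a₁ a ha₁ g4
  obtain ⟨N₀, H0⟩ := Fix2_gen θ₁ θ hθ₁ g2 hθ (max D₁ D₂)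
  refine ⟨N₀, fun N hN W hW => H0 _ ?_ N hN⟩
  intro D hD
  have hD1 : D₁ ≤ D := le_trans (le_max_left _ _) hD
  have hD2 : D₂ ≤ D := le_trans (le_max_right _ _) hD
  refine le_trans ?_ (H D hD1 W hW)
  refine Nat.cast_le.2 (Finset.card_le_card ?_)
  intro d hd
  rw [Finset.mem_filter] at hd ⊢
  obtain ⟨hd1, hd2, X, hX1, hX2, hX3⟩ := hd
  have hdD : |(d : ℝ)| ≤ D := by
    have h2 := (Finset.mem_Icc.1 (Finset.mem_filter.1 hd1).1)
    have h3 : |d| ≤ (D : ℤ) := abs_le.2 h2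
    exact_mod_cast h3
  refine ⟨hd1, X, le_trans ((H2 D hD2).2 _ hd2) hX1, le_trans hX2 ?_, hX3⟩
  exact Real.exp_le_exp.2 (Real.rpow_le_rpow (abs_nonneg _) hdD hκ.le)

end Pool.Agent.Lib.NagA
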