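import Pool.Agent.Lib.MP_60fb2a_nt.An.SpecL
import Pool.Agent.Lib.MP_60fb2a_nt.S.Fix2

/-!
MP_60fb2a_nt, directory S (sharp exceptional sets), logarithmic averages.
-/

set_option autoImplicit false

namespace Pool.Agent.Lib.NagA

open Polynomial Finset Classical

/-- large scales: at most `D^θ` bad `d` for `exp(D^κ₀) ≤ X ≤ exp(exp(D^κ))`, `κ < θ` -/
def Lgt2Stmt : Prop := ∀ C ε κ₀ κ θ : ℝ, 0 < C → 0 < ε → 0 < κ₀ → 0 < κ → κ < θ → ∃ D₀ : ℕ, ∀ D : ℕ, D₀ ≤ D →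
  ∀ W : ℕ → ℝ, Bd W C → (((Sq D).filter (fun d : ℤ => ∃ X : ℝ, Real.exp ((D : ℝ) ^ κ₀) ≤ X ∧
    X ≤ Real.exp (Real.exp ((D : ℝ) ^ κ)) ∧ ε < |SL W d X|)).card : ℝ) ≤ (D : ℝ) ^ θ

/-- low range: `exp((loglog D)^2/2) ≤ X ≤ exp(D^κ)` -/
def Llo2Stmt : Prop := ∀ C ε κ θ : ℝ, 0 < C → 0 < ε → 0 < κ → κ < θ → θ ≤ 1 → ∃ D₀ : ℕ, ∀ D : ℕ, D₀ ≤ D →
  ∀ W : ℕ → ℝ, Bd W C → (((Sq D).filter (fun d : ℤ => ∃ X : ℝ, Real.exp (Real.log (Real.log D) ^ 2 / 2) ≤ X ∧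
    X ≤ Real.exp ((D : ℝ) ^ κ) ∧ ε < |SL W d X|)).card : ℝ) ≤ (D : ℝ) ^ θ

/-- the whole range -/
def Lfx2Stmt : Prop := ∀ C ε κ θ : ℝ, 0 < C → 0 < ε → 0 < κ → κ < θ → θ ≤ 1 → ∃ N₀ : ℕ, ∀ N : ℕ, N₀ ≤ N →
  ∀ W : ℕ → ℝ, Bd W C → (((Sq N).filter (fun d : ℤ => ∃ X : ℝ,
    Real.exp (Real.log (Real.log |(d : ℝ)|) ^ 2) ≤ X ∧
    X ≤ Real.exp (Real.exp (|(d : ℝ)| ^ κ)) ∧ ε < |SL W d X|)).card : ℝ) ≤ (N : ℝ) ^ θ

theorem tLgt2 (h1 : LgcStmt) (h2 : LglStmt) : Lgt2Stmt := by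
  intro C ε κ₀ κ θ hC hε hκ₀ hκ hθ
  obtain ⟨K, D1, hK, hL⟩ := h1 C (ε / 2) κ₀ hC (by positivity) hκ₀
  obtain ⟨h, X₀, hh, hh1, hX₀, hg⟩ := h2 C (ε / 2) hC (by positivity)
  have hlog : 0 < Real.log (1 + h) := Real.log_pos (by linarith)
  -- the large values of `D`
  have t1 : ∀ᶠ D : ℕ in Filter.atTop, Real.log X₀ ≤ (D : ℝ) ^ κ₀ :=
    ((tendsto_rpow_atTop hκ₀).comp tendsto_natCast_atTop_atTop).eventually_ge_atTop _
  have t2 : ∀ᶠ D : ℕ in Filter.atTop, K * (1 / Real.log (1 + h) + 1) ≤ (D : ℝ) ^ (θ - κ) :=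
    ((tendsto_rpow_atTop (by linarith : (0 : ℝ) < θ - κ)).comp
      tendsto_natCast_atTop_atTop).eventually_ge_atTop _
  obtain ⟨D₀, hD₀⟩ := Filter.eventually_atTop.1 (t1.and (t2.and (Filter.eventually_ge_atTop (D1 + 1))))
  refine ⟨D₀, fun D hD W hW => ?_⟩
  obtain ⟨a1, a2, a3⟩ := hD₀ D hD
  have hD1 : (1 : ℝ) ≤ D := by
    have : 1 ≤ D := by omega
    exact_mod_cast this
  have hD0 : (0 : ℝ) < D := by linarith
  have hDκ : (1 : ℝ) ≤ (D : ℝ) ^ κ₀ := Real.one_le_rpow hD1 hκ₀.le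
  have hDδ : (1 : ℝ) ≤ (D : ℝ) ^ κ := Real.one_le_rpow hD1 hκ.le
  obtain ⟨J, hJ⟩ : ∃ J : ℕ, J = ⌊(D : ℝ) ^ κ / Real.log (1 + h)⌋₊ := ⟨_, rfl⟩
  let G : ℕ → ℝ := fun j => Real.exp ((D : ℝ) ^ κ₀ * (1 + h) ^ j)
  have hG0 : ∀ j, Real.exp ((D : ℝ) ^ κ₀) ≤ G j := by
    intro j
    apply Real.exp_le_exp.2
    have : (1 : ℝ) ≤ (1 + h) ^ j := one_le_pow₀ (by linarith)
    nlinarith
  have hsub : ((Sq D).filter (fun d => ∃ X : ℝ, Real.exp ((D : ℝ) ^ κ₀) ≤ X ∧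
      X ≤ Real.exp (Real.exp ((D : ℝ) ^ κ)) ∧ ε < |SL W d X|)) ⊆
      (Finset.range (J + 1)).biUnion
        (fun j => (Sq D).filter (fun d => ε / 2 < |SL W d (G j)|)) := by
    intro d hd
    rw [Finset.mem_filter] at hd
    obtain ⟨hdS, X, hX1, hX2, hX3⟩ := hd
    have hXpos : 0 < X := (Real.exp_pos _).trans_le hX1
    have l1 : (D : ℝ) ^ κ₀ ≤ Real.log X := by
      rw [Real.le_log_iff_exp_le hXpos]
      exact hX1
    have l2 : Real.log X ≤ Real.exp ((D : ℝ) ^ κ) := by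
      rw [Real.log_le_iff_le_exp hXpos]
      exact hX2
    have hpos : 0 < (D : ℝ) ^ κ₀ := by linarith
    have hq : 1 ≤ Real.log X / (D : ℝ) ^ κ₀ := by
      rw [le_div_iff₀ hpos, one_mul]
      exact l1
    obtain ⟨j, hj1, hj2⟩ := exists_nat_pow_near hq (by linarith : (1 : ℝ) < 1 + h)
    rw [le_div_iff₀ hpos] at hj1
    rw [div_lt_iff₀ hpos] at hj2
    have hjJ : j < J + 1 := by
      rw [Nat.lt_succ_iff, hJ]
      apply Nat.le_floor
      rw [le_div_iff₀ hlog]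
      have h3 : (1 + h) ^ j ≤ Real.exp ((D : ℝ) ^ κ) := by
        have h4 : (0 : ℝ) < (1 + h) ^ j := by positivity
        nlinarith
      have h5 := Real.log_le_log (by positivity) h3
      rw [Real.log_exp, Real.log_pow] at h5
      exact h5
    have g1 : G j ≤ X := by
      change Real.exp _ ≤ X
      rw [← Real.le_log_iff_exp_le hXpos]
      linarith
    have g2 : X ≤ G j ^ (1 + h) := by
      change X ≤ Real.exp _ ^ (1 + h)
      rw [← Real.exp_mul, ← Real.log_le_iff_le_exp hXpos]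
      have e : (D : ℝ) ^ κ₀ * (1 + h) ^ j * (1 + h) = (1 + h) ^ (j + 1) * (D : ℝ) ^ κ₀ := by ring
      rw [e]
      exact hj2.le
    have g3 : X₀ ≤ G j := by
      refine le_trans ?_ (hG0 j)
      rw [← Real.log_le_iff_le_exp (by linarith)]
      exact a1
    have h6 := hg W hW d (G j) X g3 g1 g2
    rw [Finset.mem_biUnion]
    refine ⟨j, Finset.mem_range.2 hjJ, Finset.mem_filter.2 ⟨hdS, ?_⟩⟩
    have h7 := abs_sub_abs_le_abs_sub (SL W d X) (SL W d (G j))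
    linarith
  have hcard : (((Sq D).filter (fun d => ∃ X : ℝ, Real.exp ((D : ℝ) ^ κ₀) ≤ X ∧
      X ≤ Real.exp (Real.exp ((D : ℝ) ^ κ)) ∧ ε < |SL W d X|)).card : ℝ) ≤ (J + 1) * K := by
    have c1 := (Finset.card_le_card hsub).trans Finset.card_biUnion_le
    have c2 : (((∑ j ∈ Finset.range (J + 1),
        ((Sq D).filter (fun d => ε / 2 < |SL W d (G j)|)).card : ℕ)) : ℝ) ≤ (J + 1) * K := by
      push_cast
      have c3 : ∀ j ∈ Finset.range (J + 1),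
          (((Sq D).filter (fun d => ε / 2 < |SL W d (G j)|)).card : ℝ) ≤ K := fun j _ =>
        hL D (by omega) W hW (G j) (hG0 j)
      have c4 := Finset.sum_le_sum c3
      rw [Finset.sum_const, Finset.card_range, nsmul_eq_mul] at c4
      push_cast at c4
      exact c4
    exact le_trans (by exact_mod_cast c1) c2
  refine hcard.trans ?_
  have hJle : (J : ℝ) ≤ (D : ℝ) ^ κ / Real.log (1 + h) := by
    rw [hJ]
    exact Nat.floor_le (by positivity)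
  have e1 : (D : ℝ) ^ θ = (D : ℝ) ^ κ * (D : ℝ) ^ (θ - κ) := by
    rw [← Real.rpow_add hD0]
    congr 1
    ring
  rw [e1]
  have e2 : ((J : ℝ) + 1) ≤ (D : ℝ) ^ κ * (1 / Real.log (1 + h) + 1) := by
    have : (D : ℝ) ^ κ * (1 / Real.log (1 + h) + 1) =
        (D : ℝ) ^ κ / Real.log (1 + h) + (D : ℝ) ^ κ := by ring
    rw [this]
    linarith
  calc ((J : ℝ) + 1) * K ≤ (D : ℝ) ^ κ * (1 / Real.log (1 + h) + 1) * K :=
        mul_le_mul_of_nonneg_right e2 hK.le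
    _ = (D : ℝ) ^ κ * (K * (1 / Real.log (1 + h) + 1)) := by ring
    _ ≤ (D : ℝ) ^ κ * (D : ℝ) ^ (θ - κ) := mul_le_mul_of_nonneg_left a2 (by linarith)

theorem tLlo2 (hC : Cnt2Stmt) (hL : LabStmt) : Llo2Stmt := by
  intro C ε κ θ hC0 hε hκ hκθ hθ
  have hθ0 : 0 < θ := by linarith
  obtain ⟨a, ha⟩ : ∃ a : ℝ, a = 2 + 2 / θ := ⟨_, rfl⟩
  have ha0 : 0 < a := by rw [ha]; positivity
  have ha1 : 1 + 2 / θ < a := by rw [ha]; linarith
  obtain ⟨D₁, H⟩ := hC C (ε / 2) κ θ a hC0 (by positivity) hκ hκθ hθ ha1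
  have hlog : Filter.Tendsto (fun D : ℕ => Real.log D) Filter.atTop Filter.atTop :=
    Real.tendsto_log_atTop.comp tendsto_natCast_atTop_atTop
  have hlog2 : Filter.Tendsto (fun D : ℕ => Real.log (Real.log D)) Filter.atTop Filter.atTop :=
    Real.tendsto_log_atTop.comp hlog
  obtain ⟨D₂, h⟩ := Filter.eventually_atTop.1 (((hlog.eventually_ge_atTop 1).and
    (hlog2.eventually_ge_atTop (max 1 (max (2 * a) ((16 * C + 8 * C * a) / ε))))).and
      (Filter.eventually_ge_atTop 1))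
  refine ⟨max D₁ D₂, fun D hD W hW => ?_⟩
  have hD1 : D₁ ≤ D := le_trans (le_max_left _ _) hD
  obtain ⟨⟨b1, b2⟩, b3⟩ := h D (le_trans (le_max_right _ _) hD)
  obtain ⟨L, hLL⟩ : ∃ L : ℝ, L = Real.log D := ⟨_, rfl⟩
  rw [← hLL] at b1 b2
  have hL0 : 0 < L := by linarith
  obtain ⟨l, hl⟩ : ∃ l : ℝ, l = Real.log L := ⟨_, rfl⟩
  rw [← hl] at b2
  have c1 : 1 ≤ l := le_trans (le_max_left _ _) b2
  have c2 : 2 * a ≤ l := le_trans (le_trans (le_max_left _ _) (le_max_right _ _)) b2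
  have c3 : 16 * C + 8 * C * a ≤ l * ε := by
    have h5 : (16 * C + 8 * C * a) / ε ≤ l := le_trans (le_trans (le_max_right _ _) (le_max_right _ _)) b2
    rwa [div_le_iff₀ hε] at h5
  have hY : L ^ a = Real.exp (a * l) := by
    rw [Real.rpow_def_of_pos hL0, ← hl, mul_comm]
  refine le_trans ?_ (H D hD1 W hW)
  refine Nat.cast_le.2 (Finset.card_le_card ?_)
  intro d hd
  rw [Finset.mem_filter] at hd ⊢
  refine ⟨hd.1, ?_⟩
  obtain ⟨X, hX1, hX2, hX3⟩ := hd.2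
  rw [← hLL, ← hl] at hX1
  rw [← hLL]
  by_contra hcon
  push Not at hcon
  have hX0 : 0 < X := lt_of_lt_of_le (Real.exp_pos _) hX1
  have hY1 : 1 ≤ L ^ a := Real.one_le_rpow b1 ha0.le
  have hlX : l ^ 2 / 2 ≤ Real.log X := by
    rw [Real.le_log_iff_exp_le hX0]
    exact hX1
  have hlX0 : 0 < Real.log X := lt_of_lt_of_le (by positivity) hlX
  have hYX : L ^ a ≤ X := by
    refine le_trans ?_ hX1
    rw [hY]
    refine Real.exp_le_exp.2 ?_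
    nlinarith
  have h1 := hL C (ε / 2) (L ^ a) X W d hC0 (by positivity) hY1 hYX hW (by
    intro t ht1 ht2
    exact hcon t ht1 (le_trans ht2 hX2))
  have h2 : |SL W d X| ≤ ε := by
    unfold SL
    rw [abs_mul, abs_of_pos (by positivity : 0 < 1 / Real.log X)]
    have h3 : 2 * C + 2 * C * (1 + Real.log (L ^ a)) + ε / 2 * Real.log X ≤ ε * Real.log X := by
      rw [Real.log_rpow hL0, ← hl]
      have h4 : ε * (l ^ 2 / 2) ≤ ε * Real.log X := mul_le_mul_of_nonneg_left hlX hε.le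
      have h5 : (16 * C + 8 * C * a) * l ≤ l * ε * l := mul_le_mul_of_nonneg_right c3 (by linarith)
      have h6 : C ≤ C * l := by nlinarith
      nlinarith
    calc 1 / Real.log X * |∑ p ∈ OP ⌊X⌋₊, W p * jc d p * (Real.log p / p)| ≤
          1 / Real.log X * (ε * Real.log X) :=
          mul_le_mul_of_nonneg_left (le_trans h1 h3) (by positivity)
      _ = ε := by field_simp
  linarith

private theorem Lfx2_low : ∃ D₀ : ℕ, ∀ D : ℕ, D₀ ≤ D → 2 ≤ D ∧ ∀ t : ℝ, (D : ℝ) / 2 ≤ t →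
    Real.log (Real.log D) ^ 2 / 2 ≤ Real.log (Real.log t) ^ 2 := by
  have hlog : Filter.Tendsto (fun D : ℕ => Real.log D) Filter.atTop Filter.atTop :=
    Real.tendsto_log_atTop.comp tendsto_natCast_atTop_atTop
  have hlog2 : Filter.Tendsto (fun D : ℕ => Real.log (Real.log D)) Filter.atTop Filter.atTop :=
    Real.tendsto_log_atTop.comp hlog
  obtain ⟨D₀, h⟩ := Filter.eventually_atTop.1 (((hlog.eventually_ge_atTop 2).and
    (hlog2.eventually_ge_atTop 4)).and (Filter.eventually_ge_atTop 2))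
  refine ⟨D₀, fun D hD => ?_⟩
  obtain ⟨⟨b1, b2⟩, b3⟩ := h D hD
  refine ⟨b3, fun t ht => ?_⟩
  have hD0 : (0 : ℝ) < D := by
    have : 0 < D := by omega
    exact_mod_cast this
  have hlt : Real.log D / 2 ≤ Real.log t := by
    have e1 : Real.log ((D : ℝ) / 2) ≤ Real.log t := Real.log_le_log (by positivity) ht
    rw [Real.log_div hD0.ne' (by norm_num)] at e1
    have := Real.log_two_lt_d9
    linarith
  have hL0 : 0 < Real.log D := by linarith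
  have hll : Real.log (Real.log D) - 1 ≤ Real.log (Real.log t) := by
    have e1 : Real.log (Real.log D / 2) ≤ Real.log (Real.log t) := Real.log_le_log (by positivity) hlt
    rw [Real.log_div hL0.ne' (by norm_num)] at e1
    have := Real.log_two_lt_d9
    linarith
  nlinarith

theorem tLfx2 (hL : Llo2Stmt) (hG : Lgt2Stmt) : Lfx2Stmt := by
  intro C ε κ θ hC0 hε hκ hκθ hθ
  obtain ⟨θ₁, g1, g1'⟩ := exists_between hκθ
  obtain ⟨θ₂, g2, g2'⟩ := exists_between g1'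
  have hθ₁ : 0 < θ₁ := by linarith
  obtain ⟨D₁, H1⟩ := hL C ε κ θ₁ hC0 hε hκ g1 (by linarith)
  obtain ⟨D₂, H2⟩ := hG C ε κ κ θ₁ hC0 hε hκ hκ g1
  obtain ⟨D₃, H3⟩ := Lfx2_low
  obtain ⟨D₄, h4⟩ := Filter.eventually_atTop.1 (((tendsto_rpow_atTop (show 0 < θ₂ - θ₁ by linarith)).comp
    (tendsto_natCast_atTop_atTop (R := ℝ))).eventually_ge_atTop 2)
  obtain ⟨N₀, H0⟩ := Fix2_gen θ₂ θ (by linarith) g2' hθ (max (max D₁ D₂) (max D₃ D₄))
  refine ⟨N₀, fun N hN W hW => H0 _ ?_ N hN⟩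
  intro D hD
  have hD1 : D₁ ≤ D := le_trans (le_trans (le_max_left _ _) (le_max_left _ _)) hD
  have hD2 : D₂ ≤ D := le_trans (le_trans (le_max_right _ _) (le_max_left _ _)) hD
  have hD3 : D₃ ≤ D := le_trans (le_trans (le_max_left _ _) (le_max_right _ _)) hD
  have hD4 : D₄ ≤ D := le_trans (le_trans (le_max_right _ _) (le_max_right _ _)) hD
  have hD0 : (0 : ℝ) < D := by
    have := (H3 D hD3).1
    have h5 : 0 < D := by omega
    exact_mod_cast h5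
  have h5 : ∀ (G P Q : ℤ → Prop) [DecidablePred G], (∀ d ∈ Sq D, G d → P d ∨ Q d) →
      (((Sq D).filter G).card : ℝ) ≤
      (((Sq D).filter P).card : ℝ) + (((Sq D).filter Q).card : ℝ) := by
    intro G P Q _ hPQ
    have h6 : (Sq D).filter G ⊆ (Sq D).filter P ∪ (Sq D).filter Q := by
      intro d hd
      rw [Finset.mem_filter] at hd
      rw [Finset.mem_union, Finset.mem_filter, Finset.mem_filter]
      rcases hPQ d hd.1 hd.2 with h | h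
      · exact Or.inl ⟨hd.1, h⟩
      · exact Or.inr ⟨hd.1, h⟩
    exact_mod_cast le_trans (Finset.card_le_card h6) (Finset.card_union_le _ _)
  refine le_trans (h5 _ (fun d : ℤ => ∃ X : ℝ, Real.exp (Real.log (Real.log D) ^ 2 / 2) ≤ X ∧
    X ≤ Real.exp ((D : ℝ) ^ κ) ∧ ε < |SL W d X|) (fun d : ℤ => ∃ X : ℝ, Real.exp ((D : ℝ) ^ κ) ≤ X ∧
    X ≤ Real.exp (Real.exp ((D : ℝ) ^ κ)) ∧ ε < |SL W d X|) ?_) ?_
  · rintro d hd1 ⟨hd2, X, hX1, hX2, hX3⟩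
    have hdD : |(d : ℝ)| ≤ D := by
      have h2 := (Finset.mem_Icc.1 (Finset.mem_filter.1 hd1).1)
      have h3 : |d| ≤ (D : ℤ) := abs_le.2 h2
      exact_mod_cast h3
    by_cases hX : X ≤ Real.exp ((D : ℝ) ^ κ)
    · left
      exact ⟨X, le_trans (Real.exp_le_exp.2 ((H3 D hD3).2 _ hd2)) hX1, hX, hX3⟩
    · right
      rw [not_le] at hX
      exact ⟨X, hX.le, le_trans hX2 (Real.exp_le_exp.2 (Real.exp_le_exp.2
        (Real.rpow_le_rpow (abs_nonneg _) hdD hκ.le))), hX3⟩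
  · have e1 := H1 D hD1 W hW
    have e2 := H2 D hD2 W hW
    have e3 : 2 ≤ (D : ℝ) ^ (θ₂ - θ₁) := h4 D hD4
    have e4 : (D : ℝ) ^ θ₂ = (D : ℝ) ^ (θ₂ - θ₁) * (D : ℝ) ^ θ₁ := by
      rw [← Real.rpow_add hD0]
      congr 1
      ring
    rw [e4]
    have e5 : 0 ≤ (D : ℝ) ^ θ₁ := by positivity
    nlinarith

end Pool.Agent.Lib.NagA
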