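import Pool.Agent.Lib.MP_60fb2a_nt.S.Slv

/-!
MP_60fb2a_nt, directory S: the mean square over `|d| ≤ X^c`, `c < 1/3`, is bounded uniformly in `X`.
-/

set_option autoImplicit false

namespace Pool.Agent.Lib.NagA

open Polynomial Finset Classical

/-- the statement of the large sieve -/
def SlvStmt : Prop := ∀ (S : Finset ℤ) (D N E : ℕ) (b : ℕ → ℝ), S ⊆ Sq D → 2 ≤ E →
    ∑ d ∈ S, (∑ p ∈ (OP N).filter (fun p => E < p), b p * jc d p) ^ 2 ≤
      ((N : ℝ) / Real.log E + (E : ℝ) ^ 2 + 4 * (D : ℝ) ^ 2 * (E : ℝ) ^ 2 * (S.card : ℝ)) *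
        ∑ p ∈ (OP N).filter (fun p => E < p), b p ^ 2

/-- uniform mean square -/
def MsqStmt : Prop := ∀ C η : ℝ, 0 < C → 0 < η → η < 1 / 3 → ∃ K : ℝ, ∀ W : ℕ → ℝ, Bd W C → ∀ X : ℝ, 1 ≤ X →
  ∀ D : ℕ, (D : ℝ) ≤ X ^ (1 / 3 - η) → ∑ d ∈ Sq D, SX W d X ^ 2 ≤ K

theorem Msq_card (D : ℕ) : ((Sq D).card : ℝ) ≤ 2 * D + 1 := by
  have h5 : (Sq D).card ≤ (Finset.Icc (-(D : ℤ)) D).card := by
    unfold Sq
    exact Finset.card_filter_le _ _
  rw [Int.card_Icc] at h5
  have h6 : ((D : ℤ) + 1 - -(D : ℤ)).toNat = 2 * D + 1 := by omega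
  rw [h6] at h5
  exact_mod_cast h5

theorem Msq_SX (hC : ChbStmt) (W : ℕ → ℝ) (C : ℝ) (hC0 : 0 < C) (hW : Bd W C) (d : ℤ) (X : ℝ) (hX : 1 ≤ X) :
    |SX W d X| ≤ 2 * C := by
  have hX0 : 0 < X := by linarith
  unfold SX
  rw [abs_mul, abs_of_pos (by positivity : 0 < 1 / X)]
  have h1 := Lip_T W C hW d (OP ⌊X⌋₊) (fun p hp => (Finset.mem_filter.1 hp).2.1)
  have h2 := (hC X hX).1
  calc 1 / X * |∑ p ∈ OP ⌊X⌋₊, W p * jc d p * Real.log p| ≤ 1 / X * (C * (2 * X)) := by
        refine mul_le_mul_of_nonneg_left (h1.trans ?_) (by positivity)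
        exact mul_le_mul_of_nonneg_left h2 hC0.le
    _ = 2 * C := by field_simp

theorem tMsq (hS : SlvStmt) (hC : ChbStmt) : MsqStmt := by
  intro C η hC0 hη hη3
  refine ⟨60 * C ^ 2 / η + 24 * C ^ 2 + 12 * C ^ 2 * 4 ^ (1 / η), ?_⟩
  intro W hW X hX D hD
  have hX0 : 0 < X := by linarith
  have hadd : ∀ s t : ℝ, X ^ s * X ^ t = X ^ (s + t) := fun s t => (Real.rpow_add hX0 s t).symm
  have hmono : ∀ s t : ℝ, s ≤ t → X ^ s ≤ X ^ t := fun s t h => Real.rpow_le_rpow_of_exponent_le hX h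
  have hone : ∀ s : ℝ, 0 ≤ s → 1 ≤ X ^ s := fun s hs => Real.one_le_rpow hX hs
  have hpos : ∀ s : ℝ, 0 < X ^ s := fun s => Real.rpow_pos_of_pos hX0 s
  have hD13 : (D : ℝ) ≤ X ^ (1 / 3 : ℝ) := hD.trans (hmono _ _ (by linarith))
  have hcard : ((Sq D).card : ℝ) ≤ 3 * X ^ (1 / 3 : ℝ) := by
    have h1 := Msq_card D
    have h2 := hone (1 / 3) (by norm_num)
    linarith
  have hC2 : 0 < C ^ 2 := by positivity
  by_cases hsmall : X ^ η < 4
  · -- small `X`
    have hX4 : X < 4 ^ (1 / η) := by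
      have h1 : (X ^ η) ^ (1 / η) < 4 ^ (1 / η) :=
        Real.rpow_lt_rpow (hpos η).le hsmall (by positivity)
      rw [← Real.rpow_mul hX0.le] at h1
      have h2 : η * (1 / η) = 1 := by field_simp
      rwa [h2, Real.rpow_one] at h1
    have h1 : ∑ d ∈ Sq D, SX W d X ^ 2 ≤ ∑ _d ∈ Sq D, 4 * C ^ 2 := by
      refine Finset.sum_le_sum fun d _ => ?_
      rw [← sq_abs]
      calc |SX W d X| ^ 2 ≤ (2 * C) ^ 2 := pow_le_pow_left₀ (abs_nonneg _) (Msq_SX hC W C hC0 hW d X hX) 2
        _ = 4 * C ^ 2 := by ring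
    rw [Finset.sum_const, nsmul_eq_mul] at h1
    have h2 : X ^ (1 / 3 : ℝ) ≤ X := by
      calc X ^ (1 / 3 : ℝ) ≤ X ^ (1 : ℝ) := hmono _ _ (by norm_num)
        _ = X := Real.rpow_one X
    have h3 : ((Sq D).card : ℝ) * (4 * C ^ 2) ≤ 3 * 4 ^ (1 / η) * (4 * C ^ 2) :=
      mul_le_mul_of_nonneg_right (by linarith) (by positivity)
    have h4 : 0 < 60 * C ^ 2 / η := by positivity
    linarith
  · rw [not_lt] at hsmall
    obtain ⟨E, hE⟩ : ∃ E : ℕ, E = ⌊X ^ η⌋₊ := ⟨_, rfl⟩
    have hE2 : 2 ≤ E := by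
      rw [hE]
      exact Nat.le_floor (by push_cast; linarith)
    have hEle : (E : ℝ) ≤ X ^ η := by
      rw [hE]
      exact Nat.floor_le (hpos η).le
    have hElow : X ^ η / 2 ≤ E := by
      have h1 : X ^ η < (E : ℝ) + 1 := by
        rw [hE]
        exact Nat.lt_floor_add_one _
      linarith
    have hlX0 : 0 < Real.log X := by
      have h1 : 0 < Real.log (X ^ η) := Real.log_pos (by linarith)
      rw [Real.log_rpow hX0] at h1
      exact (mul_pos_iff_of_pos_left hη).1 h1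
    have hlogE : η / 2 * Real.log X ≤ Real.log E := by
      have h1 : X ^ (η / 2) ≤ X ^ η / 2 := by
        have h2 : X ^ (η / 2) * X ^ (η / 2) = X ^ η := by
          rw [hadd]
          congr 1
          ring
        have h3 : 2 ≤ X ^ (η / 2) := by
          by_contra h
          rw [not_le] at h
          have h4 : X ^ (η / 2) * X ^ (η / 2) < 2 * 2 := mul_lt_mul'' h h (hpos _).le (hpos _).le
          linarith
        nlinarith [hpos (η / 2)]
      have h2 := Real.log_le_log (hpos (η / 2)) (h1.trans hElow)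
      rwa [Real.log_rpow hX0] at h2
    have hlogE0 : 0 < Real.log E := lt_of_lt_of_le (by positivity) hlogE
    obtain ⟨N, hN⟩ : ∃ N : ℕ, N = ⌊X⌋₊ := ⟨_, rfl⟩
    have hNX : (N : ℝ) ≤ X := by
      rw [hN]
      exact Nat.floor_le hX0.le
    -- logarithm
    have hlogX : Real.log X ≤ X ^ η / η := Real.log_le_rpow_div hX0.le hη
    -- the sieve factor
    obtain ⟨M, hM⟩ : ∃ M : ℝ, M = (N : ℝ) / Real.log E + (E : ℝ) ^ 2 +
      4 * (D : ℝ) ^ 2 * (E : ℝ) ^ 2 * ((Sq D).card : ℝ) := ⟨_, rfl⟩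
    have hM1 : M * Real.log X ≤ 15 * X / η := by
      have a1 : (N : ℝ) / Real.log E * Real.log X ≤ 2 * X / η := by
        calc (N : ℝ) / Real.log E * Real.log X ≤ X / (η / 2 * Real.log X) * Real.log X := by
              refine mul_le_mul_of_nonneg_right ?_ hlX0.le
              exact div_le_div₀ hX0.le hNX (by positivity) hlogE
          _ = 2 * X / η := by field_simp
      have a2 : (E : ℝ) ^ 2 * Real.log X ≤ X / η := by
        calc (E : ℝ) ^ 2 * Real.log X ≤ (X ^ η) ^ 2 * (X ^ η / η) :=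
              mul_le_mul (pow_le_pow_left₀ (Nat.cast_nonneg _) hEle 2) hlogX hlX0.le (by positivity)
          _ = X ^ (3 * η) / η := by
              have : X ^ (3 * η) = X ^ η * X ^ η * X ^ η := by
                rw [hadd, hadd]
                congr 1
                ring
              rw [this]
              ring
          _ ≤ X / η := by
              refine div_le_div_of_nonneg_right ?_ hη.le
              calc X ^ (3 * η) ≤ X ^ (1 : ℝ) := hmono _ _ (by linarith)
                _ = X := Real.rpow_one X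
      have a3 : 4 * (D : ℝ) ^ 2 * (E : ℝ) ^ 2 * ((Sq D).card : ℝ) * Real.log X ≤ 12 * X / η := by
        have b1 : (D : ℝ) ^ 2 * ((Sq D).card : ℝ) ≤ 3 * X ^ (1 - 3 * η) := by
          have b2 : (D : ℝ) ^ 3 ≤ X ^ (1 - 3 * η) := by
            calc (D : ℝ) ^ 3 ≤ (X ^ (1 / 3 - η)) ^ 3 := pow_le_pow_left₀ (Nat.cast_nonneg _) hD 3
              _ = X ^ (1 - 3 * η) := by
                  rw [← Real.rpow_natCast, ← Real.rpow_mul hX0.le]
                  congr 1
                  push_cast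
                  ring
          have b3 : (D : ℝ) ^ 2 * ((Sq D).card : ℝ) ≤ 3 * (D : ℝ) ^ 3 := by
            rcases Nat.eq_zero_or_pos D with h0 | h0
            · rw [h0]
              simp
            · have h1 : (1 : ℝ) ≤ D := by exact_mod_cast h0
              have h2 := Msq_card D
              have h3 : ((Sq D).card : ℝ) ≤ 3 * D := by linarith
              calc (D : ℝ) ^ 2 * ((Sq D).card : ℝ) ≤ (D : ℝ) ^ 2 * (3 * D) :=
                    mul_le_mul_of_nonneg_left h3 (by positivity)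
                _ = 3 * (D : ℝ) ^ 3 := by ring
          linarith
        calc 4 * (D : ℝ) ^ 2 * (E : ℝ) ^ 2 * ((Sq D).card : ℝ) * Real.log X =
              4 * ((D : ℝ) ^ 2 * ((Sq D).card : ℝ)) * ((E : ℝ) ^ 2 * Real.log X) := by ring
          _ ≤ 4 * (3 * X ^ (1 - 3 * η)) * ((X ^ η) ^ 2 * (X ^ η / η)) := by
              refine mul_le_mul (mul_le_mul_of_nonneg_left b1 (by norm_num)) ?_ (by positivity) (by positivity)
              exact mul_le_mul (pow_le_pow_left₀ (Nat.cast_nonneg _) hEle 2) hlogX hlX0.le (by positivity)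
          _ = 12 * (X ^ (1 - 3 * η) * (X ^ η * X ^ η * X ^ η)) / η := by ring
          _ = 12 * X / η := by
              rw [hadd, hadd, hadd]
              have : 1 - 3 * η + (η + η + η) = 1 := by ring
              rw [this, Real.rpow_one]
      have e1 : M * Real.log X = (N : ℝ) / Real.log E * Real.log X + (E : ℝ) ^ 2 * Real.log X +
          4 * (D : ℝ) ^ 2 * (E : ℝ) ^ 2 * ((Sq D).card : ℝ) * Real.log X := by
        rw [hM]
        ring
      rw [e1]
      have e2 : 15 * X / η = 2 * X / η + X / η + 12 * X / η := by ring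
      rw [e2]
      linarith
    have hM0 : 0 ≤ M := by
      rw [hM]
      positivity
    have hpr : ∀ p ∈ OP N, p.Prime := fun p hp => (Finset.mem_filter.1 hp).2.1
    -- primes larger than `E`
    have key := hS (Sq D) D N E (fun p => W p * Real.log p) (Finset.Subset.refl _) hE2
    rw [← hM] at key
    have hb : ∑ p ∈ (OP N).filter (fun p => E < p), (W p * Real.log p) ^ 2 ≤ C ^ 2 * (2 * X * Real.log X) := by
      calc ∑ p ∈ (OP N).filter (fun p => E < p), (W p * Real.log p) ^ 2 ≤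
            ∑ p ∈ OP N, (W p * Real.log p) ^ 2 :=
            Finset.sum_le_sum_of_subset_of_nonneg (Finset.filter_subset _ _) fun _ _ _ => sq_nonneg _
        _ ≤ ∑ p ∈ OP N, C ^ 2 * Real.log p ^ 2 := by
            refine Finset.sum_le_sum fun p hp => ?_
            rw [mul_pow]
            refine mul_le_mul_of_nonneg_right ?_ (sq_nonneg _)
            rw [← sq_abs]
            exact pow_le_pow_left₀ (abs_nonneg _) (hW p (hpr p hp)) 2
        _ = C ^ 2 * ∑ p ∈ OP N, Real.log p ^ 2 := by rw [Finset.mul_sum]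
        _ ≤ C ^ 2 * (2 * X * Real.log X) := by
            refine mul_le_mul_of_nonneg_left ?_ (sq_nonneg _)
            rw [hN]
            exact (hC X hX).2
    have h1 : ∑ d ∈ Sq D, (∑ p ∈ (OP N).filter (fun p => E < p), W p * Real.log p * jc d p) ^ 2 ≤
        30 * C ^ 2 / η * X ^ 2 := by
      calc ∑ d ∈ Sq D, (∑ p ∈ (OP N).filter (fun p => E < p), W p * Real.log p * jc d p) ^ 2 ≤
            M * ∑ p ∈ (OP N).filter (fun p => E < p), (W p * Real.log p) ^ 2 := key
        _ ≤ M * (C ^ 2 * (2 * X * Real.log X)) := mul_le_mul_of_nonneg_left hb hM0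
        _ = 2 * C ^ 2 * X * (M * Real.log X) := by ring
        _ ≤ 2 * C ^ 2 * X * (15 * X / η) := mul_le_mul_of_nonneg_left hM1 (by positivity)
        _ = _ := by ring
    -- primes up to `E`
    have h2 : ∀ d : ℤ, (∑ p ∈ (OP N).filter (fun p => ¬ E < p), W p * Real.log p * jc d p) ^ 2 ≤
        4 * C ^ 2 * X ^ (2 * η) := by
      intro d
      have a1 : |∑ p ∈ (OP N).filter (fun p => ¬ E < p), W p * jc d p * Real.log p| ≤ C * (2 * E) := by
        refine (Lip_T W C hW d _ (fun p hp => hpr p (Finset.mem_filter.1 hp).1)).trans ?_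
        refine mul_le_mul_of_nonneg_left ?_ hC0.le
        have a2 := (hC (E : ℝ) (by exact_mod_cast (by omega : 1 ≤ E))).1
        rw [Nat.floor_natCast] at a2
        refine le_trans (Finset.sum_le_sum_of_subset_of_nonneg ?_ fun p _ _ => Real.log_natCast_nonneg p) a2
        intro p hp
        rw [Finset.mem_filter] at hp
        unfold OP at hp ⊢
        rw [Finset.mem_filter, Finset.mem_range] at hp
        rw [Finset.mem_filter, Finset.mem_range]
        exact ⟨by omega, hp.1.2⟩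
      have a3 : ∑ p ∈ (OP N).filter (fun p => ¬ E < p), W p * Real.log p * jc d p =
          ∑ p ∈ (OP N).filter (fun p => ¬ E < p), W p * jc d p * Real.log p := by
        refine Finset.sum_congr rfl fun p _ => ?_
        ring
      rw [a3, ← sq_abs]
      calc |∑ p ∈ (OP N).filter (fun p => ¬ E < p), W p * jc d p * Real.log p| ^ 2 ≤ (C * (2 * E)) ^ 2 :=
            pow_le_pow_left₀ (abs_nonneg _) a1 2
        _ = 4 * C ^ 2 * (E : ℝ) ^ 2 := by ring
        _ ≤ 4 * C ^ 2 * (X ^ η) ^ 2 :=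
            mul_le_mul_of_nonneg_left (pow_le_pow_left₀ (Nat.cast_nonneg _) hEle 2) (by positivity)
        _ = 4 * C ^ 2 * X ^ (2 * η) := by
            rw [sq (X ^ η), hadd]
            congr 2
            ring
    have h3 : ∑ d ∈ Sq D, (∑ p ∈ (OP N).filter (fun p => ¬ E < p), W p * Real.log p * jc d p) ^ 2 ≤
        12 * C ^ 2 * X ^ 2 := by
      calc ∑ d ∈ Sq D, (∑ p ∈ (OP N).filter (fun p => ¬ E < p), W p * Real.log p * jc d p) ^ 2 ≤
            ∑ _d ∈ Sq D, 4 * C ^ 2 * X ^ (2 * η) := Finset.sum_le_sum fun d _ => h2 d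
        _ = ((Sq D).card : ℝ) * (4 * C ^ 2 * X ^ (2 * η)) := by rw [Finset.sum_const, nsmul_eq_mul]
        _ ≤ 3 * X ^ (1 / 3 : ℝ) * (4 * C ^ 2 * X ^ (2 * η)) := mul_le_mul_of_nonneg_right hcard (by positivity)
        _ = 12 * C ^ 2 * (X ^ (1 / 3 : ℝ) * X ^ (2 * η)) := by ring
        _ ≤ 12 * C ^ 2 * X ^ 2 := by
            refine mul_le_mul_of_nonneg_left ?_ (by positivity)
            rw [hadd]
            calc X ^ (1 / 3 + 2 * η) ≤ X ^ (2 : ℝ) := hmono _ _ (by linarith)
              _ = X ^ 2 := by norm_num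
    have h4 : ∀ d ∈ Sq D, X ^ 2 * SX W d X ^ 2 ≤
        2 * (∑ p ∈ (OP N).filter (fun p => E < p), W p * Real.log p * jc d p) ^ 2 +
        2 * (∑ p ∈ (OP N).filter (fun p => ¬ E < p), W p * Real.log p * jc d p) ^ 2 := by
      intro d _
      have a1 : X * SX W d X = ∑ p ∈ (OP N).filter (fun p => E < p), W p * Real.log p * jc d p +
          ∑ p ∈ (OP N).filter (fun p => ¬ E < p), W p * Real.log p * jc d p := by
        rw [Finset.sum_filter_add_sum_filter_not]
        unfold SX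
        rw [← hN, ← mul_assoc, mul_one_div, div_self hX0.ne', one_mul]
        refine Finset.sum_congr rfl fun p _ => ?_
        ring
      rw [← mul_pow, a1]
      nlinarith [sq_nonneg (∑ p ∈ (OP N).filter (fun p => E < p), W p * Real.log p * jc d p -
        ∑ p ∈ (OP N).filter (fun p => ¬ E < p), W p * Real.log p * jc d p)]
    have h5 : X ^ 2 * ∑ d ∈ Sq D, SX W d X ^ 2 ≤ X ^ 2 * (60 * C ^ 2 / η + 24 * C ^ 2) := by
      rw [Finset.mul_sum]
      calc ∑ d ∈ Sq D, X ^ 2 * SX W d X ^ 2 ≤ ∑ d ∈ Sq D,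
            (2 * (∑ p ∈ (OP N).filter (fun p => E < p), W p * Real.log p * jc d p) ^ 2 +
        2 * (∑ p ∈ (OP N).filter (fun p => ¬ E < p), W p * Real.log p * jc d p) ^ 2) := Finset.sum_le_sum h4
        _ ≤ 2 * (30 * C ^ 2 / η * X ^ 2) + 2 * (12 * C ^ 2 * X ^ 2) := by
            rw [Finset.sum_add_distrib, ← Finset.mul_sum, ← Finset.mul_sum]
            linarith
        _ = _ := by ring
    have h6 := le_of_mul_le_mul_left h5 (by positivity)
    have h7 : 0 < 12 * C ^ 2 * 4 ^ (1 / η) := by positivity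
    linarith

end Pool.Agent.Lib.NagA
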