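import Pool.Agent.Lib.MP_60fb2a_nt.S.Slx
import Pool.Agent.Lib.MP_60fb2a_nt.S.Msq

/-!
MP_60fb2a_nt, directory S: the mean square over `|d| ≤ X^c`, `c < 1/2`, is bounded uniformly in `X`.
-/

set_option autoImplicit false

namespace Pool.Agent.Lib.NagA

open Polynomial Finset Classical

/-- uniform mean square, `c < 1/2` -/
def MswStmt : Prop := ∀ C η : ℝ, 0 < C → 0 < η → η < 1 / 2 → ∃ K : ℝ, ∀ W : ℕ → ℝ, Bd W C → ∀ X : ℝ, 1 ≤ X →
  ∀ D : ℕ, (D : ℝ) ≤ X ^ (1 / 2 - η) → ∑ d ∈ Sq D, SX W d X ^ 2 ≤ K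

/-- the sieve factor -/
theorem Msw_M (X η : ℝ) (hX : 1 ≤ X) (hη : 0 < η) (hη2 : η < 1 / 2) (j N E D : ℕ) (hj : 1 ≤ j * η)
    (c : ℝ) (hN1 : 1 ≤ N) (hNX : (N : ℝ) ≤ X) (hXN : X ≤ 2 * N) (hEle : (E : ℝ) ≤ X ^ (η / 4))
    (hlX0 : 0 < Real.log X) (hlogE : η / 8 * Real.log X ≤ Real.log E) (hD : (D : ℝ) ≤ X ^ (1 / 2 - η))
    (hc0 : 0 ≤ c) (hc : c ≤ 3 * X ^ (1 / 2 : ℝ)) :
    (((j : ℝ) + 1) ^ j * (((j : ℝ) + 1) * N / Real.log E + (E : ℝ) ^ 2) +
        (E : ℝ) ^ 2 * (4 * (D : ℝ) ^ 2 * (E : ℝ) ^ 2) ^ (j + 1) / (N : ℝ) ^ j * c) * Real.log X ≤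
      (8 * ((j : ℝ) + 1) ^ (j + 1) / η + 4 * ((j : ℝ) + 1) ^ j / η + 12 * 4 ^ (j + 1) * 2 ^ j / η) * X := by
  have hX0 : 0 < X := by linarith
  have hadd : ∀ s t : ℝ, X ^ s * X ^ t = X ^ (s + t) := fun s t => (Real.rpow_add hX0 s t).symm
  have hmono : ∀ s t : ℝ, s ≤ t → X ^ s ≤ X ^ t := fun s t h => Real.rpow_le_rpow_of_exponent_le hX h
  have hpos : ∀ s : ℝ, 0 < X ^ s := fun s => Real.rpow_pos_of_pos hX0 s
  have hpw : ∀ (s : ℝ) (n : ℕ), (X ^ s) ^ n = X ^ (s * n) := fun s n => by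
    rw [← Real.rpow_natCast, ← Real.rpow_mul hX0.le]
  have hlogE0 : 0 < Real.log E := lt_of_lt_of_le (by positivity) hlogE
  have hNR : (0 : ℝ) < N := by exact_mod_cast hN1
  have hlogX : Real.log X ≤ 4 / η * X ^ (η / 4) := by
    refine (Real.log_le_rpow_div hX0.le (by positivity : 0 < η / 4)).trans (le_of_eq ?_)
    field_simp
  have hE2 : (E : ℝ) ^ 2 ≤ X ^ (η / 2) := by
    calc (E : ℝ) ^ 2 ≤ (X ^ (η / 4)) ^ 2 := pow_le_pow_left₀ (Nat.cast_nonneg _) hEle 2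
      _ = X ^ (η / 2) := by
          rw [hpw]
          congr 1
          push_cast
          ring
  have hD2 : (D : ℝ) ^ 2 ≤ X ^ (1 - 2 * η) := by
    calc (D : ℝ) ^ 2 ≤ (X ^ (1 / 2 - η)) ^ 2 := pow_le_pow_left₀ (Nat.cast_nonneg _) hD 2
      _ = X ^ (1 - 2 * η) := by
          rw [hpw]
          congr 1
          push_cast
          ring
  have a1 : ((j : ℝ) + 1) ^ j * (((j : ℝ) + 1) * N / Real.log E) * Real.log X ≤
      8 * ((j : ℝ) + 1) ^ (j + 1) / η * X := by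
    have b1 : (N : ℝ) / Real.log E * Real.log X ≤ 8 * X / η := by
      calc (N : ℝ) / Real.log E * Real.log X ≤ X / (η / 8 * Real.log X) * Real.log X := by
            refine mul_le_mul_of_nonneg_right ?_ hlX0.le
            exact div_le_div₀ hX0.le hNX (by positivity) hlogE
        _ = 8 * X / η := by field_simp
    calc ((j : ℝ) + 1) ^ j * (((j : ℝ) + 1) * N / Real.log E) * Real.log X =
          ((j : ℝ) + 1) ^ (j + 1) * ((N : ℝ) / Real.log E * Real.log X) := by ring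
      _ ≤ ((j : ℝ) + 1) ^ (j + 1) * (8 * X / η) := mul_le_mul_of_nonneg_left b1 (by positivity)
      _ = _ := by ring
  have a2 : ((j : ℝ) + 1) ^ j * (E : ℝ) ^ 2 * Real.log X ≤ 4 * ((j : ℝ) + 1) ^ j / η * X := by
    have b1 : (E : ℝ) ^ 2 * Real.log X ≤ 4 / η * X := by
      calc (E : ℝ) ^ 2 * Real.log X ≤ X ^ (η / 2) * (4 / η * X ^ (η / 4)) :=
            mul_le_mul hE2 hlogX hlX0.le (hpos _).le
        _ = 4 / η * (X ^ (η / 2) * X ^ (η / 4)) := by ring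
        _ ≤ 4 / η * X := by
            refine mul_le_mul_of_nonneg_left ?_ (by positivity)
            rw [hadd]
            calc X ^ (η / 2 + η / 4) ≤ X ^ (1 : ℝ) := hmono _ _ (by linarith)
              _ = X := Real.rpow_one X
    calc ((j : ℝ) + 1) ^ j * (E : ℝ) ^ 2 * Real.log X = ((j : ℝ) + 1) ^ j * ((E : ℝ) ^ 2 * Real.log X) := by ring
      _ ≤ ((j : ℝ) + 1) ^ j * (4 / η * X) := mul_le_mul_of_nonneg_left b1 (by positivity)
      _ = _ := by ring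
  have a3 : (E : ℝ) ^ 2 * (4 * (D : ℝ) ^ 2 * (E : ℝ) ^ 2) ^ (j + 1) / (N : ℝ) ^ j * c * Real.log X ≤
      12 * 4 ^ (j + 1) * 2 ^ j / η * X := by
    have b1 : (4 * (D : ℝ) ^ 2 * (E : ℝ) ^ 2) ^ (j + 1) ≤ 4 ^ (j + 1) * X ^ ((1 - 2 * η + η / 2) * ((j : ℝ) + 1)) := by
      calc (4 * (D : ℝ) ^ 2 * (E : ℝ) ^ 2) ^ (j + 1) ≤ (4 * X ^ (1 - 2 * η) * X ^ (η / 2)) ^ (j + 1) := by
            refine pow_le_pow_left₀ (by positivity) ?_ _
            exact mul_le_mul (mul_le_mul_of_nonneg_left hD2 (by norm_num)) hE2 (by positivity) (by positivity)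
        _ = _ := by
            rw [mul_assoc, hadd, mul_pow, hpw]
            push_cast
            rfl
    have b2 : 1 / (N : ℝ) ^ j ≤ 2 ^ j * X ^ (-(j : ℝ)) := by
      rw [Real.rpow_neg hX0.le, Real.rpow_natCast, div_le_iff₀ (by positivity)]
      have b3 : X ^ j ≤ (2 * (N : ℝ)) ^ j := pow_le_pow_left₀ hX0.le hXN j
      have b4 : 2 ^ j * (X ^ j)⁻¹ * (N : ℝ) ^ j = (2 * (N : ℝ)) ^ j / X ^ j := by
        rw [mul_pow]
        ring
      rw [b4, le_div_iff₀ (by positivity), one_mul]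
      exact b3
    have b5 : (E : ℝ) ^ 2 * (4 * (D : ℝ) ^ 2 * (E : ℝ) ^ 2) ^ (j + 1) / (N : ℝ) ^ j * c * Real.log X ≤
        X ^ (η / 2) * (4 ^ (j + 1) * X ^ ((1 - 2 * η + η / 2) * ((j : ℝ) + 1))) * (2 ^ j * X ^ (-(j : ℝ))) *
          (3 * X ^ (1 / 2 : ℝ)) * (4 / η * X ^ (η / 4)) := by
      have b6 : (E : ℝ) ^ 2 * (4 * (D : ℝ) ^ 2 * (E : ℝ) ^ 2) ^ (j + 1) / (N : ℝ) ^ j =
          (E : ℝ) ^ 2 * (4 * (D : ℝ) ^ 2 * (E : ℝ) ^ 2) ^ (j + 1) * (1 / (N : ℝ) ^ j) := by ring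
      rw [b6]
      have c1 : (E : ℝ) ^ 2 * (4 * (D : ℝ) ^ 2 * (E : ℝ) ^ 2) ^ (j + 1) ≤
          X ^ (η / 2) * (4 ^ (j + 1) * X ^ ((1 - 2 * η + η / 2) * ((j : ℝ) + 1))) :=
        mul_le_mul hE2 b1 (by positivity) (hpos _).le
      have c2 : (E : ℝ) ^ 2 * (4 * (D : ℝ) ^ 2 * (E : ℝ) ^ 2) ^ (j + 1) * (1 / (N : ℝ) ^ j) ≤
          X ^ (η / 2) * (4 ^ (j + 1) * X ^ ((1 - 2 * η + η / 2) * ((j : ℝ) + 1))) * (2 ^ j * X ^ (-(j : ℝ))) :=
        mul_le_mul c1 b2 (by positivity) (by have := hpos (η / 2); have := hpos ((1 - 2 * η + η / 2) * ((j : ℝ) + 1)); positivity)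
      have d1 : 0 ≤ X ^ (η / 2) * (4 ^ (j + 1) * X ^ ((1 - 2 * η + η / 2) * ((j : ℝ) + 1))) * (2 ^ j * X ^ (-(j : ℝ))) := by
        positivity
      exact mul_le_mul (mul_le_mul c2 hc hc0 d1) hlogX hlX0.le (by positivity)
    refine b5.trans ?_
    have b7 : X ^ (η / 2) * (4 ^ (j + 1) * X ^ ((1 - 2 * η + η / 2) * ((j : ℝ) + 1))) * (2 ^ j * X ^ (-(j : ℝ))) *
          (3 * X ^ (1 / 2 : ℝ)) * (4 / η * X ^ (η / 4)) = 12 * 4 ^ (j + 1) * 2 ^ j / η *
          (X ^ (η / 2) * X ^ ((1 - 2 * η + η / 2) * ((j : ℝ) + 1)) * X ^ (-(j : ℝ)) * X ^ (1 / 2 : ℝ) * X ^ (η / 4)) := by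
      ring
    rw [b7, hadd, hadd, hadd, hadd]
    refine mul_le_mul_of_nonneg_left ?_ (by positivity)
    calc X ^ (η / 2 + (1 - 2 * η + η / 2) * ((j : ℝ) + 1) + -(j : ℝ) + 1 / 2 + η / 4) ≤ X ^ (1 : ℝ) := by
          refine hmono _ _ ?_
          nlinarith
      _ = X := Real.rpow_one X
  have e1 : (((j : ℝ) + 1) ^ j * (((j : ℝ) + 1) * N / Real.log E + (E : ℝ) ^ 2) +
        (E : ℝ) ^ 2 * (4 * (D : ℝ) ^ 2 * (E : ℝ) ^ 2) ^ (j + 1) / (N : ℝ) ^ j * c) * Real.log X =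
      ((j : ℝ) + 1) ^ j * (((j : ℝ) + 1) * N / Real.log E) * Real.log X +
      ((j : ℝ) + 1) ^ j * (E : ℝ) ^ 2 * Real.log X +
      (E : ℝ) ^ 2 * (4 * (D : ℝ) ^ 2 * (E : ℝ) ^ 2) ^ (j + 1) / (N : ℝ) ^ j * c * Real.log X := by ring
  rw [e1]
  have e2 : (8 * ((j : ℝ) + 1) ^ (j + 1) / η + 4 * ((j : ℝ) + 1) ^ j / η + 12 * 4 ^ (j + 1) * 2 ^ j / η) * X =
      8 * ((j : ℝ) + 1) ^ (j + 1) / η * X + 4 * ((j : ℝ) + 1) ^ j / η * X + 12 * 4 ^ (j + 1) * 2 ^ j / η * X := by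
    ring
  rw [e2]
  linarith

theorem tMsw (hS : SlxStmt) (hC : ChbStmt) : MswStmt := by
  intro C η hC0 hη hη2
  obtain ⟨j, hj⟩ := exists_nat_ge (1 / η)
  have hjη : 1 ≤ j * η := by
    rwa [div_le_iff₀ hη] at hj
  have hj1 : 1 ≤ j := by
    rcases Nat.eq_zero_or_pos j with h | h
    · rw [h] at hjη
      norm_num at hjη
    · exact h
  obtain ⟨K₁, hK₁⟩ : ∃ K₁ : ℝ, K₁ = 8 * ((j : ℝ) + 1) ^ (j + 1) / η + 4 * ((j : ℝ) + 1) ^ j / η +
    12 * 4 ^ (j + 1) * 2 ^ j / η := ⟨_, rfl⟩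
  have hK₁0 : 0 < K₁ := by
    rw [hK₁]
    positivity
  refine ⟨4 * C ^ 2 * K₁ + 24 * C ^ 2 + 12 * C ^ 2 * 4 ^ (4 / η), ?_⟩
  intro W hW X hX D hD
  have hX0 : 0 < X := by linarith
  have hadd : ∀ s t : ℝ, X ^ s * X ^ t = X ^ (s + t) := fun s t => (Real.rpow_add hX0 s t).symm
  have hmono : ∀ s t : ℝ, s ≤ t → X ^ s ≤ X ^ t := fun s t h => Real.rpow_le_rpow_of_exponent_le hX h
  have hone : ∀ s : ℝ, 0 ≤ s → 1 ≤ X ^ s := fun s hs => Real.one_le_rpow hX hs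
  have hpos : ∀ s : ℝ, 0 < X ^ s := fun s => Real.rpow_pos_of_pos hX0 s
  have hD13 : (D : ℝ) ≤ X ^ (1 / 2 : ℝ) := hD.trans (hmono _ _ (by linarith))
  have hcard : ((Sq D).card : ℝ) ≤ 3 * X ^ (1 / 2 : ℝ) := by
    have h1 := Msq_card D
    have h2 := hone (1 / 2) (by norm_num)
    linarith
  have hC2 : 0 < C ^ 2 := by positivity
  by_cases hsmall : X ^ (η / 4) < 4
  · -- small `X`
    have hX4 : X < 4 ^ (4 / η) := by
      have h1 : (X ^ (η / 4)) ^ (4 / η) < 4 ^ (4 / η) :=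
        Real.rpow_lt_rpow (hpos (η / 4)).le hsmall (by positivity)
      rw [← Real.rpow_mul hX0.le] at h1
      have h2 : η / 4 * (4 / η) = 1 := by field_simp
      rwa [h2, Real.rpow_one] at h1
    have h1 : ∑ d ∈ Sq D, SX W d X ^ 2 ≤ ∑ _d ∈ Sq D, 4 * C ^ 2 := by
      refine Finset.sum_le_sum fun d _ => ?_
      rw [← sq_abs]
      calc |SX W d X| ^ 2 ≤ (2 * C) ^ 2 := pow_le_pow_left₀ (abs_nonneg _) (Msq_SX hC W C hC0 hW d X hX) 2
        _ = 4 * C ^ 2 := by ring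
    rw [Finset.sum_const, nsmul_eq_mul] at h1
    have h2 : X ^ (1 / 2 : ℝ) ≤ X := by
      calc X ^ (1 / 2 : ℝ) ≤ X ^ (1 : ℝ) := hmono _ _ (by norm_num)
        _ = X := Real.rpow_one X
    have h3 : ((Sq D).card : ℝ) * (4 * C ^ 2) ≤ 3 * 4 ^ (4 / η) * (4 * C ^ 2) :=
      mul_le_mul_of_nonneg_right (by linarith) (by positivity)
    have h4 : 0 < 4 * C ^ 2 * K₁ := by positivity
    linarith
  · rw [not_lt] at hsmall
    obtain ⟨E, hE⟩ : ∃ E : ℕ, E = ⌊X ^ (η / 4)⌋₊ := ⟨_, rfl⟩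
    have hE2 : 2 ≤ E := by
      rw [hE]
      exact Nat.le_floor (by push_cast; linarith)
    have hEle : (E : ℝ) ≤ X ^ (η / 4) := by
      rw [hE]
      exact Nat.floor_le (hpos _).le
    have hElow : X ^ (η / 4) / 2 ≤ E := by
      have h1 : X ^ (η / 4) < (E : ℝ) + 1 := by
        rw [hE]
        exact Nat.lt_floor_add_one _
      linarith
    have hlX0 : 0 < Real.log X := by
      have h1 : 0 < Real.log (X ^ (η / 4)) := Real.log_pos (by linarith)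
      rw [Real.log_rpow hX0] at h1
      exact (mul_pos_iff_of_pos_left (by positivity)).1 h1
    have hlogE : η / 8 * Real.log X ≤ Real.log E := by
      have h1 : X ^ (η / 8) ≤ X ^ (η / 4) / 2 := by
        have h2 : X ^ (η / 8) * X ^ (η / 8) = X ^ (η / 4) := by
          rw [hadd]
          congr 1
          ring
        have h3 : 2 ≤ X ^ (η / 8) := by
          by_contra h
          rw [not_le] at h
          have h4 : X ^ (η / 8) * X ^ (η / 8) < 2 * 2 := mul_lt_mul'' h h (hpos _).le (hpos _).le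
          linarith
        nlinarith [hpos (η / 8)]
      have h2 := Real.log_le_log (hpos (η / 8)) (h1.trans hElow)
      rwa [Real.log_rpow hX0] at h2
    obtain ⟨N, hN⟩ : ∃ N : ℕ, N = ⌊X⌋₊ := ⟨_, rfl⟩
    have hNX : (N : ℝ) ≤ X := by
      rw [hN]
      exact Nat.floor_le hX0.le
    have hN1 : 1 ≤ N := by
      rw [hN]
      exact Nat.le_floor (by rw [Nat.cast_one]; exact hX)
    have hXN : X ≤ 2 * N := by
      have h1 : X < (N : ℝ) + 1 := by
        rw [hN]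
        exact Nat.lt_floor_add_one X
      have h2 : (1 : ℝ) ≤ N := by exact_mod_cast hN1
      linarith
    -- the sieve factor
    have hM1 := Msw_M X η hX hη hη2 j N E D hjη ((Sq D).card : ℝ) hN1 hNX hXN hEle hlX0 hlogE hD
      (Nat.cast_nonneg _) hcard
    rw [← hK₁] at hM1
    have key := hS (Sq D) D N E j (fun p => W p * Real.log p) (Finset.Subset.refl _) hE2 hN1 hj1
    have hlogE0 : 0 < Real.log E := lt_of_lt_of_le (by positivity) hlogE
    obtain ⟨M, hM⟩ : ∃ M : ℝ, M = ((j : ℝ) + 1) ^ j * (((j : ℝ) + 1) * N / Real.log E + (E : ℝ) ^ 2) +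
        (E : ℝ) ^ 2 * (4 * (D : ℝ) ^ 2 * (E : ℝ) ^ 2) ^ (j + 1) / (N : ℝ) ^ j * ((Sq D).card : ℝ) := ⟨_, rfl⟩
    have hM0 : 0 ≤ M := by
      rw [hM]
      positivity
    rw [← hM] at hM1 key
    have hpr : ∀ p ∈ OP N, p.Prime := fun p hp => (Finset.mem_filter.1 hp).2.1
    -- primes larger than `E`
    have hb : ∑ p ∈ (OP N).filter (fun p => E < p), (W p * Real.log p) ^ 2 ≤ C ^ 2 * (2 * X * Real.log X) := by
      calc ∑ p ∈ (OP N).filter (fun p => E < p), (W p * Real.log p) ^ 2 ≤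
            ∑ p ∈ OP N, (W p * Real.log p) ^ 2 :=
            Finset.sum_le_sum_of_subset_of_nonneg (Finset.filter_subset _ _) fun _ _ _ => sq_nonneg _
        _ ≤ ∑ p ∈ OP N, C ^ 2 * Real.log p ^ 2 := by
            refine Finset.sum_le_sum fun p hp => ?_
            rw [mul_pow]
            refine mul_le_mul_of_nonneg_right ?_ (sq_nonneg _)
            rw [← sq_abs]
            exact pow_le_pow_left₀ (abs_nonneg _) (hW p (hpr p hp)) 2
        _ = C ^ 2 * ∑ p ∈ OP N, Real.log p ^ 2 := by rw [Finset.mul_sum]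
        _ ≤ C ^ 2 * (2 * X * Real.log X) := by
            refine mul_le_mul_of_nonneg_left ?_ (sq_nonneg _)
            rw [hN]
            exact (hC X hX).2
    have h1 : ∑ d ∈ Sq D, (∑ p ∈ (OP N).filter (fun p => E < p), W p * Real.log p * jc d p) ^ 2 ≤
        2 * C ^ 2 * K₁ * X ^ 2 := by
      calc ∑ d ∈ Sq D, (∑ p ∈ (OP N).filter (fun p => E < p), W p * Real.log p * jc d p) ^ 2 ≤
            M * ∑ p ∈ (OP N).filter (fun p => E < p), (W p * Real.log p) ^ 2 := key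
        _ ≤ M * (C ^ 2 * (2 * X * Real.log X)) := mul_le_mul_of_nonneg_left hb hM0
        _ = 2 * C ^ 2 * X * (M * Real.log X) := by ring
        _ ≤ 2 * C ^ 2 * X * (K₁ * X) := mul_le_mul_of_nonneg_left hM1 (by positivity)
        _ = _ := by ring
    -- primes up to `E`
    have h2 : ∀ d : ℤ, (∑ p ∈ (OP N).filter (fun p => ¬ E < p), W p * Real.log p * jc d p) ^ 2 ≤
        4 * C ^ 2 * X ^ (η / 2) := by
      intro d
      have a1 : |∑ p ∈ (OP N).filter (fun p => ¬ E < p), W p * jc d p * Real.log p| ≤ C * (2 * E) := by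
        refine (Lip_T W C hW d _ (fun p hp => hpr p (Finset.mem_filter.1 hp).1)).trans ?_
        refine mul_le_mul_of_nonneg_left ?_ hC0.le
        have a2 := (hC (E : ℝ) (by exact_mod_cast (by omega : 1 ≤ E))).1
        rw [Nat.floor_natCast] at a2
        refine le_trans (Finset.sum_le_sum_of_subset_of_nonneg ?_ fun p _ _ => Real.log_natCast_nonneg p) a2
        intro p hp
        rw [Finset.mem_filter] at hp
        unfold OP at hp ⊢
        rw [Finset.mem_filter, Finset.mem_range] at hp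
        rw [Finset.mem_filter, Finset.mem_range]
        exact ⟨by omega, hp.1.2⟩
      have a3 : ∑ p ∈ (OP N).filter (fun p => ¬ E < p), W p * Real.log p * jc d p =
          ∑ p ∈ (OP N).filter (fun p => ¬ E < p), W p * jc d p * Real.log p := by
        refine Finset.sum_congr rfl fun p _ => ?_
        ring
      rw [a3, ← sq_abs]
      calc |∑ p ∈ (OP N).filter (fun p => ¬ E < p), W p * jc d p * Real.log p| ^ 2 ≤ (C * (2 * E)) ^ 2 :=
            pow_le_pow_left₀ (abs_nonneg _) a1 2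
        _ = 4 * C ^ 2 * (E : ℝ) ^ 2 := by ring
        _ ≤ 4 * C ^ 2 * (X ^ (η / 4)) ^ 2 :=
            mul_le_mul_of_nonneg_left (pow_le_pow_left₀ (Nat.cast_nonneg _) hEle 2) (by positivity)
        _ = 4 * C ^ 2 * X ^ (η / 2) := by
            rw [sq (X ^ (η / 4)), hadd]
            congr 2
            ring
    have h3 : ∑ d ∈ Sq D, (∑ p ∈ (OP N).filter (fun p => ¬ E < p), W p * Real.log p * jc d p) ^ 2 ≤
        12 * C ^ 2 * X ^ 2 := by
      calc ∑ d ∈ Sq D, (∑ p ∈ (OP N).filter (fun p => ¬ E < p), W p * Real.log p * jc d p) ^ 2 ≤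
            ∑ _d ∈ Sq D, 4 * C ^ 2 * X ^ (η / 2) := Finset.sum_le_sum fun d _ => h2 d
        _ = ((Sq D).card : ℝ) * (4 * C ^ 2 * X ^ (η / 2)) := by rw [Finset.sum_const, nsmul_eq_mul]
        _ ≤ 3 * X ^ (1 / 2 : ℝ) * (4 * C ^ 2 * X ^ (η / 2)) := mul_le_mul_of_nonneg_right hcard (by positivity)
        _ = 12 * C ^ 2 * (X ^ (1 / 2 : ℝ) * X ^ (η / 2)) := by ring
        _ ≤ 12 * C ^ 2 * X ^ 2 := by
            refine mul_le_mul_of_nonneg_left ?_ (by positivity)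
            rw [hadd]
            calc X ^ (1 / 2 + η / 2) ≤ X ^ (2 : ℝ) := hmono _ _ (by linarith)
              _ = X ^ 2 := by norm_num
    have h4 : ∀ d ∈ Sq D, X ^ 2 * SX W d X ^ 2 ≤
        2 * (∑ p ∈ (OP N).filter (fun p => E < p), W p * Real.log p * jc d p) ^ 2 +
        2 * (∑ p ∈ (OP N).filter (fun p => ¬ E < p), W p * Real.log p * jc d p) ^ 2 := by
      intro d _
      have a1 : X * SX W d X = ∑ p ∈ (OP N).filter (fun p => E < p), W p * Real.log p * jc d p +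
          ∑ p ∈ (OP N).filter (fun p => ¬ E < p), W p * Real.log p * jc d p := by
        rw [Finset.sum_filter_add_sum_filter_not]
        unfold SX
        rw [← hN, ← mul_assoc, mul_one_div, div_self hX0.ne', one_mul]
        refine Finset.sum_congr rfl fun p _ => ?_
        ring
      rw [← mul_pow, a1]
      nlinarith [sq_nonneg (∑ p ∈ (OP N).filter (fun p => E < p), W p * Real.log p * jc d p -
        ∑ p ∈ (OP N).filter (fun p => ¬ E < p), W p * Real.log p * jc d p)]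
    have h5 : X ^ 2 * ∑ d ∈ Sq D, SX W d X ^ 2 ≤ X ^ 2 * (4 * C ^ 2 * K₁ + 24 * C ^ 2) := by
      rw [Finset.mul_sum]
      calc ∑ d ∈ Sq D, X ^ 2 * SX W d X ^ 2 ≤ ∑ d ∈ Sq D,
            (2 * (∑ p ∈ (OP N).filter (fun p => E < p), W p * Real.log p * jc d p) ^ 2 +
        2 * (∑ p ∈ (OP N).filter (fun p => ¬ E < p), W p * Real.log p * jc d p) ^ 2) := Finset.sum_le_sum h4
        _ ≤ 2 * (2 * C ^ 2 * K₁ * X ^ 2) + 2 * (12 * C ^ 2 * X ^ 2) := by
            rw [Finset.sum_add_distrib, ← Finset.mul_sum, ← Finset.mul_sum]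
            linarith
        _ = _ := by ring
    have h6 := le_of_mul_le_mul_left h5 (by positivity)
    have h7 : 0 < 12 * C ^ 2 * 4 ^ (4 / η) := by positivity
    linarith

end Pool.Agent.Lib.NagA
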