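import Pool.Agent.Lib.MP_60fb2a_nt.An.Spec

/-!
MP_60fb2a_nt, directory S (sharp exceptional sets), module Rga2: bad twists at small scales.
-/

set_option autoImplicit false

namespace Pool.Agent.Lib.NagA

open Polynomial Finset Classical

/-- small scales: at most `D^θ` bad twists for `X ≥ (log D)^a`, `a > 1 + 2/θ` -/
def Rga2Stmt : Prop := ∀ C ε θ a : ℝ, 0 < C → 0 < ε → 0 < θ → θ ≤ 1 → 1 + 2 / θ < a → ∃ D₀ : ℕ,
  ∀ D : ℕ, D₀ ≤ D → ∀ W : ℕ → ℝ, Bd W C →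
  ∀ X : ℝ, Real.log D ^ a ≤ X → X ≤ (D : ℝ) ^ 3 → ((bad W D ε X).card : ℝ) ≤ (D : ℝ) ^ θ

/-- The numbers. -/
private theorem Rga2_num (R L l θ a ρ σ : ℝ) (k : ℕ) (hR : 1 ≤ R) (hL : 1 ≤ L) (hθ : 0 < θ) (hθ1 : θ ≤ 1)
    (ha : 0 < a) (hρ : (2 + θ) / a = ρ) (hρ1 : ρ ≤ 1)
    (c1 : 0 < Real.log L) (c2 : Real.log (6 * R) ≤ σ * Real.log L) (c3 : Real.log (6 * R) ≤ Real.log L)
    (c4 : 2 * Real.log L ≤ σ * L) (hl : a * Real.log L ≤ l) (hl3 : l ≤ 3 * L)
    (hk : (k : ℝ) < (2 + θ) * L / l + 1) :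
    (k.factorial : ℝ) * (R * l) ^ k ≤ Real.exp ((ρ + 2 * σ) * L) := by
  have hL0 : 0 < L := by linarith
  have hc0 : 0 < Real.log (6 * R) := Real.log_pos (by linarith)
  have hl0 : 0 < l := lt_of_lt_of_le (by positivity) hl
  have hk0 : (0 : ℝ) ≤ k := Nat.cast_nonneg k
  have hρ0 : 0 < ρ := by rw [← hρ]; positivity
  have hkl : (k : ℝ) * l ≤ 6 * L := by
    have h1 : (k : ℝ) * l ≤ ((2 + θ) * L / l + 1) * l := mul_le_mul_of_nonneg_right hk.le hl0.le
    have h2 : ((2 + θ) * L / l + 1) * l = (2 + θ) * L + l := by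
      field_simp
    nlinarith
  have h1 : (k.factorial : ℝ) * (R * l) ^ k ≤ (6 * R * L) ^ k := by
    calc (k.factorial : ℝ) * (R * l) ^ k ≤ (k : ℝ) ^ k * (R * l) ^ k := by
          refine mul_le_mul_of_nonneg_right ?_ (by positivity)
          exact_mod_cast Nat.factorial_le_pow k
      _ = (R * (k * l)) ^ k := by
          rw [← mul_pow]
          ring
      _ ≤ (6 * R * L) ^ k := by
          refine pow_le_pow_left₀ (by positivity) ?_ k
          calc R * (k * l) ≤ R * (6 * L) := mul_le_mul_of_nonneg_left hkl (by linarith)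
            _ = 6 * R * L := by ring
  refine h1.trans ?_
  have h2 : (6 * R * L) ^ k = Real.exp (k * (Real.log (6 * R) + Real.log L)) := by
    rw [Real.exp_nat_mul, Real.exp_add, Real.exp_log (by positivity), Real.exp_log hL0]
  rw [h2]
  refine Real.exp_le_exp.2 ?_
  have h3 : (k : ℝ) ≤ ρ * L / Real.log L + 1 := by
    have h4 : (2 + θ) * L / l ≤ (2 + θ) * L / (a * Real.log L) :=
      div_le_div_of_nonneg_left (by positivity) (by positivity) hl
    have h5 : (2 + θ) * L / (a * Real.log L) = ρ * L / Real.log L := by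
      rw [← hρ]
      field_simp
    linarith
  calc (k : ℝ) * (Real.log (6 * R) + Real.log L) ≤
        (ρ * L / Real.log L + 1) * (Real.log (6 * R) + Real.log L) :=
        mul_le_mul_of_nonneg_right h3 (by linarith)
    _ = ρ * L * (Real.log (6 * R) / Real.log L) + ρ * L + Real.log (6 * R) + Real.log L := by
        field_simp
        ring
    _ ≤ 1 * L * σ + ρ * L + Real.log L + Real.log L := by
        have h5 : Real.log (6 * R) / Real.log L ≤ σ := by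
          rw [div_le_iff₀ c1]
          exact c2
        have h5' : 0 ≤ Real.log (6 * R) / Real.log L := by positivity
        have h6 : ρ * L * (Real.log (6 * R) / Real.log L) ≤ 1 * L * σ :=
          mul_le_mul (mul_le_mul_of_nonneg_right hρ1 hL0.le) h5 h5' (by positivity)
        linarith
    _ ≤ (ρ + 2 * σ) * L := by linarith

private theorem Rga2_ev (R σ : ℝ) (hσ : 0 < σ) : ∃ D₀ : ℕ, ∀ D : ℕ, D₀ ≤ D →
    1 ≤ Real.log D ∧ 0 < Real.log (Real.log D) ∧ Real.log (6 * R) ≤ σ * Real.log (Real.log D) ∧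
      Real.log (6 * R) ≤ Real.log (Real.log D) ∧ 2 * Real.log (Real.log D) ≤ σ * Real.log D ∧
      8 ≤ Real.exp (2 * σ * Real.log D) := by
  have hlog : Filter.Tendsto (fun D : ℕ => Real.log D) Filter.atTop Filter.atTop :=
    Real.tendsto_log_atTop.comp tendsto_natCast_atTop_atTop
  have hlog2 : Filter.Tendsto (fun D : ℕ => Real.log (Real.log D)) Filter.atTop Filter.atTop :=
    Real.tendsto_log_atTop.comp hlog
  have a1 := hlog.eventually_ge_atTop 1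
  have a2 := hlog2.eventually_gt_atTop 0
  have a3 := (hlog2.const_mul_atTop hσ).eventually_ge_atTop (Real.log (6 * R))
  have a4 := hlog2.eventually_ge_atTop (Real.log (6 * R))
  have a5 := hlog.eventually (Real.isLittleO_log_id_atTop.bound (show (0 : ℝ) < σ / 2 by positivity))
  have a6 := (Real.tendsto_exp_atTop.comp (hlog.const_mul_atTop (show 0 < 2 * σ by positivity))).eventually_ge_atTop 8
  obtain ⟨D₀, h⟩ := Filter.eventually_atTop.1 (((((a1.and a2).and a3).and a4).and a5).and a6)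
  refine ⟨D₀, fun D hD => ?_⟩
  obtain ⟨⟨⟨⟨⟨b1, b2⟩, b3⟩, b4⟩, b5⟩, b6⟩ := h D hD
  refine ⟨b1, b2, b3, b4, ?_, b6⟩
  simp only [id] at b5
  rw [Real.norm_of_nonneg b2.le, Real.norm_of_nonneg (by linarith)] at b5
  linarith

theorem tRga2 (h1 : LsqStmt) (h2 : MomStmt) (h3 : ChbStmt) : Rga2Stmt := by
  intro C ε θ a hC hε hθ hθ1 ha
  obtain ⟨R, hR⟩ : ∃ R : ℝ, R = max 1 (2 * C ^ 2 / ε ^ 2) := ⟨_, rfl⟩
  have hR1 : 1 ≤ R := by rw [hR]; exact le_max_left _ _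
  have hR2 : 2 * C ^ 2 ≤ R * ε ^ 2 := by
    have : 2 * C ^ 2 / ε ^ 2 ≤ R := by rw [hR]; exact le_max_right _ _
    rwa [div_le_iff₀ (by positivity)] at this
  have ha0 : 0 < a := by
    have : 0 < 2 / θ := by positivity
    linarith
  obtain ⟨ρ, hρ⟩ : ∃ ρ : ℝ, (2 + θ) / a = ρ := ⟨_, rfl⟩
  have hρθ : ρ < θ := by
    rw [← hρ, div_lt_iff₀ ha0]
    have h5 : θ * (1 + 2 / θ) = 2 + θ := by
      field_simp
      ring
    have := mul_lt_mul_of_pos_left ha hθ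
    linarith
  obtain ⟨σ, hσ⟩ : ∃ σ : ℝ, σ = (θ - ρ) / 4 := ⟨_, rfl⟩
  have hσ0 : 0 < σ := by rw [hσ]; linarith
  have hσ4 : ρ + 4 * σ = θ := by rw [hσ]; ring
  obtain ⟨D₀, hD₀⟩ := Rga2_ev R σ hσ0
  refine ⟨max 1 D₀, ?_⟩
  intro D hD W hW X hX hX3
  obtain ⟨b1, b2, b3, b4, b5, b6⟩ := hD₀ D (le_trans (le_max_right _ _) hD)
  have hD0 : (0 : ℝ) < D := by
    have : 1 ≤ D := le_trans (le_max_left _ _) hD
    exact_mod_cast this
  obtain ⟨L, hL⟩ : ∃ L : ℝ, L = Real.log D := ⟨_, rfl⟩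
  rw [← hL] at b1 b2 b3 b4 b5 b6 hX
  have hL0 : 0 < L := by linarith
  have hDe : (D : ℝ) = Real.exp L := by rw [hL, Real.exp_log hD0]
  have hX1 : 1 ≤ X := by
    refine le_trans ?_ hX
    exact Real.one_le_rpow b1 ha0.le
  have hX0 : 0 < X := by linarith
  have hlX : a * Real.log L ≤ Real.log X := by
    have h4 := Real.log_le_log (by positivity) hX
    rwa [Real.log_rpow hL0] at h4
  have hl0 : 0 < Real.log X := lt_of_lt_of_le (by positivity) hlX
  have hl3 : Real.log X ≤ 3 * L := by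
    have h4 := Real.log_le_log hX0 hX3
    rw [Real.log_pow, ← hL] at h4
    exact_mod_cast h4
  obtain ⟨k, hk⟩ : ∃ k, k = ⌈(2 + θ) * L / Real.log X⌉₊ := ⟨_, rfl⟩
  have hk1 : (2 + θ) * L / Real.log X ≤ k := by rw [hk]; exact Nat.le_ceil _
  have hk2 : (k : ℝ) < (2 + θ) * L / Real.log X + 1 := by
    rw [hk]
    exact Nat.ceil_lt_add_one (by positivity)
  obtain ⟨F, hF⟩ : ∃ F : ℝ, F = (k.factorial : ℝ) * (R * Real.log X) ^ k := ⟨_, rfl⟩
  have hFle : F ≤ Real.exp ((ρ + 2 * σ) * L) := by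
    rw [hF]
    exact Rga2_num R L (Real.log X) θ a ρ σ k hR1 b1 hθ hθ1 ha0 hρ (by linarith) b2 b3 b4 b5 hlX hl3 hk2
  have hF0 : 0 ≤ F := by
    rw [hF]
    positivity
  have hDX : Real.exp ((2 + θ) * L) ≤ X ^ k := by
    rw [div_le_iff₀ hl0] at hk1
    have h4 : X ^ k = Real.exp (k * Real.log X) := by
      rw [Real.exp_nat_mul, Real.exp_log hX0]
    rw [h4]
    exact Real.exp_le_exp.2 hk1
  have h8 : 8 * (D : ℝ) ^ 2 * F ≤ Real.exp ((2 + θ) * L) := by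
    calc 8 * (D : ℝ) ^ 2 * F ≤ Real.exp (2 * σ * L) * (D : ℝ) ^ 2 * Real.exp ((ρ + 2 * σ) * L) := by
          refine mul_le_mul (mul_le_mul_of_nonneg_right b6 (by positivity)) hFle hF0 (by positivity)
      _ = Real.exp ((2 + θ) * L) := by
          rw [hDe, ← Real.exp_nat_mul, ← Real.exp_add, ← Real.exp_add]
          congr 1
          push_cast
          rw [← hσ4]
          ring
  -- the moments
  obtain ⟨B, hB⟩ : ∃ B, B = bad W D ε X := ⟨_, rfl⟩
  obtain ⟨b, hb1, hb2⟩ := h2 (OP ⌊X⌋₊) ⌊X⌋₊ (by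
    intro p hp
    have := mem_filter.1 hp
    exact ⟨this.2.1, this.2.2, by
      have := mem_range.1 this.1
      omega⟩) (fun p => W p * Real.log p) k
  have hsub : B ⊆ Sq D := by
    rw [hB]
    exact filter_subset _ _
  have hls := h1 B D (⌊X⌋₊ ^ k) b hsub
  have hlow : ∀ d ∈ B, (ε * X) ^ (2 * k) ≤ (∑ n ∈ Od (⌊X⌋₊ ^ k), b n * jc d n) ^ 2 := by
    intro d hd
    rw [hB] at hd
    have h5 := (mem_filter.1 hd).2
    rw [← hb1 d]
    have h6 : ε * X ≤ |∑ p ∈ OP ⌊X⌋₊, W p * Real.log p * jc d p| := by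
      have h7 : SX W d X = (1 / X) * ∑ p ∈ OP ⌊X⌋₊, W p * Real.log p * jc d p := by
        unfold SX
        congr 1
        refine sum_congr rfl (fun p _ => ?_)
        ring
      rw [h7, abs_mul, abs_of_pos (by positivity), one_div, inv_mul_eq_div, lt_div_iff₀ hX0] at h5
      exact h5.le
    have h8 : ((∑ p ∈ OP ⌊X⌋₊, W p * Real.log p * jc d p) ^ k) ^ 2 =
        |∑ p ∈ OP ⌊X⌋₊, W p * Real.log p * jc d p| ^ (2 * k) := by
      rw [← sq_abs, abs_pow, ← pow_mul, mul_comm k 2]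
    rw [h8]
    exact pow_le_pow_left₀ (by positivity) h6 _
  have ha : ∑ p ∈ OP ⌊X⌋₊, (W p * Real.log p) ^ 2 ≤ R * ε ^ 2 * X * Real.log X := by
    have h5 := (h3 X hX1).2
    calc ∑ p ∈ OP ⌊X⌋₊, (W p * Real.log p) ^ 2 ≤ ∑ p ∈ OP ⌊X⌋₊, C ^ 2 * Real.log p ^ 2 := by
          refine sum_le_sum (fun p hp => ?_)
          rw [mul_pow]
          refine mul_le_mul_of_nonneg_right ?_ (sq_nonneg _)
          rw [← sq_abs]
          exact pow_le_pow_left₀ (abs_nonneg _) (hW p (mem_filter.1 hp).2.1) 2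
      _ = C ^ 2 * ∑ p ∈ OP ⌊X⌋₊, Real.log p ^ 2 := by rw [mul_sum]
      _ ≤ C ^ 2 * (2 * X * Real.log X) := mul_le_mul_of_nonneg_left h5 (sq_nonneg _)
      _ = (2 * C ^ 2) * (X * Real.log X) := by ring
      _ ≤ (R * ε ^ 2) * (X * Real.log X) := mul_le_mul_of_nonneg_right hR2 (by positivity)
      _ = _ := by ring
  have hb3 : ∑ n ∈ Od (⌊X⌋₊ ^ k), b n ^ 2 ≤ F * (ε ^ 2 * X) ^ k := by
    calc ∑ n ∈ Od (⌊X⌋₊ ^ k), b n ^ 2 ≤
          (k.factorial : ℝ) * (∑ p ∈ OP ⌊X⌋₊, (W p * Real.log p) ^ 2) ^ k := hb2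
      _ ≤ (k.factorial : ℝ) * (R * ε ^ 2 * X * Real.log X) ^ k := by
          refine mul_le_mul_of_nonneg_left ?_ (Nat.cast_nonneg _)
          exact pow_le_pow_left₀ (sum_nonneg (fun _ _ => sq_nonneg _)) ha k
      _ = F * (ε ^ 2 * X) ^ k := by
          have h6 : R * ε ^ 2 * X * Real.log X = (R * Real.log X) * (ε ^ 2 * X) := by ring
          rw [hF, h6, mul_pow (R * Real.log X), mul_assoc]
  have hBn : (0 : ℝ) ≤ B.card := Nat.cast_nonneg _
  have hfl : ((⌊X⌋₊ ^ k : ℕ) : ℝ) ≤ X ^ k := by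
    push_cast
    exact pow_le_pow_left₀ (Nat.cast_nonneg _) (Nat.floor_le hX0.le) k
  have hmain : (B.card : ℝ) * X ^ k * (ε ^ 2 * X) ^ k ≤
      (X ^ k + 4 * (D : ℝ) ^ 2 * B.card) * F * (ε ^ 2 * X) ^ k := by
    calc (B.card : ℝ) * X ^ k * (ε ^ 2 * X) ^ k = ∑ _d ∈ B, (ε * X) ^ (2 * k) := by
          rw [sum_const, nsmul_eq_mul, mul_assoc, ← mul_pow, pow_mul]
          congr 2
          ring
      _ ≤ ∑ d ∈ B, (∑ n ∈ Od (⌊X⌋₊ ^ k), b n * jc d n) ^ 2 := sum_le_sum hlow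
      _ ≤ (((⌊X⌋₊ ^ k : ℕ) : ℝ) + 4 * (D : ℝ) ^ 2 * (B.card : ℝ)) *
          ∑ n ∈ Od (⌊X⌋₊ ^ k), b n ^ 2 := hls
      _ ≤ (X ^ k + 4 * (D : ℝ) ^ 2 * B.card) * (F * (ε ^ 2 * X) ^ k) := by
          have h7 : (0 : ℝ) ≤ X ^ k + 4 * (D : ℝ) ^ 2 * B.card :=
            add_nonneg (pow_nonneg hX0.le k) (mul_nonneg (mul_nonneg (by norm_num) (sq_nonneg _)) hBn)
          refine mul_le_mul ?_ hb3 (sum_nonneg (fun _ _ => sq_nonneg _)) h7
          linarith
      _ = _ := by ring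
  have hmain2 : (B.card : ℝ) * X ^ k ≤ (X ^ k + 4 * (D : ℝ) ^ 2 * B.card) * F :=
    le_of_mul_le_mul_right hmain (by positivity)
  have hXk : 0 < X ^ k := by positivity
  have hfin : (B.card : ℝ) ≤ 2 * F := by
    have h5 : 4 * (D : ℝ) ^ 2 * B.card * F ≤ B.card * X ^ k / 2 := by
      have h6 : 8 * (D : ℝ) ^ 2 * F ≤ X ^ k := h8.trans hDX
      have h7 : (B.card : ℝ) * (8 * (D : ℝ) ^ 2 * F) ≤ B.card * X ^ k :=
        mul_le_mul_of_nonneg_left h6 hBn
      linarith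
    have h6 : (B.card : ℝ) * X ^ k ≤ (2 * F) * X ^ k := by
      have h7 : (X ^ k + 4 * (D : ℝ) ^ 2 * B.card) * F =
          X ^ k * F + 4 * (D : ℝ) ^ 2 * B.card * F := by ring
      rw [h7] at hmain2
      linarith
    exact le_of_mul_le_mul_right h6 hXk
  rw [← hB]
  refine hfin.trans ?_
  have h9 : (D : ℝ) ^ θ = Real.exp (θ * L) := by
    rw [Real.rpow_def_of_pos hD0, ← hL, mul_comm]
  rw [h9]
  calc 2 * F ≤ Real.exp (2 * σ * L) * Real.exp ((ρ + 2 * σ) * L) :=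
        mul_le_mul (by linarith) hFle hF0 (Real.exp_pos _).le
    _ = Real.exp (θ * L) := by
        rw [← Real.exp_add]
        congr 1
        rw [← hσ4]
        ring

end Pool.Agent.Lib.NagA
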