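import Mathlib

/-!
MP_60fb2a_nt, directory S: Selberg weights (a copy of the files Sga, Sla, Slq, Sel of Lib/TP, by helper81).
-/

set_option autoImplicit false

namespace Pool.Agent.Lib.NagA.Sb

open Finset

/-- G(E) = ∑_{k ≤ E squarefree} 1/φ(k) -/
noncomputable def Gs (E : ℕ) : ℝ := ∑ k ∈ (Icc 1 E).filter Squarefree, 1 / (k.totient : ℝ)

/-- the Selberg weights λ_e = (e μ(e)/G(E)) ∑_{k ≤ E squarefree, e | k} 1/φ(k) -/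
noncomputable def sl (E e : ℕ) : ℝ :=
  (e : ℝ) * ((ArithmeticFunction.moebius e : ℤ) : ℝ) / Gs E *
    ∑ k ∈ (Icc 1 E).filter (fun k => Squarefree k ∧ e ∣ k), 1 / (k.totient : ℝ)

def SgaStmt : Prop := ∀ E : ℕ, 1 ≤ E → Real.log E ≤ Gs E

def SlaStmt : Prop := ∀ E : ℕ, 1 ≤ E → sl E 1 = 1 ∧ ∀ e : ℕ, |sl E e| ≤ 1

def SlqStmt : Prop := ∀ E : ℕ, 1 ≤ E →
  ∑ e ∈ Icc 1 E, ∑ e' ∈ Icc 1 E, sl E e * sl E e' / (Nat.lcm e e' : ℝ) = 1 / Gs E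

/-- Selberg weights of level E -/
structure IsSel (lam : ℕ → ℝ) (E : ℕ) : Prop where
  one : lam 1 = 1
  le : ∀ e, |lam e| ≤ 1
  quad : ∑ e ∈ Icc 1 E, ∑ e' ∈ Icc 1 E, lam e * lam e' / (Nat.lcm e e' : ℝ) ≤ 1 / Real.log E

/-- (SEL) Selberg weights exist -/
def SelStmt : Prop := ∀ E : ℕ, 2 ≤ E → ∃ lam : ℕ → ℝ, IsSel lam E

end Pool.Agent.Lib.NagA.Sb
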