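import Pool.Agent.Lib.MP_60fb2a_nt.S.SbDef

/-!
MP_00e23e_nt, Lib/TP module Sga: the logarithm is at most the Selberg sum G(E).
-/

namespace Pool.Agent.Lib.NagA.Sb

open Finset

private noncomputable def Sga_f : ℕ →* ℝ where
  toFun n := (n : ℝ)⁻¹
  map_one' := by simp
  map_mul' m n := by
    push_cast
    rw [mul_inv]

private lemma Sga_f_apply (n : ℕ) : Sga_f n = (n : ℝ)⁻¹ := rfl

private lemma Sga_tot (k : ℕ) :
    (k : ℝ)⁻¹ * ∏ p ∈ k.primeFactors with p.Prime, (1 - Sga_f p)⁻¹ = 1 / (k.totient : ℝ) := by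
  have hfil : (k.primeFactors.filter Nat.Prime) = k.primeFactors :=
    Finset.filter_true_of_mem (fun p hp => Nat.prime_of_mem_primeFactors hp)
  have h := Nat.totient_eq_mul_prod_factors k
  have h2 : ((k.totient : ℚ) : ℝ) = (((k : ℚ) * ∏ p ∈ k.primeFactors, (1 - (p : ℚ)⁻¹) : ℚ) : ℝ) := by
    rw [h]
  push_cast at h2
  rw [hfil, Finset.prod_inv_distrib, ← mul_inv, h2, one_div]
  rfl

private lemma Sga_part (k : ℕ) (hk : k ≠ 0) (T : Finset ℕ)
    (hT : ∀ n ∈ T, n ≠ 0 ∧ k ∣ n ∧ n.primeFactors ⊆ k.primeFactors) :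
    ∑ n ∈ T, (n : ℝ)⁻¹ ≤ 1 / (k.totient : ℝ) := by
  classical
  have hlt : ∀ {p : ℕ}, p.Prime → ‖Sga_f p‖ < 1 := by
    intro p hp
    rw [Sga_f_apply, Real.norm_of_nonneg (by positivity)]
    exact inv_lt_one_of_one_lt₀ (by exact_mod_cast hp.one_lt)
  obtain ⟨_, hs⟩ := EulerProduct.summable_and_hasSum_factoredNumbers_prod_filter_prime_geometric
    hlt k.primeFactors
  -- the injection n ↦ n / k
  let g : T → Nat.factoredNumbers k.primeFactors := fun n =>
    ⟨n.1 / k, by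
      obtain ⟨h0, h1, h2⟩ := hT n.1 n.2
      obtain ⟨m, hm⟩ := h1
      rw [hm, Nat.mul_div_cancel_left m (Nat.pos_of_ne_zero hk)]
      have hm0 : m ≠ 0 := by
        rintro rfl
        exact h0 (by rw [hm, mul_zero])
      refine Nat.mem_factoredNumbers_of_primeFactors_subset hm0 ?_
      refine (Nat.primeFactors_mono ?_ h0).trans h2
      rw [hm]
      exact dvd_mul_left m k⟩
  have hg : Function.Injective g := by
    intro a b hab
    have h1 : a.1 / k = b.1 / k := congrArg (fun x : Nat.factoredNumbers k.primeFactors => (x : ℕ)) hab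
    have ha := (hT a.1 a.2).2.1
    have hb := (hT b.1 b.2).2.1
    apply Subtype.ext
    calc a.1 = k * (a.1 / k) := (Nat.mul_div_cancel' ha).symm
      _ = k * (b.1 / k) := by rw [h1]
      _ = b.1 := Nat.mul_div_cancel' hb
  have hle : ∑ m ∈ (Finset.univ : Finset T).image g, Sga_f (m : ℕ) ≤
      ∏ p ∈ k.primeFactors with p.Prime, (1 - Sga_f p)⁻¹ := by
    refine sum_le_hasSum _ (fun i _ => ?_) hs
    rw [Sga_f_apply]
    positivity
  rw [Finset.sum_image (fun a _ b _ h => hg h)] at hle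
  have hT2 : ∑ n ∈ T, (n : ℝ)⁻¹ = (k : ℝ)⁻¹ * ∑ m ∈ (Finset.univ : Finset T), Sga_f (g m : ℕ) := by
    rw [Finset.mul_sum, ← Finset.sum_coe_sort T (fun n => (n : ℝ)⁻¹)]
    refine Finset.sum_congr rfl (fun n _ => ?_)
    have hd := (hT n.1 n.2).2.1
    have e1 : (n.1 : ℝ) = (k : ℝ) * ((n.1 / k : ℕ) : ℝ) := by
      rw [← Nat.cast_mul, Nat.mul_div_cancel' hd]
    rw [Sga_f_apply, ← mul_inv, e1]
  rw [hT2, ← Sga_tot k]
  exact mul_le_mul_of_nonneg_left hle (by positivity)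

private def Sga_rad (n : ℕ) : ℕ := ∏ p ∈ n.primeFactors, p

private lemma Sga_rad_sq (n : ℕ) : Squarefree (Sga_rad n) := by
  unfold Sga_rad
  refine Finset.squarefree_prod_of_pairwise_isCoprime ?_ ?_
  · intro a ha b hb hab
    have ha' := Nat.prime_of_mem_primeFactors ha
    have hb' := Nat.prime_of_mem_primeFactors hb
    exact (Nat.coprime_iff_isRelPrime.1 ((Nat.coprime_primes ha' hb').2 hab))
  · intro i hi
    exact (Nat.prime_of_mem_primeFactors hi).prime.squarefree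

theorem tSga : SgaStmt := by
  intro E hE
  have h1 : Real.log E ≤ ∑ n ∈ Icc 1 E, (n : ℝ)⁻¹ := by
    have h := log_add_one_le_harmonic E
    rw [harmonic_eq_sum_Icc] at h
    push_cast at h
    refine le_trans (Real.log_le_log (by exact_mod_cast hE) ?_) h
    linarith
  refine h1.trans ?_
  have hmap : ∀ n ∈ Icc 1 E, Sga_rad n ∈ (Icc 1 E).filter Squarefree := by
    intro n hn
    have hn' := Finset.mem_Icc.1 hn
    have hdvd : Sga_rad n ∣ n := Nat.prod_primeFactors_dvd n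
    have hpos : 0 < Sga_rad n := Nat.pos_of_dvd_of_pos hdvd (by omega)
    exact Finset.mem_filter.2 ⟨Finset.mem_Icc.2 ⟨hpos, (Nat.le_of_dvd (by omega) hdvd).trans hn'.2⟩,
      Sga_rad_sq n⟩
  rw [← Finset.sum_fiberwise_of_maps_to hmap]
  unfold Gs
  refine Finset.sum_le_sum (fun k hk => ?_)
  have hk' := Finset.mem_filter.1 hk
  have hk0 : k ≠ 0 := by
    have := (Finset.mem_Icc.1 hk'.1).1
    omega
  refine Sga_part k hk0 _ (fun n hn => ?_)
  have hn' := Finset.mem_filter.1 hn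
  have hn0 : n ≠ 0 := by
    have := (Finset.mem_Icc.1 hn'.1).1
    omega
  refine ⟨hn0, ?_, ?_⟩
  · rw [← hn'.2]
    exact Nat.prod_primeFactors_dvd n
  · rw [← hn'.2]
    unfold Sga_rad
    rw [Nat.primeFactors_prod (fun p hp => Nat.prime_of_mem_primeFactors hp)]

end Pool.Agent.Lib.NagA.Sb
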