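import Pool.Agent.Lib.MP_60fb2a_nt.An.Lip
import Pool.Agent.Lib.MP_60fb2a_nt.S.SbDef

/-!
MP_60fb2a_nt, directory S: the large sieve for real characters and sums over primes (with a Selberg majorant, no loss
of a logarithm).
-/

set_option autoImplicit false

namespace Pool.Agent.Lib.NagA

open Polynomial Finset Classical

/-- the Selberg majorant -/
noncomputable def nv (lam : ℕ → ℝ) (E n : ℕ) : ℝ :=
  (∑ e ∈ Finset.Icc 1 E, if e ∣ n then lam e else 0) ^ 2

theorem Slv_exp (lam : ℕ → ℝ) (E n : ℕ) : nv lam E n =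
    ∑ e ∈ Finset.Icc 1 E, ∑ e' ∈ Finset.Icc 1 E, lam e * lam e' * (if Nat.lcm e e' ∣ n then 1 else 0) := by
  unfold nv
  rw [sq, Finset.sum_mul_sum]
  refine Finset.sum_congr rfl fun e _ => Finset.sum_congr rfl fun e' _ => ?_
  by_cases h1 : e ∣ n
  · by_cases h2 : e' ∣ n
    · rw [if_pos h1, if_pos h2, if_pos (Nat.lcm_dvd h1 h2), mul_one]
    · rw [if_pos h1, if_neg h2, if_neg (fun h => h2 ((Nat.dvd_lcm_right e e').trans h))]
      ring
  · rw [if_neg h1, if_neg (fun h => h1 ((Nat.dvd_lcm_left e e').trans h))]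
    ring

theorem Slv_sum (lam : ℕ → ℝ) (E : ℕ) (T : Finset ℕ) (g : ℕ → ℝ) : ∑ n ∈ T, nv lam E n * g n =
    ∑ e ∈ Finset.Icc 1 E, ∑ e' ∈ Finset.Icc 1 E, lam e * lam e' *
      ∑ n ∈ T.filter (fun n => Nat.lcm e e' ∣ n), g n := by
  have h1 : ∀ n ∈ T, nv lam E n * g n = ∑ e ∈ Finset.Icc 1 E, ∑ e' ∈ Finset.Icc 1 E,
      lam e * lam e' * (if Nat.lcm e e' ∣ n then g n else 0) := by
    intro n _
    rw [Slv_exp, Finset.sum_mul]
    refine Finset.sum_congr rfl fun e _ => ?_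
    rw [Finset.sum_mul]
    refine Finset.sum_congr rfl fun e' _ => ?_
    split_ifs <;> ring
  rw [Finset.sum_congr rfl h1, Finset.sum_comm]
  refine Finset.sum_congr rfl fun e _ => ?_
  rw [Finset.sum_comm]
  refine Finset.sum_congr rfl fun e' _ => ?_
  rw [Finset.sum_filter, Finset.mul_sum]

/-- the main term -/
theorem Slv_one (lam : ℕ → ℝ) (E N : ℕ) (hl : Sb.IsSel lam E) :
    ∑ n ∈ Od N, nv lam E n ≤ (N : ℝ) / Real.log E + (E : ℝ) ^ 2 := by
  have h0 : ∑ n ∈ Od N, nv lam E n ≤ ∑ n ∈ Finset.Icc 1 N, nv lam E n := by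
    unfold Od
    refine Finset.sum_le_sum_of_subset_of_nonneg (Finset.filter_subset _ _) fun n _ _ => ?_
    unfold nv
    positivity
  refine h0.trans ?_
  have h1 : ∑ n ∈ Finset.Icc 1 N, nv lam E n = ∑ e ∈ Finset.Icc 1 E, ∑ e' ∈ Finset.Icc 1 E,
      lam e * lam e' * ((N / Nat.lcm e e' : ℕ) : ℝ) := by
    have h2 := Slv_sum lam E (Finset.Icc 1 N) (fun _ => 1)
    simp only [mul_one] at h2
    rw [h2]
    refine Finset.sum_congr rfl fun e _ => Finset.sum_congr rfl fun e' _ => ?_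
    congr 1
    rw [Finset.sum_const, nsmul_eq_mul, mul_one]
    congr 1
    have h3 : Finset.Icc 1 N = Finset.Ioc 0 N := by
      ext n
      simp only [Finset.mem_Icc, Finset.mem_Ioc]
      omega
    rw [h3]
    exact Nat.Ioc_filter_dvd_card_eq_div N (Nat.lcm e e')
  rw [h1]
  have h2 : ∀ e ∈ Finset.Icc 1 E, ∀ e' ∈ Finset.Icc 1 E, lam e * lam e' * ((N / Nat.lcm e e' : ℕ) : ℝ) ≤
      (N : ℝ) * (lam e * lam e' / (Nat.lcm e e' : ℝ)) + 1 := by
    intro e he e' he'
    rw [Finset.mem_Icc] at he he'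
    have hpos : 0 < Nat.lcm e e' := Nat.lcm_pos (by omega) (by omega)
    have hpos' : (0 : ℝ) < (Nat.lcm e e' : ℝ) := by exact_mod_cast hpos
    have e1 : ((N / Nat.lcm e e' : ℕ) : ℝ) ≤ (N : ℝ) / (Nat.lcm e e' : ℝ) := Nat.cast_div_le
    have e2 : (N : ℝ) / (Nat.lcm e e' : ℝ) - 1 ≤ ((N / Nat.lcm e e' : ℕ) : ℝ) := by
      rw [sub_le_iff_le_add, div_le_iff₀ hpos']
      have e3 : N < (N / Nat.lcm e e' + 1) * Nat.lcm e e' := by
        have := Nat.lt_mul_div_succ N hpos
        rw [mul_comm] at this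
        exact this
      have e4 : N ≤ (N / Nat.lcm e e' + 1) * Nat.lcm e e' := e3.le
      exact_mod_cast e4
    have e3 : |lam e * lam e'| ≤ 1 := by
      rw [abs_mul]
      exact mul_le_one₀ (hl.le e) (abs_nonneg _) (hl.le e')
    have e4 : lam e * lam e' * (((N / Nat.lcm e e' : ℕ) : ℝ) - (N : ℝ) / (Nat.lcm e e' : ℝ)) ≤ 1 := by
      refine le_trans (le_abs_self _) ?_
      rw [abs_mul]
      refine mul_le_one₀ e3 (abs_nonneg _) ?_
      rw [abs_le]
      constructor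
      · linarith
      · linarith
    have e5 : lam e * lam e' * ((N / Nat.lcm e e' : ℕ) : ℝ) =
        lam e * lam e' * (((N / Nat.lcm e e' : ℕ) : ℝ) - (N : ℝ) / (Nat.lcm e e' : ℝ)) +
        (N : ℝ) * (lam e * lam e' / (Nat.lcm e e' : ℝ)) := by ring
    rw [e5]
    linarith
  calc ∑ e ∈ Finset.Icc 1 E, ∑ e' ∈ Finset.Icc 1 E, lam e * lam e' * ((N / Nat.lcm e e' : ℕ) : ℝ) ≤
        ∑ e ∈ Finset.Icc 1 E, ∑ e' ∈ Finset.Icc 1 E, ((N : ℝ) * (lam e * lam e' / (Nat.lcm e e' : ℝ)) + 1) :=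
        Finset.sum_le_sum fun e he => Finset.sum_le_sum fun e' he' => h2 e he e' he'
    _ = (N : ℝ) * (∑ e ∈ Finset.Icc 1 E, ∑ e' ∈ Finset.Icc 1 E, lam e * lam e' / (Nat.lcm e e' : ℝ)) +
          (E : ℝ) ^ 2 := by
        simp only [Finset.sum_add_distrib, Finset.sum_const, Nat.card_Icc, Nat.add_sub_cancel, nsmul_eq_mul,
          mul_one]
        rw [Finset.mul_sum]
        congr 1
        · refine Finset.sum_congr rfl fun e _ => ?_
          rw [Finset.mul_sum]
        · ring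
    _ ≤ (N : ℝ) * (1 / Real.log E) + (E : ℝ) ^ 2 := by
        have := mul_le_mul_of_nonneg_left hl.quad (Nat.cast_nonneg (α := ℝ) N)
        linarith
    _ = _ := by ring

/-- sums over multiples -/
theorem Slv_mult (hP : PerStmt) (m : ℤ) (hm : ¬ IsSquare m) (N l : ℕ) (hl : 0 < l) :
    |∑ n ∈ (Od N).filter (fun n => l ∣ n), jc m n| ≤ 4 * |(m : ℝ)| := by
  by_cases h2 : l % 2 = 1
  · have h1 : ∑ n ∈ (Od N).filter (fun n => l ∣ n), jc m n = ∑ k ∈ Od (N / l), jc m (l * k) := by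
      symm
      refine Finset.sum_bij (fun k _ => l * k) ?_ ?_ ?_ (fun _ _ => rfl)
      · intro k hk
        unfold Od at hk ⊢
        rw [Finset.mem_filter, Finset.mem_Icc] at hk
        rw [Finset.mem_filter, Finset.mem_filter, Finset.mem_Icc]
        refine ⟨⟨⟨Nat.mul_pos hl (by omega), ?_⟩, ?_⟩, Dvd.intro k rfl⟩
        · calc l * k ≤ l * (N / l) := Nat.mul_le_mul_left l hk.1.2
            _ ≤ N := Nat.mul_div_le N l
        · rw [Nat.mul_mod, h2, hk.2]
      · intro a _ b _ hab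
        exact Nat.eq_of_mul_eq_mul_left hl hab
      · intro n hn
        unfold Od at hn ⊢
        rw [Finset.mem_filter, Finset.mem_filter, Finset.mem_Icc] at hn
        obtain ⟨⟨⟨h3, h4⟩, h5⟩, k, rfl⟩ := hn
        refine ⟨k, ?_, rfl⟩
        rw [Finset.mem_filter, Finset.mem_Icc]
        refine ⟨⟨?_, ?_⟩, ?_⟩
        · by_contra h
          have : k = 0 := by omega
          rw [this, mul_zero] at h3
          omega
        · rw [Nat.le_div_iff_mul_le hl, mul_comm]
          exact h4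
        · rw [Nat.mul_mod, h2] at h5
          omega
    rw [h1]
    have h3 : ∀ k ∈ Od (N / l), jc m (l * k) = jc m l * jc m k := by
      intro k hk
      unfold Od at hk
      rw [Finset.mem_filter, Finset.mem_Icc] at hk
      unfold jc
      have : NeZero l := ⟨by omega⟩
      have : NeZero k := ⟨by omega⟩
      rw [jacobiSym.mul_right]
      push_cast
      rfl
    rw [Finset.sum_congr rfl h3, ← Finset.mul_sum, abs_mul]
    calc |jc m l| * |∑ k ∈ Od (N / l), jc m k| ≤ 1 * (4 * |(m : ℝ)|) :=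
          mul_le_mul (Lip_jc m l) (hP m hm _) (abs_nonneg _) (by norm_num)
      _ = _ := one_mul _
  · have h1 : (Od N).filter (fun n => l ∣ n) = ∅ := by
      refine Finset.filter_eq_empty_iff.2 fun n hn hln => ?_
      unfold Od at hn
      rw [Finset.mem_filter] at hn
      obtain ⟨k, rfl⟩ := hln
      have h3 := hn.2
      have h4 : l % 2 = 0 := by omega
      rw [Nat.mul_mod, h4] at h3
      simp at h3
    rw [h1, Finset.sum_empty, abs_zero]
    positivity

/-- the other terms -/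
theorem Slv_two (hP : PerStmt) (lam : ℕ → ℝ) (E N : ℕ) (hl : Sb.IsSel lam E) (m : ℤ) (hm : ¬ IsSquare m) :
    |∑ n ∈ Od N, nv lam E n * jc m n| ≤ 4 * |(m : ℝ)| * (E : ℝ) ^ 2 := by
  rw [Slv_sum]
  have h1 : ∀ e ∈ Finset.Icc 1 E, ∀ e' ∈ Finset.Icc 1 E, |lam e * lam e' *
      ∑ n ∈ (Od N).filter (fun n => Nat.lcm e e' ∣ n), jc m n| ≤ 4 * |(m : ℝ)| := by
    intro e he e' he'
    rw [Finset.mem_Icc] at he he'
    rw [abs_mul, abs_mul]
    have e3 : |lam e| * |lam e'| ≤ 1 := mul_le_one₀ (hl.le e) (abs_nonneg _) (hl.le e')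
    calc |lam e| * |lam e'| * |∑ n ∈ (Od N).filter (fun n => Nat.lcm e e' ∣ n), jc m n| ≤
          1 * (4 * |(m : ℝ)|) := mul_le_mul e3
          (Slv_mult hP m hm N _ (Nat.lcm_pos (by omega) (by omega))) (abs_nonneg _) (by norm_num)
      _ = _ := one_mul _
  calc |∑ e ∈ Finset.Icc 1 E, ∑ e' ∈ Finset.Icc 1 E, lam e * lam e' *
      ∑ n ∈ (Od N).filter (fun n => Nat.lcm e e' ∣ n), jc m n| ≤
        ∑ e ∈ Finset.Icc 1 E, |∑ e' ∈ Finset.Icc 1 E, lam e * lam e' *
      ∑ n ∈ (Od N).filter (fun n => Nat.lcm e e' ∣ n), jc m n| := Finset.abs_sum_le_sum_abs _ _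
    _ ≤ ∑ e ∈ Finset.Icc 1 E, ∑ e' ∈ Finset.Icc 1 E, |lam e * lam e' *
      ∑ n ∈ (Od N).filter (fun n => Nat.lcm e e' ∣ n), jc m n| :=
        Finset.sum_le_sum fun e _ => Finset.abs_sum_le_sum_abs _ _
    _ ≤ ∑ e ∈ Finset.Icc 1 E, ∑ e' ∈ Finset.Icc 1 E, 4 * |(m : ℝ)| :=
        Finset.sum_le_sum fun e he => Finset.sum_le_sum fun e' he' => h1 e he e' he'
    _ = 4 * |(m : ℝ)| * (E : ℝ) ^ 2 := by
        simp only [Finset.sum_const, Nat.card_Icc, Nat.add_sub_cancel, nsmul_eq_mul]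
        ring

/-- The majorant is `1` at the primes `p > E`. -/
theorem Slv_prime (lam : ℕ → ℝ) (E : ℕ) (hE : 1 ≤ E) (h1 : lam 1 = 1) (p : ℕ) (hp : p.Prime) (hpE : E < p) :
    nv lam E p = 1 := by
  unfold nv
  have h2 : ∑ e ∈ Finset.Icc 1 E, (if e ∣ p then lam e else 0) = lam 1 := by
    rw [Finset.sum_eq_single 1]
    · rw [if_pos (one_dvd p)]
    · intro e he hne
      rw [Finset.mem_Icc] at he
      rw [if_neg]
      intro h
      rcases (Nat.dvd_prime hp).1 h with h3 | h3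
      · exact hne h3
      · omega
    · intro h
      exact absurd (Finset.mem_Icc.2 ⟨le_rfl, hE⟩) h
  rw [h2, h1]
  norm_num

/-- The large sieve for real characters and sums over primes. -/
theorem tSlv (hS : SchStmt) (hP : PerStmt) (hQ : SqfStmt) (hSel : Sb.SelStmt) :
    ∀ (S : Finset ℤ) (D N E : ℕ) (b : ℕ → ℝ), S ⊆ Sq D → 2 ≤ E →
    ∑ d ∈ S, (∑ p ∈ (OP N).filter (fun p => E < p), b p * jc d p) ^ 2 ≤
      ((N : ℝ) / Real.log E + (E : ℝ) ^ 2 + 4 * (D : ℝ) ^ 2 * (E : ℝ) ^ 2 * (S.card : ℝ)) *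
        ∑ p ∈ (OP N).filter (fun p => E < p), b p ^ 2 := by
  intro S D N E b hSD hE
  obtain ⟨lam, hl⟩ := hSel E hE
  have hnv : ∀ n, 0 ≤ nv lam E n := fun n => by
    unfold nv
    positivity
  have hsq : ∀ n, Real.sqrt (nv lam E n) * Real.sqrt (nv lam E n) = nv lam E n := fun n =>
    Real.mul_self_sqrt (hnv n)
  have hlog : 0 < Real.log E := Real.log_pos (by exact_mod_cast (by omega : 1 < E))
  set P := (OP N).filter (fun p => E < p) with hPd
  have hPO : P ⊆ Od N := by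
    intro p hp
    rw [hPd, Finset.mem_filter] at hp
    unfold OP at hp
    unfold Od
    rw [Finset.mem_filter, Finset.mem_range] at hp
    rw [Finset.mem_filter, Finset.mem_Icc]
    obtain ⟨⟨h1, h2, h3⟩, h4⟩ := hp
    refine ⟨⟨h2.one_lt.le, by omega⟩, ?_⟩
    rcases h2.eq_two_or_odd with h | h
    · exact absurd h h3
    · exact h
  have hval : ∀ d : ℤ, ∑ n ∈ Od N, (if n ∈ P then b n else 0) * (Real.sqrt (nv lam E n) * jc d n) =
      ∑ p ∈ P, b p * jc d p := by
    intro d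
    have h1 : ∀ n ∈ Od N, (if n ∈ P then b n else 0) * (Real.sqrt (nv lam E n) * jc d n) =
        if n ∈ P then b n * jc d n else 0 := by
      intro n _
      by_cases h : n ∈ P
      · rw [if_pos h, if_pos h]
        have h2 := h
        rw [hPd, Finset.mem_filter] at h2
        rw [Slv_prime lam E (by omega) hl.one n (Finset.mem_filter.1 h2.1).2.1 h2.2, Real.sqrt_one, one_mul]
      · rw [if_neg h, if_neg h, zero_mul]
    rw [Finset.sum_congr rfl h1, ← Finset.sum_filter]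
    congr 1
    ext n
    rw [Finset.mem_filter]
    exact ⟨fun h => h.2, fun h => ⟨hPO h, h⟩⟩
  have hval2 : ∑ n ∈ Od N, (if n ∈ P then b n else 0) ^ 2 = ∑ p ∈ P, b p ^ 2 := by
    have h1 : ∀ n ∈ Od N, (if n ∈ P then b n else 0) ^ 2 = if n ∈ P then b n ^ 2 else 0 := by
      intro n _
      split_ifs <;> ring
    rw [Finset.sum_congr rfl h1, ← Finset.sum_filter]
    congr 1
    ext n
    rw [Finset.mem_filter]
    exact ⟨fun h => h.2, fun h => ⟨hPO h, h⟩⟩
  have key := hS ℤ ℕ S (Od N) (fun d n => Real.sqrt (nv lam E n) * jc d n) (fun n => if n ∈ P then b n else 0)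
    ((N : ℝ) / Real.log E + (E : ℝ) ^ 2) (4 * (D : ℝ) ^ 2 * (E : ℝ) ^ 2) (by positivity) (by positivity) (by
      intro d _
      refine le_trans (Finset.sum_le_sum fun n _ => ?_) (Slv_one lam E N hl)
      have h1 := Lip_jc d n
      have h2 : jc d n ^ 2 ≤ 1 := by
        rw [← sq_abs]
        exact pow_le_one₀ (abs_nonneg _) h1
      rw [mul_pow, sq (Real.sqrt _), hsq]
      exact mul_le_of_le_one_right (hnv n) h2) (by
      intro d hd d' hd' hne
      obtain ⟨hd1, hd2⟩ := Finset.mem_filter.1 (hSD hd)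
      obtain ⟨hd3, hd4⟩ := Finset.mem_filter.1 (hSD hd')
      have h1 := Slv_two hP lam E N hl (d * d') (hQ d d' hd2 hd4 hne)
      have h2 : ∑ n ∈ Od N, Real.sqrt (nv lam E n) * jc d n * (Real.sqrt (nv lam E n) * jc d' n) =
          ∑ n ∈ Od N, nv lam E n * jc (d * d') n := by
        refine Finset.sum_congr rfl fun n _ => ?_
        have e3 : jc (d * d') n = jc d n * jc d' n := by
          unfold jc
          rw [jacobiSym.mul_left]
          push_cast
          rfl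
        rw [e3]
        calc Real.sqrt (nv lam E n) * jc d n * (Real.sqrt (nv lam E n) * jc d' n) =
              (Real.sqrt (nv lam E n) * Real.sqrt (nv lam E n)) * (jc d n * jc d' n) := by ring
          _ = _ := by rw [hsq]
      rw [h2]
      refine h1.trans ?_
      have e1 : |(d : ℝ)| ≤ D := by
        rw [Finset.mem_Icc] at hd1
        rw [abs_le]
        exact ⟨by exact_mod_cast hd1.1, by exact_mod_cast hd1.2⟩
      have e2 : |(d' : ℝ)| ≤ D := by
        rw [Finset.mem_Icc] at hd3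
        rw [abs_le]
        exact ⟨by exact_mod_cast hd3.1, by exact_mod_cast hd3.2⟩
      have e3 : |((d * d' : ℤ) : ℝ)| ≤ (D : ℝ) ^ 2 := by
        push_cast
        rw [abs_mul, sq]
        exact mul_le_mul e1 e2 (abs_nonneg _) (Nat.cast_nonneg _)
      gcongr)
  simp only [hval] at key
  rw [hval2] at key
  exact key

end Pool.Agent.Lib.NagA
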