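import Pool.Agent.Lib.MP_60fb2a_nt.S.Cvw

/-!
MP_60fb2a_nt, directory S: the large sieve for real characters and sums over primes, with smooth weights; the error
term is a high power of `D^2 E^4 / N`.
-/

set_option autoImplicit false

namespace Pool.Agent.Lib.NagA

open Polynomial Finset Classical
open scoped NumberTheorySymbols

/-- the Jacobi symbol on odd numbers, extended by `0` -/
noncomputable def fj (m : ℤ) (n : ℕ) : ℝ := if n % 2 = 1 then jc m n else 0

theorem fj_abs (m : ℤ) (n : ℕ) : |fj m n| ≤ 1 := by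
  unfold fj
  split_ifs with h
  · exact Lip_jc m n
  · simp

theorem fj_mod (m : ℤ) (n : ℕ) : fj m (n % (4 * m.natAbs)) = fj m n := by
  unfold fj
  have h2 : (n % (4 * m.natAbs)) % 2 = n % 2 := by
    rw [Nat.mod_mod_of_dvd]
    exact ⟨2 * m.natAbs, by ring⟩
  rw [h2]
  split_ifs with h
  · unfold jc
    rw [← jacobiSym.mod_right m (Nat.odd_iff.2 h)]
  · rfl

theorem fj_per (m : ℤ) (n q : ℕ) (hq : 4 * m.natAbs ∣ q) : fj m (n + q) = fj m n := by
  obtain ⟨k, rfl⟩ := hq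
  rw [← fj_mod m (n + 4 * m.natAbs * k), ← fj_mod m n, Nat.add_mul_mod_self_left]

theorem fj_mul (m : ℤ) {a : ℕ} (ha : a % 2 = 1) (n : ℕ) : fj m (a * n) = fj m a * fj m n := by
  unfold fj
  rw [if_pos ha]
  by_cases h : n % 2 = 1
  · have h1 : (a * n) % 2 = 1 := by rw [Nat.mul_mod, ha, h]
    rw [if_pos h, if_pos h1]
    unfold jc
    have i1 : NeZero a := ⟨by omega⟩
    have i2 : NeZero n := ⟨by omega⟩
    rw [jacobiSym.mul_right]
    push_cast
    rfl
  · have h0 : n % 2 = 0 := by omega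
    have h1 : (a * n) % 2 = 0 := by rw [Nat.mul_mod, h0, mul_zero, Nat.zero_mod]
    rw [if_neg h, if_neg (by omega), mul_zero]

theorem fj_left (m m' : ℤ) (n : ℕ) : fj m n * fj m' n = fj (m * m') n := by
  unfold fj
  split_ifs
  · unfold jc
    rw [jacobiSym.mul_left]
    push_cast
    rfl
  · rw [zero_mul]

/-- the sum over a period -/
theorem fj_zero (h1 : NsqStmt) (m : ℤ) (hm : ¬ IsSquare m) : ∑ x ∈ range (4 * m.natAbs), fj m x = 0 := by
  have hm0 : m ≠ 0 := by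
    rintro rfl
    exact hm IsSquare.zero
  obtain ⟨a, ha, hJ⟩ := h1 m hm
  set q : ℕ := 4 * m.natAbs with hq
  have hq0 : 0 < q := by
    have := Int.natAbs_pos.2 hm0
    omega
  have hcop : Nat.Coprime q a := by
    have i1 : NeZero a := ⟨by omega⟩
    have h2 : m.gcd a = 1 := by
      by_contra h3
      have h4 := jacobiSym.eq_zero_iff_not_coprime.2 h3
      rw [h4] at hJ
      norm_num at hJ
    have h3 : Nat.Coprime m.natAbs a := by
      have h4 : m.gcd a = Nat.gcd m.natAbs a := by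
        rw [Int.gcd_eq_natAbs, Int.natAbs_natCast]
      rw [Nat.coprime_iff_gcd_eq_one, ← h4]
      exact h2
    have h4 : Nat.Coprime 4 a := by
      have h5 : Nat.Coprime (2 ^ 2) a := (Nat.coprime_two_left.2 (Nat.odd_iff.2 ha)).pow_left 2
      simpa using h5
    exact Nat.Coprime.mul_left h4 h3
  have hfa : fj m a = -1 := by
    unfold fj jc
    rw [if_pos ha, hJ]
    norm_num
  have hinj : Set.InjOn (fun x => (a * x) % q) (range q : Finset ℕ) := by
    intro x hx y hy hxy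
    have hx' : x < q := by simpa using hx
    have hy' : y < q := by simpa using hy
    have h2 : a * x ≡ a * y [MOD q] := hxy
    exact (Nat.ModEq.cancel_left_of_coprime hcop h2).eq_of_lt_of_lt hx' hy'
  have hmaps : ∀ x ∈ range q, (a * x) % q ∈ range q := by
    intro x _
    exact mem_range.2 (Nat.mod_lt _ hq0)
  have hsurj : Set.SurjOn (fun x => (a * x) % q) (range q : Finset ℕ) (range q : Finset ℕ) :=
    Finset.surjOn_of_injOn_of_card_le _ (fun x hx => hmaps x hx) hinj le_rfl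
  have h2 : ∑ x ∈ range q, fj m (a * x) = ∑ x ∈ range q, fj m x := by
    refine Finset.sum_nbij (fun x => (a * x) % q) hmaps hinj hsurj ?_
    intro x _
    exact (fj_mod m (a * x)).symm
  have h3 : ∑ x ∈ range q, fj m (a * x) = -∑ x ∈ range q, fj m x := by
    rw [← Finset.sum_neg_distrib]
    refine Finset.sum_congr rfl fun x _ => ?_
    rw [fj_mul m ha, hfa]
    ring
  linarith

theorem Slw_mult (F : ℕ → ℝ) (l : ℕ) (hl : 0 < l) (q : ℕ) :
    ∑ n ∈ range (q * l), (if l ∣ n then F n else 0) = ∑ k ∈ range q, F (l * k) := by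
  induction q with
  | zero => simp
  | succ q ih =>
    rw [Nat.succ_mul, Finset.sum_range_add, ih, Finset.sum_range_succ]
    congr 1
    rw [Finset.sum_eq_single 0]
    · rw [add_zero, if_pos (Dvd.intro_left q rfl), mul_comm]
    · intro a ha ha0
      rw [Finset.mem_range] at ha
      rw [if_neg]
      intro h1
      have h2 : l ∣ a := (Nat.dvd_add_right (Dvd.intro_left q rfl)).1 h1
      have := Nat.le_of_dvd (by omega) h2
      omega
    · intro h1
      exact absurd (Finset.mem_range.2 hl) h1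

/-- the character restricted to the multiples of `l` -/
theorem Slw_g (h1 : NsqStmt) (m : ℤ) (hm : ¬ IsSquare m) (l : ℕ) (hl : 0 < l) :
    (∀ n, (if l ∣ n + 4 * m.natAbs * l then fj m (n + 4 * m.natAbs * l) else 0) = if l ∣ n then fj m n else 0) ∧
    ∑ n ∈ range (4 * m.natAbs * l), (if l ∣ n then fj m n else 0) = 0 ∧
    ∀ n, |if l ∣ n then fj m n else 0| ≤ 1 := by
  refine ⟨fun n => ?_, ?_, fun n => ?_⟩
  · rw [fj_per m n _ (Dvd.intro l rfl)]
    by_cases h : l ∣ n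
    · rw [if_pos h, if_pos ((Nat.dvd_add_left (Dvd.intro_left _ rfl)).2 h)]
    · rw [if_neg h, if_neg (fun h3 => h ((Nat.dvd_add_left (Dvd.intro_left _ rfl)).1 h3))]
  · by_cases h2 : l % 2 = 1
    · rw [Slw_mult _ l hl, Finset.sum_congr rfl fun k _ => fj_mul m h2 k, ← Finset.mul_sum, fj_zero h1 m hm,
        mul_zero]
    · refine Finset.sum_eq_zero fun n _ => ?_
      split_ifs with h
      · obtain ⟨k, rfl⟩ := h
        unfold fj
        rw [if_neg]
        rw [Nat.mul_mod]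
        have h4 : l % 2 = 0 := by omega
        rw [h4, zero_mul]
        simp
      · rfl
  · split_ifs
    · exact fj_abs m n
    · simp

theorem Slw_swap (lam : ℕ → ℝ) (E L j n : ℕ) (F : ℕ → ℝ) :
    ∑ t ∈ range (j * L + 1), Rw L j t * (nv lam E (n + t) * F (n + t)) =
    ∑ e ∈ Finset.Icc 1 E, ∑ e' ∈ Finset.Icc 1 E, lam e * lam e' *
      (Tw L)^[j] (fun x => if Nat.lcm e e' ∣ x then F x else 0) n := by
  have h1 : ∀ t ∈ range (j * L + 1), Rw L j t * (nv lam E (n + t) * F (n + t)) =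
      ∑ e ∈ Finset.Icc 1 E, ∑ e' ∈ Finset.Icc 1 E, lam e * lam e' *
        (Rw L j t * (if Nat.lcm e e' ∣ n + t then F (n + t) else 0)) := by
    intro t _
    rw [Slv_exp, Finset.sum_mul, Finset.mul_sum]
    refine Finset.sum_congr rfl fun e _ => ?_
    rw [Finset.sum_mul, Finset.mul_sum]
    refine Finset.sum_congr rfl fun e' _ => ?_
    split_ifs <;> ring
  rw [Finset.sum_congr rfl h1, Finset.sum_comm]
  refine Finset.sum_congr rfl fun e _ => ?_
  rw [Finset.sum_comm]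
  refine Finset.sum_congr rfl fun e' _ => ?_
  rw [← Finset.mul_sum, Tw_iter]

/-- the main term -/
theorem Slw_one (lam : ℕ → ℝ) (E : ℕ) (hl : Sb.IsSel lam E) (L j n : ℕ) :
    ∑ t ∈ range ((j + 1) * L + 1), Rw L (j + 1) t * nv lam E (n + t) ≤
      (L : ℝ) ^ j * ((L : ℝ) / Real.log E + (E : ℝ) ^ 2) := by
  have h0 := Slw_swap lam E L (j + 1) n (fun _ => 1)
  simp only [mul_one] at h0
  rw [h0]
  have h2 : ∀ e ∈ Finset.Icc 1 E, ∀ e' ∈ Finset.Icc 1 E, lam e * lam e' *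
      (Tw L)^[j + 1] (fun x => if Nat.lcm e e' ∣ x then (1 : ℝ) else 0) n ≤
      (L : ℝ) ^ j * (L * (lam e * lam e' / (Nat.lcm e e' : ℝ)) + 1) := by
    intro e he e' he'
    rw [Finset.mem_Icc] at he he'
    have hpos : 0 < Nat.lcm e e' := Nat.lcm_pos (by omega) (by omega)
    have h3 := Tw_iter_dvd L (Nat.lcm e e') hpos j n
    have e3 : |lam e * lam e'| ≤ 1 := by
      rw [abs_mul]
      exact mul_le_one₀ (hl.le e) (abs_nonneg _) (hl.le e')
    obtain ⟨z, hz⟩ : ∃ z : ℝ, z = (Tw L)^[j + 1] (fun x => if Nat.lcm e e' ∣ x then (1 : ℝ) else 0) n := ⟨_, rfl⟩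
    rw [← hz] at h3 ⊢
    have e4 : lam e * lam e' * (z - (L : ℝ) ^ j * ((L : ℝ) / (Nat.lcm e e' : ℝ))) ≤ (L : ℝ) ^ j := by
      refine le_trans (le_abs_self _) ?_
      rw [abs_mul]
      calc |lam e * lam e'| * |z - (L : ℝ) ^ j * ((L : ℝ) / (Nat.lcm e e' : ℝ))| ≤ 1 * (L : ℝ) ^ j :=
            mul_le_mul e3 h3 (abs_nonneg _) (by norm_num)
        _ = _ := one_mul _
    have e5 : lam e * lam e' * z = lam e * lam e' * (z - (L : ℝ) ^ j * ((L : ℝ) / (Nat.lcm e e' : ℝ))) +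
        (L : ℝ) ^ j * (L * (lam e * lam e' / (Nat.lcm e e' : ℝ))) := by ring
    rw [e5]
    have e6 : (L : ℝ) ^ j * (L * (lam e * lam e' / (Nat.lcm e e' : ℝ)) + 1) =
        (L : ℝ) ^ j + (L : ℝ) ^ j * (L * (lam e * lam e' / (Nat.lcm e e' : ℝ))) := by ring
    rw [e6]
    linarith
  calc ∑ e ∈ Finset.Icc 1 E, ∑ e' ∈ Finset.Icc 1 E, lam e * lam e' *
      (Tw L)^[j + 1] (fun x => if Nat.lcm e e' ∣ x then (1 : ℝ) else 0) n ≤
        ∑ e ∈ Finset.Icc 1 E, ∑ e' ∈ Finset.Icc 1 E,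
          (L : ℝ) ^ j * (L * (lam e * lam e' / (Nat.lcm e e' : ℝ)) + 1) :=
        Finset.sum_le_sum fun e he => Finset.sum_le_sum fun e' he' => h2 e he e' he'
    _ = (L : ℝ) ^ j * ((L : ℝ) * (∑ e ∈ Finset.Icc 1 E, ∑ e' ∈ Finset.Icc 1 E,
          lam e * lam e' / (Nat.lcm e e' : ℝ)) + (E : ℝ) ^ 2) := by
        have e7 : ∀ e ∈ Finset.Icc 1 E, ∑ e' ∈ Finset.Icc 1 E,
            (L : ℝ) ^ j * (L * (lam e * lam e' / (Nat.lcm e e' : ℝ)) + 1) =
            (L : ℝ) ^ j * (L * ∑ e' ∈ Finset.Icc 1 E, (lam e * lam e' / (Nat.lcm e e' : ℝ)) + E) := by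
          intro e _
          rw [← Finset.mul_sum, Finset.sum_add_distrib, ← Finset.mul_sum, Finset.sum_const, Nat.card_Icc,
            Nat.add_sub_cancel, nsmul_eq_mul, mul_one]
        rw [Finset.sum_congr rfl e7, ← Finset.mul_sum, Finset.sum_add_distrib, ← Finset.mul_sum, Finset.sum_const,
          Nat.card_Icc, Nat.add_sub_cancel, nsmul_eq_mul]
        ring
    _ ≤ (L : ℝ) ^ j * ((L : ℝ) * (1 / Real.log E) + (E : ℝ) ^ 2) := by
        refine mul_le_mul_of_nonneg_left ?_ (by positivity)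
        have := mul_le_mul_of_nonneg_left hl.quad (Nat.cast_nonneg (α := ℝ) L)
        linarith
    _ = _ := by ring

/-- the other terms -/
theorem Slw_two (h1 : NsqStmt) (lam : ℕ → ℝ) (E : ℕ) (hl : Sb.IsSel lam E) (m : ℤ) (hm : ¬ IsSquare m) (L j n : ℕ) :
    |∑ t ∈ range (j * L + 1), Rw L j t * (nv lam E (n + t) * fj m (n + t))| ≤
      (E : ℝ) ^ 2 * (4 * |(m : ℝ)| * (E : ℝ) ^ 2) ^ j := by
  have hm0 : m ≠ 0 := by
    rintro rfl
    exact hm IsSquare.zero
  have hm1 : 0 < m.natAbs := Int.natAbs_pos.2 hm0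
  have hmR : ((m.natAbs : ℕ) : ℝ) = |(m : ℝ)| := by
    rw [Nat.cast_natAbs]
    push_cast
    rfl
  rw [Slw_swap]
  have h2 : ∀ e ∈ Finset.Icc 1 E, ∀ e' ∈ Finset.Icc 1 E, |lam e * lam e' *
      (Tw L)^[j] (fun x => if Nat.lcm e e' ∣ x then fj m x else 0) n| ≤ (4 * |(m : ℝ)| * (E : ℝ) ^ 2) ^ j := by
    intro e he e' he'
    rw [Finset.mem_Icc] at he he'
    have hpos : 0 < Nat.lcm e e' := Nat.lcm_pos (by omega) (by omega)
    obtain ⟨g1, g2, g3⟩ := Slw_g h1 m hm (Nat.lcm e e') hpos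
    have h3 := (Tw_iter_bd L (fun x => if Nat.lcm e e' ∣ x then fj m x else 0) (4 * m.natAbs * Nat.lcm e e')
      (by positivity) g1 g2 g3 j).2.2 n
    rw [abs_mul, abs_mul]
    have e3 : |lam e| * |lam e'| ≤ 1 := mul_le_one₀ (hl.le e) (abs_nonneg _) (hl.le e')
    have e4 : ((4 * m.natAbs * Nat.lcm e e' : ℕ) : ℝ) ≤ 4 * |(m : ℝ)| * (E : ℝ) ^ 2 := by
      push_cast
      rw [hmR]
      have e5 : ((Nat.lcm e e' : ℕ) : ℝ) ≤ (E : ℝ) ^ 2 := by
        have e6 : Nat.lcm e e' ≤ E ^ 2 := by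
          calc Nat.lcm e e' ≤ e * e' := Nat.le_of_dvd (Nat.mul_pos (by omega) (by omega)) (Nat.lcm_dvd_mul e e')
            _ ≤ E * E := Nat.mul_le_mul he.2 he'.2
            _ = E ^ 2 := (sq E).symm
        exact_mod_cast e6
      exact mul_le_mul_of_nonneg_left e5 (by positivity)
    calc |lam e| * |lam e'| * |(Tw L)^[j] (fun x => if Nat.lcm e e' ∣ x then fj m x else 0) n| ≤
          1 * ((4 * m.natAbs * Nat.lcm e e' : ℕ) : ℝ) ^ j := mul_le_mul e3 h3 (abs_nonneg _) (by norm_num)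
      _ = ((4 * m.natAbs * Nat.lcm e e' : ℕ) : ℝ) ^ j := one_mul _
      _ ≤ _ := pow_le_pow_left₀ (Nat.cast_nonneg _) e4 j
  calc |∑ e ∈ Finset.Icc 1 E, ∑ e' ∈ Finset.Icc 1 E, lam e * lam e' *
      (Tw L)^[j] (fun x => if Nat.lcm e e' ∣ x then fj m x else 0) n| ≤
        ∑ e ∈ Finset.Icc 1 E, |∑ e' ∈ Finset.Icc 1 E, lam e * lam e' *
      (Tw L)^[j] (fun x => if Nat.lcm e e' ∣ x then fj m x else 0) n| := Finset.abs_sum_le_sum_abs _ _
    _ ≤ ∑ e ∈ Finset.Icc 1 E, ∑ e' ∈ Finset.Icc 1 E, |lam e * lam e' *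
      (Tw L)^[j] (fun x => if Nat.lcm e e' ∣ x then fj m x else 0) n| :=
        Finset.sum_le_sum fun e _ => Finset.abs_sum_le_sum_abs _ _
    _ ≤ ∑ e ∈ Finset.Icc 1 E, ∑ e' ∈ Finset.Icc 1 E, (4 * |(m : ℝ)| * (E : ℝ) ^ 2) ^ j :=
        Finset.sum_le_sum fun e he => Finset.sum_le_sum fun e' he' => h2 e he e' he'
    _ = _ := by
        simp only [Finset.sum_const, Nat.card_Icc, Nat.add_sub_cancel, nsmul_eq_mul]
        ring

end Pool.Agent.Lib.NagA
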