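import Pool.Agent.Lib.MP_60fb2a_nt.S.Slw

/-!
MP_60fb2a_nt, directory S: the large sieve with smooth weights, main theorem.
-/

set_option autoImplicit false

namespace Pool.Agent.Lib.NagA

open Polynomial Finset Classical

/-- the statement of the large sieve with `j + 1` fold convolution weights -/
def SlxStmt : Prop := ∀ (S : Finset ℤ) (D N E j : ℕ) (b : ℕ → ℝ), S ⊆ Sq D → 2 ≤ E → 1 ≤ N → 1 ≤ j →
    ∑ d ∈ S, (∑ p ∈ (OP N).filter (fun p => E < p), b p * jc d p) ^ 2 ≤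
      (((j : ℝ) + 1) ^ j * (((j : ℝ) + 1) * N / Real.log E + (E : ℝ) ^ 2) +
        (E : ℝ) ^ 2 * (4 * (D : ℝ) ^ 2 * (E : ℝ) ^ 2) ^ (j + 1) / (N : ℝ) ^ j * (S.card : ℝ)) *
        ∑ p ∈ (OP N).filter (fun p => E < p), b p ^ 2

theorem Slx_nv (lam : ℕ → ℝ) (E Q n : ℕ) (hQ : ∀ e : ℕ, 1 ≤ e → e ≤ E → e ∣ Q) :
    nv lam E (Q + n) = nv lam E n := by
  unfold nv
  congr 1
  refine Finset.sum_congr rfl fun e he => ?_
  rw [Finset.mem_Icc] at he
  have h := hQ e he.1 he.2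
  by_cases h1 : e ∣ n
  · rw [if_pos h1, if_pos (Dvd.dvd.add h h1)]
  · rw [if_neg h1, if_neg (fun h2 => h1 ((Nat.dvd_add_right h).1 h2))]

theorem Slx_Q (D E s : ℕ) : ∃ Q : ℕ, s ≤ Q ∧ (∀ e : ℕ, 1 ≤ e → e ≤ E → e ∣ Q) ∧
    ∀ d ∈ Sq D, 4 * d.natAbs ∣ Q := by
  refine ⟨4 * D.factorial * E.factorial * (s + 1), ?_, ?_, ?_⟩
  · have h1 := Nat.factorial_pos D
    have h2 := Nat.factorial_pos E
    have h3 : 1 ≤ 4 * D.factorial * E.factorial := Nat.mul_pos (Nat.mul_pos (by norm_num) h1) h2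
    nlinarith
  · intro e h1 h2
    have h3 : e ∣ E.factorial := Nat.dvd_factorial h1 h2
    exact Dvd.dvd.mul_right (Dvd.dvd.mul_left h3 _) _
  · intro d hd
    unfold Sq at hd
    rw [Finset.mem_filter, Finset.mem_Icc] at hd
    have h0 : d ≠ 0 := hd.2.ne_zero
    have h1 : 0 < d.natAbs := Int.natAbs_pos.2 h0
    have h2 : d.natAbs ≤ D := by omega
    have h3 : d.natAbs ∣ D.factorial := Nat.dvd_factorial h1 h2
    exact Dvd.dvd.mul_right (Dvd.dvd.mul_right (Nat.mul_dvd_mul_left 4 h3) _) _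

theorem tSlx (hS : SchStmt) (h1 : NsqStmt) (hQ : SqfStmt) (hSel : Sb.SelStmt) : SlxStmt := by
  intro S D N E j b hSD hE hN hj
  obtain ⟨lam, hl⟩ := hSel E hE
  have hnv : ∀ n, 0 ≤ nv lam E n := fun n => by
    unfold nv
    positivity
  have hlog : 0 < Real.log E := Real.log_pos (by exact_mod_cast (by omega : 1 < E))
  obtain ⟨L, hL⟩ : ∃ L : ℕ, L = (j + 1) * N := ⟨_, rfl⟩
  obtain ⟨s, hs⟩ : ∃ s : ℕ, s = j * (N - 1) := ⟨_, rfl⟩
  obtain ⟨Q, hQ1, hQ2, hQ3⟩ := Slx_Q D E s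
  obtain ⟨Q', hQ'⟩ : ∃ Q' : ℕ, Q = Q' + s := ⟨Q - s, by omega⟩
  have hNR : (0 : ℝ) < N := by exact_mod_cast hN
  have hNj : (0 : ℝ) < (N : ℝ) ^ j := by positivity
  have hLR : (L : ℝ) = ((j : ℝ) + 1) * N := by
    rw [hL]
    push_cast
    ring
  obtain ⟨w, hw⟩ : ∃ w : ℕ → ℝ, ∀ t, w t = Rw L (j + 1) t / (N : ℝ) ^ j := ⟨_, fun _ => rfl⟩
  have hw0 : ∀ t, 0 ≤ w t := fun t => by
    rw [hw]
    exact div_nonneg (Rw_nonneg _ _ _) hNj.le
  have hsq : ∀ t n, Real.sqrt (w t * nv lam E n) * Real.sqrt (w t * nv lam E n) = w t * nv lam E n := fun t n =>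
    Real.mul_self_sqrt (mul_nonneg (hw0 t) (hnv n))
  obtain ⟨P, hPd⟩ : ∃ P : Finset ℕ, P = (OP N).filter (fun p => E < p) := ⟨_, rfl⟩
  rw [← hPd]
  have hP : ∀ p ∈ P, p.Prime ∧ p % 2 = 1 ∧ E < p ∧ p ≤ N := by
    intro p hp
    rw [hPd, Finset.mem_filter] at hp
    unfold OP at hp
    rw [Finset.mem_filter, Finset.mem_range] at hp
    obtain ⟨⟨h1, h2, h3⟩, h4⟩ := hp
    refine ⟨h2, ?_, h4, by omega⟩
    rcases h2.eq_two_or_odd with h | h
    · exact absurd h h3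
    · exact h
  have hsL : ∀ p ∈ P, p + s < L := by
    intro p hp
    obtain ⟨-, -, -, h4⟩ := hP p hp
    obtain ⟨N', rfl⟩ : ∃ N', N = N' + 1 := ⟨N - 1, by omega⟩
    obtain ⟨j', rfl⟩ : ∃ j', j = j' + 1 := ⟨j - 1, by omega⟩
    rw [hL, hs, Nat.add_sub_cancel]
    have e1 : (j' + 1 + 1) * (N' + 1) = (j' + 1) * N' + (N' + j' + 2) := by ring
    rw [e1]
    omega
  have hw1 : ∀ p ∈ P, 1 ≤ w (p + s) := by
    intro p hp
    rw [hw, le_div_iff₀ hNj, one_mul]
    refine Rw_low L N j ?_ (p + s) (by rw [hs]; omega) (hsL p hp)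
    rw [hL]
    exact Nat.le_mul_of_pos_left N (by omega)
  obtain ⟨T, hT⟩ : ∃ T : Finset ℕ, T = range ((j + 1) * L + 1) := ⟨_, rfl⟩
  have hmap : T.filter (fun t => s ≤ t ∧ t - s ∈ P) = P.map (addRightEmbedding s) := by
    ext t
    rw [Finset.mem_filter, Finset.mem_map]
    constructor
    · rintro ⟨h1, h2, h3⟩
      refine ⟨t - s, h3, ?_⟩
      simp only [addRightEmbedding_apply]
      omega
    · rintro ⟨u, h1, h2⟩
      simp only [addRightEmbedding_apply] at h2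
      rw [← h2, hT, Finset.mem_range, Nat.add_sub_cancel]
      refine ⟨?_, by omega, h1⟩
      have h3 := hsL u h1
      have h4 : (j + 1) * L = j * L + L := by ring
      omega
  have hsum : ∀ F : ℕ → ℝ, ∑ t ∈ T, (if s ≤ t ∧ t - s ∈ P then F t else 0) = ∑ p ∈ P, F (p + s) := by
    intro F
    rw [← Finset.sum_filter, hmap, Finset.sum_map]
    rfl
  have hval : ∀ d ∈ Sq D, ∑ t ∈ T, (if s ≤ t ∧ t - s ∈ P then b (t - s) / Real.sqrt (w t) else 0) *
      (Real.sqrt (w t * nv lam E (Q' + t)) * fj d (Q' + t)) = ∑ p ∈ P, b p * jc d p := by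
    intro d hd
    have h2 : ∀ t ∈ T, (if s ≤ t ∧ t - s ∈ P then b (t - s) / Real.sqrt (w t) else 0) *
        (Real.sqrt (w t * nv lam E (Q' + t)) * fj d (Q' + t)) =
        if s ≤ t ∧ t - s ∈ P then b (t - s) / Real.sqrt (w t) *
          (Real.sqrt (w t * nv lam E (Q' + t)) * fj d (Q' + t)) else 0 := by
      intro t _
      rw [ite_mul, zero_mul]
    rw [Finset.sum_congr rfl h2, hsum]
    refine Finset.sum_congr rfl fun p hp => ?_
    obtain ⟨q1, q2, q3, q4⟩ := hP p hp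
    have e1 : Q' + (p + s) = Q + p := by omega
    have e2 : fj d (Q + p) = jc d p := by
      rw [add_comm, fj_per d p Q (hQ3 d hd)]
      unfold fj
      rw [if_pos q2]
    rw [e1, Slx_nv lam E Q p hQ2, Slv_prime lam E (by omega) hl.one p q1 q3, mul_one, Nat.add_sub_cancel, e2]
    have h3 : 0 < Real.sqrt (w (p + s)) := Real.sqrt_pos.2 (by linarith [hw1 p hp])
    field_simp
  have hval2 : ∑ t ∈ T, (if s ≤ t ∧ t - s ∈ P then b (t - s) / Real.sqrt (w t) else 0) ^ 2 ≤ ∑ p ∈ P, b p ^ 2 := by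
    have h2 : ∀ t ∈ T, (if s ≤ t ∧ t - s ∈ P then b (t - s) / Real.sqrt (w t) else 0) ^ 2 =
        if s ≤ t ∧ t - s ∈ P then (b (t - s) / Real.sqrt (w t)) ^ 2 else 0 := by
      intro t _
      split_ifs <;> ring
    rw [Finset.sum_congr rfl h2, hsum]
    refine Finset.sum_le_sum fun p hp => ?_
    rw [Nat.add_sub_cancel, div_pow, Real.sq_sqrt (hw0 _)]
    exact div_le_self (sq_nonneg _) (hw1 p hp)
  have key := hS ℤ ℕ S T (fun d t => Real.sqrt (w t * nv lam E (Q' + t)) * fj d (Q' + t))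
    (fun t => if s ≤ t ∧ t - s ∈ P then b (t - s) / Real.sqrt (w t) else 0)
    (((j : ℝ) + 1) ^ j * (((j : ℝ) + 1) * N / Real.log E + (E : ℝ) ^ 2))
    ((E : ℝ) ^ 2 * (4 * (D : ℝ) ^ 2 * (E : ℝ) ^ 2) ^ (j + 1) / (N : ℝ) ^ j) (by positivity) (by positivity) (by
      intro d _
      have a1 : ∀ t ∈ T, (Real.sqrt (w t * nv lam E (Q' + t)) * fj d (Q' + t)) ^ 2 ≤
          1 / (N : ℝ) ^ j * (Rw L (j + 1) t * nv lam E (Q' + t)) := by
        intro t _
        have h3 : fj d (Q' + t) ^ 2 ≤ 1 := by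
          rw [← sq_abs]
          exact pow_le_one₀ (abs_nonneg _) (fj_abs d _)
        rw [mul_pow, sq (Real.sqrt _), hsq]
        refine (mul_le_of_le_one_right (mul_nonneg (hw0 t) (hnv _)) h3).trans (le_of_eq ?_)
        rw [hw]
        ring
      refine le_trans (Finset.sum_le_sum a1) ?_
      rw [← Finset.mul_sum, hT]
      have a2 := Slw_one lam E hl L j Q'
      calc 1 / (N : ℝ) ^ j * ∑ t ∈ range ((j + 1) * L + 1), Rw L (j + 1) t * nv lam E (Q' + t) ≤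
            1 / (N : ℝ) ^ j * ((L : ℝ) ^ j * ((L : ℝ) / Real.log E + (E : ℝ) ^ 2)) :=
            mul_le_mul_of_nonneg_left a2 (by positivity)
        _ = _ := by
            rw [hLR, mul_pow]
            field_simp) (by
      intro d hd d' hd' hne
      obtain ⟨hd1, hd2⟩ := Finset.mem_filter.1 (hSD hd)
      obtain ⟨hd3, hd4⟩ := Finset.mem_filter.1 (hSD hd')
      have a1 : ∀ t ∈ T, Real.sqrt (w t * nv lam E (Q' + t)) * fj d (Q' + t) *
          (Real.sqrt (w t * nv lam E (Q' + t)) * fj d' (Q' + t)) =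
          1 / (N : ℝ) ^ j * (Rw L (j + 1) t * (nv lam E (Q' + t) * fj (d * d') (Q' + t))) := by
        intro t _
        rw [← fj_left]
        calc Real.sqrt (w t * nv lam E (Q' + t)) * fj d (Q' + t) *
              (Real.sqrt (w t * nv lam E (Q' + t)) * fj d' (Q' + t)) =
              (Real.sqrt (w t * nv lam E (Q' + t)) * Real.sqrt (w t * nv lam E (Q' + t))) *
              (fj d (Q' + t) * fj d' (Q' + t)) := by ring
          _ = _ := by
              rw [hsq, hw]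
              ring
      rw [Finset.sum_congr rfl a1, ← Finset.mul_sum, hT, abs_mul, abs_of_pos (by positivity)]
      have a2 := Slw_two h1 lam E hl (d * d') (hQ d d' hd2 hd4 hne) L (j + 1) Q'
      have e1 : |(d : ℝ)| ≤ D := by
        rw [Finset.mem_Icc] at hd1
        rw [abs_le]
        exact ⟨by exact_mod_cast hd1.1, by exact_mod_cast hd1.2⟩
      have e2 : |(d' : ℝ)| ≤ D := by
        rw [Finset.mem_Icc] at hd3
        rw [abs_le]
        exact ⟨by exact_mod_cast hd3.1, by exact_mod_cast hd3.2⟩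
      have e3 : |((d * d' : ℤ) : ℝ)| ≤ (D : ℝ) ^ 2 := by
        push_cast
        rw [abs_mul, sq]
        exact mul_le_mul e1 e2 (abs_nonneg _) (Nat.cast_nonneg _)
      calc 1 / (N : ℝ) ^ j * |∑ t ∈ range ((j + 1) * L + 1), Rw L (j + 1) t *
            (nv lam E (Q' + t) * fj (d * d') (Q' + t))| ≤
            1 / (N : ℝ) ^ j * ((E : ℝ) ^ 2 * (4 * |((d * d' : ℤ) : ℝ)| * (E : ℝ) ^ 2) ^ (j + 1)) :=
            mul_le_mul_of_nonneg_left a2 (by positivity)
        _ ≤ 1 / (N : ℝ) ^ j * ((E : ℝ) ^ 2 * (4 * (D : ℝ) ^ 2 * (E : ℝ) ^ 2) ^ (j + 1)) := by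
            gcongr
        _ = _ := by ring)
  rw [Finset.sum_congr rfl fun d hd => by rw [hval d (hSD hd)]] at key
  refine key.trans (mul_le_mul_of_nonneg_left hval2 (by positivity))

end Pool.Agent.Lib.NagA
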