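import Pool.Agent.Lib.MP_60fb2a_nt.S.Msq
import Pool.Agent.Lib.MP_60fb2a_nt.S.Fix2

/-!
MP_60fb2a_nt, directory S: at most `N^θ + K log Y` exceptions for the range `(log |d|)^a ≤ X ≤ Y`, natural averages.
-/

set_option autoImplicit false

namespace Pool.Agent.Lib.NagA

open Polynomial Finset Classical

/-- at each scale at most `K` bad `d` with `|d| ≤ X^(1/4)` -/
def SxbStmt : Prop := ∀ C ε : ℝ, 0 < C → 0 < ε → ∃ K : ℝ, 0 < K ∧ ∀ W : ℕ → ℝ, Bd W C → ∀ X : ℝ, 1 ≤ X →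
  ∀ D : ℕ, (D : ℝ) ^ 4 ≤ X → ((bad W D ε X).card : ℝ) ≤ K

theorem tSxb (hM : MsqStmt) : SxbStmt := by
  intro C ε hC hε
  obtain ⟨K, hK⟩ := hM C (1 / 12) hC (by norm_num) (by norm_num)
  refine ⟨|K| / ε ^ 2 + 1, by positivity, fun W hW X hX D hD => ?_⟩
  have hD' : (D : ℝ) ≤ X ^ (1 / 3 - 1 / 12 : ℝ) := by
    have h1 : (1 / 3 - 1 / 12 : ℝ) = 1 / 4 := by norm_num
    rw [h1]
    calc (D : ℝ) = ((D : ℝ) ^ 4) ^ (1 / 4 : ℝ) := by
          rw [← Real.rpow_natCast, ← Real.rpow_mul (Nat.cast_nonneg _)]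
          norm_num
      _ ≤ X ^ (1 / 4 : ℝ) := Real.rpow_le_rpow (by positivity) hD (by norm_num)
  have h1 := hK W hW X hX D hD'
  have h2 : ((bad W D ε X).card : ℝ) * ε ^ 2 ≤ K := by
    calc ((bad W D ε X).card : ℝ) * ε ^ 2 = ∑ _d ∈ bad W D ε X, ε ^ 2 := by
          rw [Finset.sum_const, nsmul_eq_mul]
      _ ≤ ∑ d ∈ bad W D ε X, SX W d X ^ 2 := by
          refine Finset.sum_le_sum fun d hd => ?_
          have h3 := (Finset.mem_filter.1 hd).2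
          rw [← sq_abs (SX W d X)]
          exact pow_le_pow_left₀ hε.le h3.le 2
      _ ≤ ∑ d ∈ Sq D, SX W d X ^ 2 :=
          Finset.sum_le_sum_of_subset_of_nonneg (Finset.filter_subset _ _) fun _ _ _ => sq_nonneg _
      _ ≤ K := h1
  have h3 : ((bad W D ε X).card : ℝ) ≤ K / ε ^ 2 := by
    rw [le_div_iff₀ (by positivity)]
    exact h2
  have h4 : K / ε ^ 2 ≤ |K| / ε ^ 2 := div_le_div_of_nonneg_right (le_abs_self K) (by positivity)
  linarith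

/-- the union over the grid, range `N^4 ≤ X ≤ Y` -/
def SxgStmt : Prop := ∀ C ε : ℝ, 0 < C → 0 < ε → ∃ (K : ℝ) (N₀ : ℕ), 0 < K ∧ ∀ N : ℕ, N₀ ≤ N → ∀ W : ℕ → ℝ, Bd W C →
  ∀ Y : ℝ, 1 ≤ Y → (((Sq N).filter (fun d : ℤ => ∃ X : ℝ, (N : ℝ) ^ 4 ≤ X ∧ X ≤ Y ∧
    ε < |SX W d X|)).card : ℝ) ≤ K * Real.log Y

theorem tSxg (h1 : SxbStmt) (h4 : LipStmt) : SxgStmt := by
  intro C ε hC hε
  obtain ⟨h, X₀, hh0, hh1, hX₀, hlip⟩ := h4 C (ε / 2) hC (by positivity)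
  obtain ⟨K, hK0, hK⟩ := h1 C (ε / 2) hC (by positivity)
  have hq : 1 < 1 + h := by linarith
  have hlq : 0 < Real.log (1 + h) := Real.log_pos hq
  obtain ⟨M, hM⟩ := exists_nat_ge X₀
  refine ⟨(1 / Real.log (1 + h) + 1) * K, max 3 M, by positivity, fun N hN W hW Y hY => ?_⟩
  have hN3 : (3 : ℝ) ≤ N := by exact_mod_cast le_trans (le_max_left _ _) hN
  have hNM : X₀ ≤ N := hM.trans (by exact_mod_cast le_trans (le_max_right _ _) hN)
  have hN0 : (0 : ℝ) < N := by linarith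
  obtain ⟨l, hl⟩ : ∃ l : ℝ, l = (N : ℝ) ^ 4 := ⟨_, rfl⟩
  have hlN : (N : ℝ) ≤ l := by
    rw [hl]
    exact le_self_pow₀ (by linarith) (by norm_num)
  have hl0 : 0 < l := by linarith
  have hl1 : 1 ≤ l := by linarith
  rw [← hl]
  by_cases hYl : Y < l
  · have : (Sq N).filter (fun d : ℤ => ∃ X : ℝ, l ≤ X ∧ X ≤ Y ∧ ε < |SX W d X|) = ∅ := by
      refine Finset.filter_eq_empty_iff.2 ?_
      rintro d _ ⟨X, hX1, hX2, _⟩
      linarith
    rw [this, Finset.card_empty, Nat.cast_zero]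
    have := Real.log_nonneg hY
    positivity
  · rw [not_lt] at hYl
    have hY0 : 0 < Y := by linarith
    have hlY : 1 ≤ Real.log Y := by
      rw [Real.le_log_iff_exp_le hY0]
      have := Real.exp_one_lt_d9
      linarith
    obtain ⟨J, hJ⟩ : ∃ J : ℕ, J = ⌊Real.log Y / Real.log (1 + h)⌋₊ := ⟨_, rfl⟩
    have hsub : (Sq N).filter (fun d : ℤ => ∃ X : ℝ, l ≤ X ∧ X ≤ Y ∧ ε < |SX W d X|) ⊆
        (Finset.range (J + 1)).biUnion (fun j => bad W N (ε / 2) (l * (1 + h) ^ j)) := by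
      intro d hd
      obtain ⟨hd1, X, hX1, hX2, hX3⟩ := Finset.mem_filter.1 hd
      have hX0 : 0 < X := by linarith
      obtain ⟨j, hj1, hj2⟩ := exists_nat_pow_near (x := X / l) (y := 1 + h)
        ((one_le_div hl0).2 hX1) hq
      have hj1' : l * (1 + h) ^ j ≤ X := by
        rw [le_div_iff₀ hl0] at hj1
        linarith
      have hj2' : X ≤ (1 + h) * (l * (1 + h) ^ j) := by
        rw [div_lt_iff₀ hl0, pow_succ] at hj2
        linarith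
      have hlow : l ≤ l * (1 + h) ^ j := le_mul_of_one_le_right hl0.le (one_le_pow₀ hq.le)
      refine Finset.mem_biUnion.2 ⟨j, ?_, ?_⟩
      · rw [Finset.mem_range, Nat.lt_succ_iff, hJ]
        refine Nat.le_floor ?_
        rw [le_div_iff₀ hlq, ← Real.log_pow]
        refine Real.log_le_log (by positivity) ?_
        have : (1 + h) ^ j ≤ l * (1 + h) ^ j := le_mul_of_one_le_left (by positivity) hl1
        linarith
      · refine Finset.mem_filter.2 ⟨hd1, ?_⟩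
        have h5 := hlip W hW d (l * (1 + h) ^ j) X (by linarith) hj1' hj2'
        have h6 : |SX W d X| ≤ |SX W d X - SX W d (l * (1 + h) ^ j)| +
            |SX W d (l * (1 + h) ^ j)| := by
          have := abs_add_le (SX W d X - SX W d (l * (1 + h) ^ j)) (SX W d (l * (1 + h) ^ j))
          rwa [sub_add_cancel] at this
        linarith
    have hone : ∀ j ∈ Finset.range (J + 1), ((bad W N (ε / 2) (l * (1 + h) ^ j)).card : ℝ) ≤ K := by
      intro j _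
      have hlow : l ≤ l * (1 + h) ^ j := le_mul_of_one_le_right hl0.le (one_le_pow₀ hq.le)
      exact hK W hW _ (by linarith) N (by rw [← hl]; exact hlow)
    have hcard : (((Sq N).filter (fun d : ℤ => ∃ X : ℝ, l ≤ X ∧ X ≤ Y ∧ ε < |SX W d X|)).card : ℝ) ≤
        ∑ j ∈ Finset.range (J + 1), ((bad W N (ε / 2) (l * (1 + h) ^ j)).card : ℝ) := by
      have := (Finset.card_le_card hsub).trans Finset.card_biUnion_le
      exact_mod_cast this
    refine (hcard.trans (Finset.sum_le_sum hone)).trans ?_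
    rw [Finset.sum_const, Finset.card_range, nsmul_eq_mul]
    have hJR : ((J + 1 : ℕ) : ℝ) ≤ (1 / Real.log (1 + h) + 1) * Real.log Y := by
      have h5 : (J : ℝ) ≤ Real.log Y / Real.log (1 + h) := by
        rw [hJ]
        exact Nat.floor_le (by positivity)
      push_cast
      have h6 : (1 / Real.log (1 + h) + 1) * Real.log Y = Real.log Y / Real.log (1 + h) + Real.log Y := by ring
      rw [h6]
      linarith
    calc ((J + 1 : ℕ) : ℝ) * K ≤ (1 / Real.log (1 + h) + 1) * Real.log Y * K :=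
          mul_le_mul_of_nonneg_right hJR hK0.le
      _ = _ := by ring

private theorem Sxa_ev (θ θ₁ : ℝ) (hθ : 0 < θ) (h1 : θ₁ < θ) : ∃ N₀ : ℕ, ∀ N : ℕ, N₀ ≤ N →
    1 ≤ N ∧ 4 * Real.log N ≤ (N : ℝ) ^ (θ / 2 * (θ / 2)) ∧ 4 ≤ (N : ℝ) ^ (θ - θ₁) := by
  have a3 := (tendsto_natCast_atTop_atTop (R := ℝ)).eventually
    ((isLittleO_log_rpow_atTop (show 0 < θ / 2 * (θ / 2) by positivity)).bound (show (0 : ℝ) < 1 / 4 by norm_num))
  have a4 := (tendsto_natCast_atTop_atTop (R := ℝ)).eventually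
    ((tendsto_rpow_atTop (show 0 < θ - θ₁ by linarith)).eventually_ge_atTop 4)
  obtain ⟨D₀, h⟩ := Filter.eventually_atTop.1 ((a3.and a4).and (Filter.eventually_ge_atTop 1))
  refine ⟨D₀, fun D hD => ?_⟩
  obtain ⟨⟨b3, b4⟩, b5⟩ := h D hD
  refine ⟨b5, ?_, b4⟩
  have hD1 : (1 : ℝ) ≤ D := by exact_mod_cast b5
  have hl : 0 ≤ Real.log (D : ℝ) := Real.log_nonneg hD1
  rw [Real.norm_of_nonneg hl, Real.norm_of_nonneg (by positivity)] at b3
  linarith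

/-- low range: `(log |d|)^a ≤ X ≤ N^4` -/
def SxlStmt : Prop := ∀ C ε θ a : ℝ, 0 < C → 0 < ε → 0 < θ → θ ≤ 1 → 1 + 2 / θ < a → ∃ N₀ : ℕ, ∀ N : ℕ, N₀ ≤ N →
  ∀ W : ℕ → ℝ, Bd W C → (((Sq N).filter (fun d : ℤ => ∃ X : ℝ, Real.log |(d : ℝ)| ^ a ≤ X ∧ X ≤ (N : ℝ) ^ 4 ∧
    ε < |SX W d X|)).card : ℝ) ≤ (N : ℝ) ^ θ

theorem tSxl (hF : Fix2Stmt) : SxlStmt := by
  intro C ε θ a hC hε hθ hθ1 ha
  obtain ⟨θ₁, a₁, g1, g2, g3, g4⟩ := Fix2_exp (θ / 2) θ a (by positivity) (by linarith) ha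
  have hθ₁ : 0 < θ₁ := by linarith
  obtain ⟨N₁, H1⟩ := hF C ε (θ / 2) θ₁ a hC hε (by positivity) g1 (by linarith) (by linarith)
  obtain ⟨N₂, H2⟩ := Sxa_ev θ θ₁ hθ g2
  refine ⟨max N₁ N₂, fun N hN W hW => ?_⟩
  have e1 := H1 N (le_trans (le_max_left _ _) hN) W hW
  obtain ⟨b1, b2, b3⟩ := H2 N (le_trans (le_max_right _ _) hN)
  have hN1 : (1 : ℝ) ≤ N := by exact_mod_cast b1
  have hN0 : (0 : ℝ) < N := by linarith
  obtain ⟨m, hm⟩ : ∃ m : ℕ, m = ⌊(N : ℝ) ^ (θ / 2)⌋₊ := ⟨_, rfl⟩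
  have hsub : (Sq N).filter (fun d : ℤ => ∃ X : ℝ, Real.log |(d : ℝ)| ^ a ≤ X ∧ X ≤ (N : ℝ) ^ 4 ∧
      ε < |SX W d X|) ⊆ (Sq N).filter (fun d : ℤ => ∃ X : ℝ, Real.log |(d : ℝ)| ^ a ≤ X ∧
        X ≤ Real.exp (|(d : ℝ)| ^ (θ / 2)) ∧ ε < |SX W d X|) ∪ Finset.Icc (-(m : ℤ)) m := by
    intro d hd
    rw [Finset.mem_filter] at hd
    obtain ⟨hd1, X, hX1, hX2, hX3⟩ := hd
    rw [Finset.mem_union, Finset.mem_filter]
    by_cases hdm : d.natAbs ≤ m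
    · right
      rw [Finset.mem_Icc]
      omega
    · left
      rw [not_le] at hdm
      refine ⟨hd1, X, hX1, hX2.trans ?_, hX3⟩
      have h6 : |(d : ℝ)| = (d.natAbs : ℝ) := by
        rw [Nat.cast_natAbs]
        push_cast
        rfl
      have h7 : (N : ℝ) ^ (θ / 2) ≤ |(d : ℝ)| := by
        rw [h6]
        have h8 : (N : ℝ) ^ (θ / 2) < (m : ℝ) + 1 := by
          rw [hm]
          exact Nat.lt_floor_add_one _
        have h9 : ((m : ℝ) + 1) ≤ (d.natAbs : ℝ) := by exact_mod_cast hdm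
        linarith
      have h8 : (N : ℝ) ^ 4 = Real.exp (4 * Real.log N) := by
        have : (4 : ℝ) * Real.log N = ((4 : ℕ) : ℝ) * Real.log N := by norm_num
        rw [this, Real.exp_nat_mul, Real.exp_log hN0]
      rw [h8]
      refine Real.exp_le_exp.2 (b2.trans ?_)
      rw [Real.rpow_mul hN0.le]
      exact Real.rpow_le_rpow (by positivity) h7 (by positivity)
  have hc : ((Finset.Icc (-(m : ℤ)) m).card : ℝ) ≤ 2 * (N : ℝ) ^ (θ / 2) + 1 := by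
    rw [Int.card_Icc]
    have : ((m : ℤ) + 1 - -(m : ℤ)).toNat = 2 * m + 1 := by omega
    rw [this]
    push_cast
    have : (m : ℝ) ≤ (N : ℝ) ^ (θ / 2) := by
      rw [hm]
      exact Nat.floor_le (by positivity)
    linarith
  have c1 : (N : ℝ) ^ (θ / 2) ≤ (N : ℝ) ^ θ₁ := Real.rpow_le_rpow_of_exponent_le hN1 g1.le
  have c2 : 1 ≤ (N : ℝ) ^ θ₁ := Real.one_le_rpow hN1 hθ₁.le
  have c3 : (N : ℝ) ^ θ = (N : ℝ) ^ (θ - θ₁) * (N : ℝ) ^ θ₁ := by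
    rw [← Real.rpow_add hN0]
    congr 1
    ring
  calc (((Sq N).filter (fun d : ℤ => ∃ X : ℝ, Real.log |(d : ℝ)| ^ a ≤ X ∧ X ≤ (N : ℝ) ^ 4 ∧
      ε < |SX W d X|)).card : ℝ) ≤ (((Sq N).filter (fun d : ℤ => ∃ X : ℝ, Real.log |(d : ℝ)| ^ a ≤ X ∧
        X ≤ Real.exp (|(d : ℝ)| ^ (θ / 2)) ∧ ε < |SX W d X|)).card : ℝ) +
          ((Finset.Icc (-(m : ℤ)) m).card : ℝ) := by
        exact_mod_cast le_trans (Finset.card_le_card hsub) (Finset.card_union_le _ _)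
    _ ≤ 4 * (N : ℝ) ^ θ₁ := by linarith
    _ ≤ (N : ℝ) ^ (θ - θ₁) * (N : ℝ) ^ θ₁ := mul_le_mul_of_nonneg_right b3 (by positivity)
    _ = (N : ℝ) ^ θ := c3.symm

end Pool.Agent.Lib.NagA
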