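import Pool.Agent.Lib.MP_60fb2a_nt.S.Sxa
import Pool.Agent.Lib.MP_60fb2a_nt.An.Lab

/-!
MP_60fb2a_nt, directory S: at most `N^θ + K log log Y` exceptions for the logarithmic averages.
-/

set_option autoImplicit false

namespace Pool.Agent.Lib.NagA

open Polynomial Finset Classical

/-- the part `n ≥ Z` of the Abel sum -/
noncomputable def TT (W : ℕ → ℝ) (d : ℤ) (Z : ℕ) (X : ℝ) : ℝ :=
  ∑ n ∈ (Finset.Ico 1 ⌊X⌋₊).filter (fun n => Z ≤ n), SX W d (n : ℝ) / ((n : ℝ) + 1)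

/-- Abel summation in three parts. -/
theorem Sxm_lab (hC : ChbStmt) (C ε Y X : ℝ) (Z : ℕ) (W : ℕ → ℝ) (d : ℤ) (hC0 : 0 < C) (hε : 0 ≤ ε) (hY : 1 ≤ Y)
    (hYX : Y ≤ X) (hW : Bd W C) (hS : ∀ t : ℝ, Y ≤ t → t ≤ X → t ≤ Z → |SX W d t| ≤ ε) :
    |∑ p ∈ OP ⌊X⌋₊, W p * jc d p * (Real.log p / p)| ≤
      2 * C + 2 * C * (1 + Real.log Y) + ε * Real.log X + |TT W d Z X| := by
  have hY0 : 0 < Y := by linarith
  have hX0 : 0 < X := by linarith
  set N := ⌊X⌋₊ with hN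
  have hN1 : 1 ≤ N := Nat.le_floor (by rw [Nat.cast_one]; linarith)
  have hNX : (N : ℝ) ≤ X := Nat.floor_le hX0.le
  have e1 : ∑ p ∈ OP N, W p * jc d p * (Real.log p / p) =
      ∑ p ∈ (OP N).filter (fun p => 0 < p), (W p * jc d p * Real.log p) / p := by
    rw [Finset.filter_true_of_mem (fun p hp => (Finset.mem_filter.1 hp).2.1.pos)]
    refine Finset.sum_congr rfl fun p _ => ?_
    ring
  have h0 : ∑ p ∈ OP 0, W p * jc d p * Real.log p = 0 := by
    refine Finset.sum_eq_zero fun p hp => ?_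
    unfold OP at hp
    rw [Finset.mem_filter, Finset.mem_range] at hp
    have := hp.2.1.pos
    omega
  rw [e1, Mrt_abel (fun p => W p * jc d p * Real.log p) 0 N hN1, h0, zero_div, sub_zero, Lab_SX]
  have a1 : |SX W d (N : ℝ)| ≤ 2 * C := Lab_le hC W C hC0 hW d N hN1
  have e2 : ∑ n ∈ Finset.Ico (0 + 1) N, (∑ p ∈ OP n, W p * jc d p * Real.log p) / ((n : ℝ) * ((n : ℝ) + 1)) =
      ∑ n ∈ (Finset.Ico 1 N).filter (fun n => ¬ Z ≤ n), SX W d (n : ℝ) / ((n : ℝ) + 1) + TT W d Z X := by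
    unfold TT
    rw [← hN, add_comm (∑ n ∈ (Finset.Ico 1 N).filter (fun n => ¬ Z ≤ n), SX W d (n : ℝ) / ((n : ℝ) + 1)) _,
      Finset.sum_filter_add_sum_filter_not (Finset.Ico 1 N) (fun n => Z ≤ n)
        (fun n : ℕ => SX W d (n : ℝ) / ((n : ℝ) + 1))]
    refine Finset.sum_congr rfl fun n _ => ?_
    rw [← div_div, Lab_SX]
  rw [e2]
  have a2 : |∑ n ∈ (Finset.Ico 1 N).filter (fun n => ¬ Z ≤ n), SX W d (n : ℝ) / ((n : ℝ) + 1)| ≤
      2 * C * (1 + Real.log Y) + ε * Real.log X := by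
    refine le_trans (Finset.abs_sum_le_sum_abs _ _) ?_
    have b1 : ∀ n ∈ (Finset.Ico 1 N).filter (fun n => ¬ Z ≤ n), |SX W d (n : ℝ) / ((n : ℝ) + 1)| ≤
        2 * C * (if n < ⌊Y⌋₊ + 1 then 1 / ((n : ℝ) + 1) else 0) + ε * (1 / ((n : ℝ) + 1)) := by
      intro n hn
      rw [Finset.mem_filter, Finset.mem_Ico] at hn
      have hn1 : 1 ≤ n := by omega
      have hn0 : (0 : ℝ) < (n : ℝ) + 1 := by positivity
      rw [abs_div, abs_of_pos hn0]
      have hε' : 0 ≤ ε * (1 / ((n : ℝ) + 1)) := by positivity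
      split_ifs with h
      · have h2 := Lab_le hC W C hC0 hW d n hn1
        calc |SX W d (n : ℝ)| / ((n : ℝ) + 1) ≤ 2 * C / ((n : ℝ) + 1) :=
              div_le_div_of_nonneg_right h2 hn0.le
          _ ≤ 2 * C * (1 / ((n : ℝ) + 1)) + ε * (1 / ((n : ℝ) + 1)) := by
              have : 2 * C / ((n : ℝ) + 1) = 2 * C * (1 / ((n : ℝ) + 1)) := by ring
              linarith
      · have h2 : Y ≤ (n : ℝ) := by
          have h3 : ⌊Y⌋₊ + 1 ≤ n := by omega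
          have h4 : ((⌊Y⌋₊ : ℝ) + 1) ≤ n := by exact_mod_cast h3
          exact le_trans (Nat.lt_floor_add_one Y).le h4
        have h3 : (n : ℝ) ≤ X := le_trans (by exact_mod_cast hn.1.2.le) hNX
        have h5 : (n : ℝ) ≤ Z := by
          have : n ≤ Z := by omega
          exact_mod_cast this
        have h4 := hS n h2 h3 h5
        calc |SX W d (n : ℝ)| / ((n : ℝ) + 1) ≤ ε / ((n : ℝ) + 1) :=
              div_le_div_of_nonneg_right h4 hn0.le
          _ = 2 * C * 0 + ε * (1 / ((n : ℝ) + 1)) := by ring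
    refine le_trans (Finset.sum_le_sum b1) ?_
    rw [Finset.sum_add_distrib, ← Finset.mul_sum, ← Finset.mul_sum]
    have b2 : ∑ n ∈ (Finset.Ico 1 N).filter (fun n => ¬ Z ≤ n),
        (if n < ⌊Y⌋₊ + 1 then 1 / ((n : ℝ) + 1) else 0) ≤ 1 + Real.log Y := by
      rw [← Finset.sum_filter]
      calc ∑ n ∈ ((Finset.Ico 1 N).filter (fun n => ¬ Z ≤ n)).filter (fun n => n < ⌊Y⌋₊ + 1), 1 / ((n : ℝ) + 1) ≤
            ∑ n ∈ Finset.Ico 1 (⌊Y⌋₊ + 1), 1 / ((n : ℝ) + 1) := by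
            refine Finset.sum_le_sum_of_subset_of_nonneg ?_ (fun n _ _ => by positivity)
            intro n hn
            rw [Finset.mem_filter, Finset.mem_filter, Finset.mem_Ico] at hn
            rw [Finset.mem_Ico]
            omega
        _ ≤ Real.log ((⌊Y⌋₊ + 1 : ℕ) : ℝ) - Real.log ((1 : ℕ) : ℝ) := Mrt_harm 1 _ le_rfl (by omega)
        _ ≤ 1 + Real.log Y := by
            rw [Nat.cast_one, Real.log_one, sub_zero]
            have h5 : ((⌊Y⌋₊ + 1 : ℕ) : ℝ) ≤ 2 * Y := by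
              push_cast
              have := Nat.floor_le hY0.le
              linarith
            have h6 : Real.log ((⌊Y⌋₊ + 1 : ℕ) : ℝ) ≤ Real.log (2 * Y) :=
              Real.log_le_log (by positivity) h5
            rw [Real.log_mul (by norm_num) hY0.ne'] at h6
            have := Real.log_two_lt_d9
            linarith
    have b3 : ∑ n ∈ (Finset.Ico 1 N).filter (fun n => ¬ Z ≤ n), 1 / ((n : ℝ) + 1) ≤ Real.log X := by
      have h4 : ∑ n ∈ (Finset.Ico 1 N).filter (fun n => ¬ Z ≤ n), 1 / ((n : ℝ) + 1) ≤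
          ∑ n ∈ Finset.Ico 1 N, 1 / ((n : ℝ) + 1) :=
        Finset.sum_le_sum_of_subset_of_nonneg (Finset.filter_subset _ _) fun n _ _ => by positivity
      refine h4.trans (le_trans (Mrt_harm 1 N le_rfl hN1) ?_)
      have h5 : Real.log (N : ℝ) ≤ Real.log X := Real.log_le_log (by exact_mod_cast hN1) hNX
      simpa using h5
    have c1 := mul_le_mul_of_nonneg_left b2 (by positivity : 0 ≤ 2 * C)
    have c2 := mul_le_mul_of_nonneg_left b3 hε
    linarith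
  have a3 := abs_add_le (SX W d (N : ℝ)) (∑ n ∈ (Finset.Ico 1 N).filter (fun n => ¬ Z ≤ n),
    SX W d (n : ℝ) / ((n : ℝ) + 1) + TT W d Z X)
  have a4 := abs_add_le (∑ n ∈ (Finset.Ico 1 N).filter (fun n => ¬ Z ≤ n),
    SX W d (n : ℝ) / ((n : ℝ) + 1)) (TT W d Z X)
  linarith

/-- the mean square of the part `n ≥ N^4` -/
theorem Sxm_T (hM : MsqStmt) (C : ℝ) (hC : 0 < C) : ∃ K : ℝ, 0 < K ∧ ∀ W : ℕ → ℝ, Bd W C → ∀ N : ℕ, ∀ X : ℝ,
    1 ≤ X → ∑ d ∈ Sq N, TT W d (N ^ 4) X ^ 2 ≤ K * Real.log X ^ 2 := by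
  obtain ⟨K, hK⟩ := hM C (1 / 12) hC (by norm_num) (by norm_num)
  refine ⟨|K| + 1, by positivity, fun W hW N X hX => ?_⟩
  have hX0 : 0 < X := by linarith
  set T := (Finset.Ico 1 ⌊X⌋₊).filter (fun n => N ^ 4 ≤ n) with hT
  have hlog : ∑ n ∈ T, 1 / ((n : ℝ) + 1) ≤ Real.log X := by
    have h4 : ∑ n ∈ T, 1 / ((n : ℝ) + 1) ≤ ∑ n ∈ Finset.Ico 1 ⌊X⌋₊, 1 / ((n : ℝ) + 1) :=
      Finset.sum_le_sum_of_subset_of_nonneg (Finset.filter_subset _ _) fun n _ _ => by positivity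
    have hN1 : 1 ≤ ⌊X⌋₊ := Nat.le_floor (by rw [Nat.cast_one]; linarith)
    refine h4.trans (le_trans (Mrt_harm 1 ⌊X⌋₊ le_rfl hN1) ?_)
    have h5 : Real.log (⌊X⌋₊ : ℝ) ≤ Real.log X :=
      Real.log_le_log (by exact_mod_cast hN1) (Nat.floor_le hX0.le)
    simpa using h5
  have hlog0 : 0 ≤ ∑ n ∈ T, 1 / ((n : ℝ) + 1) := Finset.sum_nonneg fun n _ => by positivity
  have h1 : ∀ d ∈ Sq N, TT W d (N ^ 4) X ^ 2 ≤
      (∑ n ∈ T, 1 / ((n : ℝ) + 1)) * ∑ n ∈ T, 1 / ((n : ℝ) + 1) * SX W d (n : ℝ) ^ 2 := by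
    intro d _
    have h2 : TT W d (N ^ 4) X = ∑ n ∈ T, Real.sqrt (1 / ((n : ℝ) + 1)) * (Real.sqrt (1 / ((n : ℝ) + 1)) * SX W d (n : ℝ)) := by
      unfold TT
      refine Finset.sum_congr rfl fun n _ => ?_
      rw [← mul_assoc, Real.mul_self_sqrt (by positivity)]
      ring
    rw [h2]
    refine (Finset.sum_mul_sq_le_sq_mul_sq T _ _).trans (le_of_eq ?_)
    congr 1
    · refine Finset.sum_congr rfl fun n _ => ?_
      rw [Real.sq_sqrt (by positivity)]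
    · refine Finset.sum_congr rfl fun n _ => ?_
      rw [mul_pow, Real.sq_sqrt (by positivity)]
  have h3 : ∀ n ∈ T, ∑ d ∈ Sq N, SX W d (n : ℝ) ^ 2 ≤ |K| + 1 := by
    intro n hn
    rw [hT, Finset.mem_filter, Finset.mem_Ico] at hn
    have h4 : (N : ℝ) ≤ (n : ℝ) ^ (1 / 3 - 1 / 12 : ℝ) := by
      have h1 : (1 / 3 - 1 / 12 : ℝ) = 1 / 4 := by norm_num
      rw [h1]
      calc (N : ℝ) = ((N : ℝ) ^ 4) ^ (1 / 4 : ℝ) := by
            rw [← Real.rpow_natCast, ← Real.rpow_mul (Nat.cast_nonneg _)]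
            norm_num
        _ ≤ (n : ℝ) ^ (1 / 4 : ℝ) := Real.rpow_le_rpow (by positivity) (by exact_mod_cast hn.2) (by norm_num)
    have h5 := hK W hW (n : ℝ) (by exact_mod_cast hn.1.1) N h4
    have := le_abs_self K
    linarith
  calc ∑ d ∈ Sq N, TT W d (N ^ 4) X ^ 2 ≤ ∑ d ∈ Sq N,
        (∑ n ∈ T, 1 / ((n : ℝ) + 1)) * ∑ n ∈ T, 1 / ((n : ℝ) + 1) * SX W d (n : ℝ) ^ 2 :=
        Finset.sum_le_sum h1
    _ = (∑ n ∈ T, 1 / ((n : ℝ) + 1)) * ∑ n ∈ T, 1 / ((n : ℝ) + 1) * ∑ d ∈ Sq N, SX W d (n : ℝ) ^ 2 := by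
        rw [← Finset.mul_sum, Finset.sum_comm]
        congr 1
        refine Finset.sum_congr rfl fun n _ => ?_
        rw [Finset.mul_sum]
    _ ≤ (∑ n ∈ T, 1 / ((n : ℝ) + 1)) * ∑ n ∈ T, 1 / ((n : ℝ) + 1) * (|K| + 1) := by
        refine mul_le_mul_of_nonneg_left ?_ hlog0
        exact Finset.sum_le_sum fun n hn => mul_le_mul_of_nonneg_left (h3 n hn) (by positivity)
    _ = (|K| + 1) * (∑ n ∈ T, 1 / ((n : ℝ) + 1)) ^ 2 := by
        rw [← Finset.sum_mul]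
        ring
    _ ≤ (|K| + 1) * Real.log X ^ 2 :=
        mul_le_mul_of_nonneg_left (pow_le_pow_left₀ hlog0 hlog 2) (by positivity)

/-- the estimate at one scale -/
theorem Sxm_est (hC : ChbStmt) (C ε θ a l₀ : ℝ) (hC0 : 0 < C) (hε : 0 < ε) (ha0 : 0 < a)
    (hl₀ : l₀ = max 1 (max (2 * a) ((4 * C + 2 * C * a) * 8 / ε))) (N m : ℕ) (hN0 : (0 : ℝ) < N)
    (hm : m = ⌊(N : ℝ) ^ (θ / 2)⌋₊) (b2 : l₀ ≤ Real.log (Real.log ((N : ℝ) ^ (θ / 2))))
    (b3 : 0 < Real.log ((N : ℝ) ^ (θ / 2))) (W : ℕ → ℝ) (hW : Bd W C) (d : ℤ) (hdm : ¬ d.natAbs ≤ m)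
    (hF : ¬ ∃ t : ℝ, Real.log |(d : ℝ)| ^ a ≤ t ∧ t ≤ (N : ℝ) ^ 4 ∧ ε / 8 < |SX W d t|) (X : ℝ)
    (hX : Real.log (Real.log |(d : ℝ)|) ^ 2 ≤ Real.log X) (hX1 : 1 ≤ X) :
    |SL W d X| ≤ ε / 4 + |TT W d (N ^ 4) X| / Real.log X := by
  have hX0 : 0 < X := by linarith
  have h6 : |(d : ℝ)| = (d.natAbs : ℝ) := by
    rw [Nat.cast_natAbs]
    push_cast
    rfl
  have h7 : (N : ℝ) ^ (θ / 2) ≤ |(d : ℝ)| := by
    rw [h6]
    have h8 : (N : ℝ) ^ (θ / 2) < (m : ℝ) + 1 := by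
      rw [hm]
      exact Nat.lt_floor_add_one _
    have h9 : ((m : ℝ) + 1) ≤ (d.natAbs : ℝ) := by
      have : m + 1 ≤ d.natAbs := by omega
      exact_mod_cast this
    linarith
  have h8 : Real.log ((N : ℝ) ^ (θ / 2)) ≤ Real.log |(d : ℝ)| := Real.log_le_log (by positivity) h7
  obtain ⟨l, hl⟩ : ∃ l : ℝ, l = Real.log (Real.log |(d : ℝ)|) := ⟨_, rfl⟩
  have h9 : l₀ ≤ l := by
    rw [hl]
    exact b2.trans (Real.log_le_log b3 h8)
  have hlogd : 0 < Real.log |(d : ℝ)| := by linarith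
  rw [← hl] at hX
  have hl1 : 1 ≤ l := le_trans (by rw [hl₀]; exact le_max_left _ _) h9
  have hl2 : 2 * a ≤ l := le_trans (by rw [hl₀]; exact le_trans (le_max_left _ _) (le_max_right _ _)) h9
  have hl3 : (4 * C + 2 * C * a) * 8 ≤ l * ε := by
    have h10 : (4 * C + 2 * C * a) * 8 / ε ≤ l :=
      le_trans (by rw [hl₀]; exact le_trans (le_max_right _ _) (le_max_right _ _)) h9
    rwa [div_le_iff₀ hε] at h10
  have hlX0 : 0 < Real.log X := lt_of_lt_of_le (by positivity) hX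
  have hY0 : Real.log |(d : ℝ)| ^ a = Real.exp (a * l) := by
    rw [Real.rpow_def_of_pos hlogd, ← hl, mul_comm]
  have hY1 : 1 ≤ Real.log |(d : ℝ)| ^ a := by
    rw [hY0]
    exact Real.one_le_exp (by positivity)
  have hYX : Real.log |(d : ℝ)| ^ a ≤ X := by
    rw [hY0, ← Real.le_log_iff_exp_le hX0]
    have e1 : a * l ≤ l * l := mul_le_mul_of_nonneg_right (by linarith) (by linarith)
    have e2 : l * l = l ^ 2 := by ring
    linarith
  have h10 := Sxm_lab hC C (ε / 8) (Real.log |(d : ℝ)| ^ a) X (N ^ 4) W d hC0 (by positivity) hY1 hYX hW (by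
    intro t ht1 _ ht3
    by_contra hcon
    rw [not_le] at hcon
    exact hF ⟨t, ht1, by exact_mod_cast ht3, hcon⟩)
  rw [Real.log_rpow hlogd, ← hl] at h10
  have h11 : 2 * C + 2 * C * (1 + a * l) ≤ ε / 8 * Real.log X := by
    have h12 : (4 * C + 2 * C * a) * 8 * l ≤ l * ε * l := mul_le_mul_of_nonneg_right hl3 (by linarith)
    have h13 : ε * l ^ 2 ≤ ε * Real.log X := mul_le_mul_of_nonneg_left hX hε.le
    have h14 : C * 1 ≤ C * l := mul_le_mul_of_nonneg_left hl1 hC0.le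
    have h15 : (4 * C + 2 * C * a) * 8 * l = 32 * (C * l) + 16 * (C * a * l) := by ring
    have h16 : l * ε * l = ε * l ^ 2 := by ring
    have h17 : 2 * C * (1 + a * l) = 2 * C + 2 * (C * a * l) := by ring
    rw [h17]
    rw [h15, h16] at h12
    linarith
  unfold SL
  rw [abs_mul, abs_of_pos (by positivity : 0 < 1 / Real.log X)]
  calc 1 / Real.log X * |∑ p ∈ OP ⌊X⌋₊, W p * jc d p * (Real.log p / p)| ≤
        1 / Real.log X * (ε / 4 * Real.log X + |TT W d (N ^ 4) X|) := by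
        refine mul_le_mul_of_nonneg_left ?_ (by positivity)
        linarith
    _ = ε / 4 + |TT W d (N ^ 4) X| / Real.log X := by
        field_simp

/-- the count at one scale -/
theorem Sxm_one (K ε : ℝ) (hε : 0 < ε) (W : ℕ → ℝ) (N : ℕ) (X : ℝ) (hlX : 0 < Real.log X)
    (h5 : ∑ d ∈ Sq N, TT W d (N ^ 4) X ^ 2 ≤ K * Real.log X ^ 2) :
    (((Sq N).filter (fun d : ℤ => ε / 8 * Real.log X ≤ |TT W d (N ^ 4) X|)).card : ℝ) ≤ K * 64 / ε ^ 2 := by
  have h6 : (((Sq N).filter (fun d : ℤ => ε / 8 * Real.log X ≤ |TT W d (N ^ 4) X|)).card : ℝ) *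
      (ε / 8 * Real.log X) ^ 2 ≤ K * Real.log X ^ 2 := by
    calc (((Sq N).filter (fun d : ℤ => ε / 8 * Real.log X ≤ |TT W d (N ^ 4) X|)).card : ℝ) *
        (ε / 8 * Real.log X) ^ 2 =
        ∑ _d ∈ (Sq N).filter (fun d : ℤ => ε / 8 * Real.log X ≤ |TT W d (N ^ 4) X|),
          (ε / 8 * Real.log X) ^ 2 := by
          rw [Finset.sum_const, nsmul_eq_mul]
      _ ≤ ∑ d ∈ (Sq N).filter (fun d : ℤ => ε / 8 * Real.log X ≤ |TT W d (N ^ 4) X|),
          TT W d (N ^ 4) X ^ 2 := by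
          refine Finset.sum_le_sum fun d hd => ?_
          have h7 := (Finset.mem_filter.1 hd).2
          rw [← sq_abs (TT W d (N ^ 4) X)]
          exact pow_le_pow_left₀ (by positivity) h7 2
      _ ≤ ∑ d ∈ Sq N, TT W d (N ^ 4) X ^ 2 :=
          Finset.sum_le_sum_of_subset_of_nonneg (Finset.filter_subset _ _) fun _ _ _ => sq_nonneg _
      _ ≤ K * Real.log X ^ 2 := h5
  rw [le_div_iff₀ (by positivity)]
  have h8 : (((Sq N).filter (fun d : ℤ => ε / 8 * Real.log X ≤ |TT W d (N ^ 4) X|)).card : ℝ) *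
      (ε ^ 2 / 64) * Real.log X ^ 2 ≤ K * Real.log X ^ 2 := by
    refine le_trans (le_of_eq ?_) h6
    ring
  have h9 := le_of_mul_le_mul_right h8 (by positivity)
  linarith

private theorem Sxm_ev (θ θ₁ l₀ : ℝ) (hθ : 0 < θ) (h1 : θ₁ < θ) : ∃ N₀ : ℕ, ∀ N : ℕ, N₀ ≤ N →
    3 ≤ N ∧ l₀ ≤ Real.log (Real.log ((N : ℝ) ^ (θ / 2))) ∧ 0 < Real.log ((N : ℝ) ^ (θ / 2)) ∧
      Real.log (Real.log N) ^ 2 ≤ 4 * Real.log N ∧ 4 ≤ (N : ℝ) ^ (θ - θ₁) := by
  have hpow : Filter.Tendsto (fun N : ℕ => (N : ℝ) ^ (θ / 2)) Filter.atTop Filter.atTop :=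
    (tendsto_rpow_atTop (show 0 < θ / 2 by positivity)).comp tendsto_natCast_atTop_atTop
  have hl1 := Real.tendsto_log_atTop.comp hpow
  have hl2 := Real.tendsto_log_atTop.comp hl1
  have hlog : Filter.Tendsto (fun N : ℕ => Real.log N) Filter.atTop Filter.atTop :=
    Real.tendsto_log_atTop.comp tendsto_natCast_atTop_atTop
  have a1 := hl2.eventually_ge_atTop l₀
  have a2 := hl1.eventually_gt_atTop 0
  have a3 := hlog.eventually (Real.isLittleO_pow_log_id_atTop (n := 2) |>.bound (show (0 : ℝ) < 4 by norm_num))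
  have a4 := (tendsto_natCast_atTop_atTop (R := ℝ)).eventually
    ((tendsto_rpow_atTop (show 0 < θ - θ₁ by linarith)).eventually_ge_atTop 4)
  have a5 := hlog.eventually_ge_atTop 0
  obtain ⟨D₀, h⟩ := Filter.eventually_atTop.1 (((((a1.and a2).and a3).and a4).and a5).and
    (Filter.eventually_ge_atTop 3))
  refine ⟨D₀, fun D hD => ?_⟩
  obtain ⟨⟨⟨⟨⟨b1, b2⟩, b3⟩, b4⟩, b5⟩, b6⟩ := h D hD
  refine ⟨b6, b1, b2, ?_, b4⟩
  simp only [id] at b3
  rw [Real.norm_of_nonneg (by positivity), Real.norm_of_nonneg b5] at b3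
  exact b3

/-- logarithmic averages, range `exp((log log |d|)^2) ≤ X ≤ Y` -/
def SxmStmt : Prop := ∀ C ε : ℝ, 0 < C → 0 < ε → ∃ K : ℝ, 0 < K ∧ ∀ θ : ℝ, 0 < θ → θ ≤ 1 → ∃ N₀ : ℕ, ∀ N : ℕ, N₀ ≤ N →
  ∀ W : ℕ → ℝ, Bd W C → ∀ Y : ℝ, 3 ≤ Y → (((Sq N).filter (fun d : ℤ => ∃ X : ℝ,
    Real.exp (Real.log (Real.log |(d : ℝ)|) ^ 2) ≤ X ∧ X ≤ Y ∧
    ε < |SL W d X|)).card : ℝ) ≤ (N : ℝ) ^ θ + K * Real.log (Real.log Y)

theorem tSxm (hC : ChbStmt) (hM : MsqStmt) (hL : SxlStmt) (hG : LglStmt) : SxmStmt := by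
  intro C ε hC0 hε
  obtain ⟨K, hK0, hK⟩ := Sxm_T hM C hC0
  obtain ⟨h, X₀, hh0, hh1, hX₀, hlip⟩ := hG C (ε / 2) hC0 (by positivity)
  have hq : 1 < 1 + h := by linarith
  have hlq : 0 < Real.log (1 + h) := Real.log_pos hq
  obtain ⟨M, hMX⟩ := exists_nat_ge X₀
  obtain ⟨KK, hKK⟩ : ∃ KK : ℝ, KK = K * 64 / ε ^ 2 + 1 := ⟨_, rfl⟩
  have hKK0 : 0 < KK := by rw [hKK]; positivity
  refine ⟨(1 / Real.log (1 + h) + 1) * KK * 20, by positivity, ?_⟩
  intro θ hθ hθ1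
  obtain ⟨θ₁, g1, g2⟩ : ∃ θ₁ : ℝ, θ / 2 < θ₁ ∧ θ₁ < θ := exists_between (by linarith)
  have hθ₁ : 0 < θ₁ := by linarith
  obtain ⟨a, ha⟩ : ∃ a : ℝ, a = 2 + 2 / θ₁ := ⟨_, rfl⟩
  have ha0 : 0 < a := by rw [ha]; positivity
  have ha1 : 1 + 2 / θ₁ < a := by rw [ha]; linarith
  obtain ⟨N₁, H1⟩ := hL C (ε / 8) θ₁ a hC0 (by positivity) hθ₁ (by linarith) ha1
  obtain ⟨l₀, hl₀⟩ : ∃ l₀ : ℝ, l₀ = max 1 (max (2 * a) ((4 * C + 2 * C * a) * 8 / ε)) := ⟨_, rfl⟩
  obtain ⟨N₂, H2⟩ := Sxm_ev θ θ₁ l₀ hθ g2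
  refine ⟨max (max N₁ N₂) M, ?_⟩
  intro N hN W hW Y hY
  have e1 := H1 N (le_trans (le_trans (le_max_left _ _) (le_max_left _ _)) hN) W hW
  obtain ⟨b1, b2, b3, b4, b5⟩ := H2 N (le_trans (le_trans (le_max_right _ _) (le_max_left _ _)) hN)
  have hNX₀ : X₀ ≤ N := hMX.trans (by exact_mod_cast le_trans (le_max_right _ _) hN)
  have hN3 : (3 : ℝ) ≤ N := by exact_mod_cast b1
  have hN0 : (0 : ℝ) < N := by linarith
  have hN1 : (1 : ℝ) ≤ N := by linarith
  have hlN : 1 ≤ Real.log N := by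
    rw [Real.le_log_iff_exp_le hN0]
    have := Real.exp_one_lt_d9
    linarith
  have hlY : 1 ≤ Real.log Y := by
    rw [Real.le_log_iff_exp_le (by linarith)]
    have := Real.exp_one_lt_d9
    linarith
  have hllY : 1 / 20 ≤ Real.log (Real.log Y) := by
    have h5 : (1.0986 : ℝ) ≤ Real.log 3 := by
      have := Real.log_three_gt_d9
      linarith
    have h6 : Real.log 3 ≤ Real.log Y := Real.log_le_log (by norm_num) hY
    have h7 : 1 - (Real.log Y)⁻¹ ≤ Real.log (Real.log Y) := Real.one_sub_inv_le_log_of_pos (by linarith)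
    have h8 : (Real.log Y)⁻¹ ≤ 1 / 1.0986 := by
      rw [inv_eq_one_div]
      exact one_div_le_one_div_of_le (by norm_num) (by linarith)
    have h9 : (1 : ℝ) / 1.0986 ≤ 1 - 1 / 20 := by norm_num
    linarith
  obtain ⟨m, hm⟩ : ∃ m : ℕ, m = ⌊(N : ℝ) ^ (θ / 2)⌋₊ := ⟨_, rfl⟩
  obtain ⟨J, hJ⟩ : ∃ J : ℕ, J = ⌊Real.log (Real.log Y) / Real.log (1 + h)⌋₊ := ⟨_, rfl⟩
  let G : ℕ → ℝ := fun j => Real.exp (4 * Real.log N * (1 + h) ^ j)
  have hNG : ∀ j, (N : ℝ) ^ 4 ≤ G j := by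
    intro j
    have h8 : (N : ℝ) ^ 4 = Real.exp (4 * Real.log N) := by
      have : (4 : ℝ) * Real.log N = ((4 : ℕ) : ℝ) * Real.log N := by norm_num
      rw [this, Real.exp_nat_mul, Real.exp_log hN0]
    rw [h8]
    refine Real.exp_le_exp.2 ?_
    have : (1 : ℝ) ≤ (1 + h) ^ j := one_le_pow₀ hq.le
    nlinarith
  have hNle4 : (N : ℝ) ≤ (N : ℝ) ^ 4 := le_self_pow₀ hN1 (by norm_num)
  -- the estimate at one scale
  have hest : ∀ d ∈ Sq N, ¬ d.natAbs ≤ m → (¬ ∃ t : ℝ, Real.log |(d : ℝ)| ^ a ≤ t ∧ t ≤ (N : ℝ) ^ 4 ∧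
      ε / 8 < |SX W d t|) → ∀ X : ℝ, Real.log (Real.log |(d : ℝ)|) ^ 2 ≤ Real.log X → 1 ≤ X →
      |SL W d X| ≤ ε / 4 + |TT W d (N ^ 4) X| / Real.log X := fun d _ hdm hF X hX hX1 =>
    Sxm_est hC C ε θ a l₀ hC0 hε ha0 hl₀ N m hN0 hm b2 b3 W hW d hdm hF X hX hX1
  have hsub : (Sq N).filter (fun d : ℤ => ∃ X : ℝ, Real.exp (Real.log (Real.log |(d : ℝ)|) ^ 2) ≤ X ∧ X ≤ Y ∧
      ε < |SL W d X|) ⊆ ((Sq N).filter (fun d : ℤ => ∃ t : ℝ, Real.log |(d : ℝ)| ^ a ≤ t ∧ t ≤ (N : ℝ) ^ 4 ∧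
      ε / 8 < |SX W d t|) ∪ Finset.Icc (-(m : ℤ)) m) ∪ (Finset.range (J + 1)).biUnion (fun j =>
        (Sq N).filter (fun d : ℤ => ε / 8 * Real.log (G j) ≤ |TT W d (N ^ 4) (G j)|)) := by
    intro d hd
    rw [Finset.mem_filter] at hd
    obtain ⟨hd1, X, hX1, hX2, hX3⟩ := hd
    rw [Finset.mem_union, Finset.mem_union, Finset.mem_filter]
    by_cases hF : ∃ t : ℝ, Real.log |(d : ℝ)| ^ a ≤ t ∧ t ≤ (N : ℝ) ^ 4 ∧ ε / 8 < |SX W d t|
    · exact Or.inl (Or.inl ⟨hd1, hF⟩)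
    by_cases hdm : d.natAbs ≤ m
    · left
      right
      rw [Finset.mem_Icc]
      omega
    right
    have hX0 : 0 < X := lt_of_lt_of_le (Real.exp_pos _) hX1
    have hlX : Real.log (Real.log |(d : ℝ)|) ^ 2 ≤ Real.log X := by
      rw [Real.le_log_iff_exp_le hX0]
      exact hX1
    have hX1' : 1 ≤ X := le_trans (Real.one_le_exp (sq_nonneg _)) hX1
    by_cases hX4 : X ≤ (N : ℝ) ^ 4
    · exfalso
      have h5 := hest d hd1 hdm hF X hlX hX1'
      have h6 : TT W d (N ^ 4) X = 0 := by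
        unfold TT
        have : (Finset.Ico 1 ⌊X⌋₊).filter (fun n => N ^ 4 ≤ n) = ∅ := by
          refine Finset.filter_eq_empty_iff.2 fun n hn hn2 => ?_
          rw [Finset.mem_Ico] at hn
          have h7 : (⌊X⌋₊ : ℝ) ≤ X := Nat.floor_le hX0.le
          have h8 : (⌊X⌋₊ : ℝ) ≤ ((N ^ 4 : ℕ) : ℝ) := by
            push_cast
            linarith
          have h9 : ⌊X⌋₊ ≤ N ^ 4 := by exact_mod_cast h8
          omega
        rw [this, Finset.sum_empty]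
      rw [h6, abs_zero, zero_div, add_zero] at h5
      linarith
    · rw [not_le] at hX4
      have l1 : 4 * Real.log N ≤ Real.log X := by
        have h5 := Real.log_le_log (by positivity) hX4.le
        rw [Real.log_pow] at h5
        push_cast at h5
        exact h5
      have l2 : Real.log X ≤ Real.log Y := Real.log_le_log hX0 hX2
      have hpos : 0 < 4 * Real.log N := by linarith
      have hqq : 1 ≤ Real.log X / (4 * Real.log N) := by
        rw [le_div_iff₀ hpos, one_mul]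
        exact l1
      obtain ⟨j, hj1, hj2⟩ := exists_nat_pow_near hqq hq
      rw [le_div_iff₀ hpos] at hj1
      rw [div_lt_iff₀ hpos] at hj2
      have hjJ : j < J + 1 := by
        rw [Nat.lt_succ_iff, hJ]
        apply Nat.le_floor
        rw [le_div_iff₀ hlq]
        have h3 : (1 + h) ^ j ≤ Real.log Y := by
          have h4 : (0 : ℝ) < (1 + h) ^ j := by positivity
          nlinarith
        have h5 := Real.log_le_log (by positivity) h3
        rw [Real.log_pow] at h5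
        exact h5
      have g3 : G j ≤ X := by
        change Real.exp _ ≤ X
        rw [← Real.le_log_iff_exp_le hX0]
        linarith
      have g4 : X ≤ G j ^ (1 + h) := by
        change X ≤ Real.exp _ ^ (1 + h)
        rw [← Real.exp_mul, ← Real.log_le_iff_le_exp hX0]
        have e : 4 * Real.log N * (1 + h) ^ j * (1 + h) = (1 + h) ^ (j + 1) * (4 * Real.log N) := by ring
        rw [e]
        exact hj2.le
      have g5 : X₀ ≤ G j := by
        have := hNG j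
        linarith
      have h6 := hlip W hW d (G j) X g5 g3 g4
      have hGd : Real.log (Real.log |(d : ℝ)|) ^ 2 ≤ Real.log (G j) := by
        have h7 : 4 * Real.log N ≤ Real.log (G j) := by
          change _ ≤ Real.log (Real.exp _)
          rw [Real.log_exp]
          have : (1 : ℝ) ≤ (1 + h) ^ j := one_le_pow₀ hq.le
          nlinarith
        have hdN : |(d : ℝ)| ≤ N := by
          have h2 := (Finset.mem_Icc.1 (Finset.mem_filter.1 hd1).1)
          have h3 : |d| ≤ (N : ℤ) := abs_le.2 h2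
          exact_mod_cast h3
        have h6' : |(d : ℝ)| = (d.natAbs : ℝ) := by
          rw [Nat.cast_natAbs]
          push_cast
          rfl
        have h7' : (N : ℝ) ^ (θ / 2) ≤ |(d : ℝ)| := by
          rw [h6']
          have h8 : (N : ℝ) ^ (θ / 2) < (m : ℝ) + 1 := by
            rw [hm]
            exact Nat.lt_floor_add_one _
          have h9 : ((m : ℝ) + 1) ≤ (d.natAbs : ℝ) := by
            have : m + 1 ≤ d.natAbs := by omega
            exact_mod_cast this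
          linarith
        have h8 : Real.log ((N : ℝ) ^ (θ / 2)) ≤ Real.log |(d : ℝ)| := Real.log_le_log (by positivity) h7'
        have h9 : Real.log |(d : ℝ)| ≤ Real.log N := Real.log_le_log (lt_of_lt_of_le (by positivity) h7') hdN
        have h10 : l₀ ≤ Real.log (Real.log |(d : ℝ)|) := b2.trans (Real.log_le_log b3 h8)
        have h11 : 0 ≤ Real.log (Real.log |(d : ℝ)|) := by
          have : 1 ≤ l₀ := by rw [hl₀]; exact le_max_left _ _
          linarith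
        have h12 : Real.log (Real.log |(d : ℝ)|) ≤ Real.log (Real.log N) :=
          Real.log_le_log (by linarith) h9
        have h13 : Real.log (Real.log |(d : ℝ)|) ^ 2 ≤ Real.log (Real.log N) ^ 2 :=
          pow_le_pow_left₀ h11 h12 2
        linarith
      have hG1 : 1 ≤ G j := by
        have := hNG j
        linarith
      have hlG0 : 0 < Real.log (G j) := by
        change 0 < Real.log (Real.exp _)
        rw [Real.log_exp]
        positivity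
      have h7 := hest d hd1 hdm hF (G j) hGd hG1
      have h8 : |SL W d X| ≤ |SL W d X - SL W d (G j)| + |SL W d (G j)| := by
        have := abs_add_le (SL W d X - SL W d (G j)) (SL W d (G j))
        rwa [sub_add_cancel] at this
      have h9 : ε / 8 ≤ |TT W d (N ^ 4) (G j)| / Real.log (G j) := by linarith
      rw [le_div_iff₀ hlG0] at h9
      rw [Finset.mem_biUnion]
      exact ⟨j, Finset.mem_range.2 hjJ, Finset.mem_filter.2 ⟨hd1, h9⟩⟩
  have hone : ∀ j ∈ Finset.range (J + 1),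
      (((Sq N).filter (fun d : ℤ => ε / 8 * Real.log (G j) ≤ |TT W d (N ^ 4) (G j)|)).card : ℝ) ≤ KK := by
    intro j _
    have hG1 : 1 ≤ G j := by
      have := hNG j
      linarith
    have hlG0 : 0 < Real.log (G j) := by
      change 0 < Real.log (Real.exp _)
      rw [Real.log_exp]
      positivity
    have h5 := Sxm_one K ε hε W N (G j) hlG0 (hK W hW N (G j) hG1)
    rw [hKK]
    linarith
  have hc : ((Finset.Icc (-(m : ℤ)) m).card : ℝ) ≤ 2 * (N : ℝ) ^ (θ / 2) + 1 := by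
    rw [Int.card_Icc]
    have : ((m : ℤ) + 1 - -(m : ℤ)).toNat = 2 * m + 1 := by omega
    rw [this]
    push_cast
    have : (m : ℝ) ≤ (N : ℝ) ^ (θ / 2) := by
      rw [hm]
      exact Nat.floor_le (by positivity)
    linarith
  have c1 : (N : ℝ) ^ (θ / 2) ≤ (N : ℝ) ^ θ₁ := Real.rpow_le_rpow_of_exponent_le hN1 g1.le
  have c2 : 1 ≤ (N : ℝ) ^ θ₁ := Real.one_le_rpow hN1 hθ₁.le
  have c3 : (N : ℝ) ^ θ = (N : ℝ) ^ (θ - θ₁) * (N : ℝ) ^ θ₁ := by
    rw [← Real.rpow_add hN0]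
    congr 1
    ring
  have c4 : 4 * (N : ℝ) ^ θ₁ ≤ (N : ℝ) ^ θ := by
    rw [c3]
    exact mul_le_mul_of_nonneg_right b5 (by positivity)
  have hJR : ((J + 1 : ℕ) : ℝ) ≤ (1 / Real.log (1 + h) + 1) * 20 * Real.log (Real.log Y) := by
    have h5 : (J : ℝ) ≤ Real.log (Real.log Y) / Real.log (1 + h) := by
      rw [hJ]
      exact Nat.floor_le (div_nonneg (by linarith) hlq.le)
    push_cast
    have h6 : (1 / Real.log (1 + h) + 1) * 20 * Real.log (Real.log Y) =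
        Real.log (Real.log Y) / Real.log (1 + h) + 19 * (Real.log (Real.log Y) / Real.log (1 + h)) +
          20 * Real.log (Real.log Y) := by ring
    rw [h6]
    have h7 : 0 ≤ Real.log (Real.log Y) / Real.log (1 + h) := div_nonneg (by linarith) hlq.le
    linarith
  have hfin : ((((Sq N).filter (fun d : ℤ => ∃ X : ℝ, Real.exp (Real.log (Real.log |(d : ℝ)|) ^ 2) ≤ X ∧ X ≤ Y ∧
      ε < |SL W d X|)).card : ℕ) : ℝ) ≤ (((Sq N).filter (fun d : ℤ => ∃ t : ℝ, Real.log |(d : ℝ)| ^ a ≤ t ∧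
      t ≤ (N : ℝ) ^ 4 ∧ ε / 8 < |SX W d t|)).card : ℝ) + ((Finset.Icc (-(m : ℤ)) m).card : ℝ) +
      ∑ j ∈ Finset.range (J + 1),
        (((Sq N).filter (fun d : ℤ => ε / 8 * Real.log (G j) ≤ |TT W d (N ^ 4) (G j)|)).card : ℝ) := by
    have h5 := (Finset.card_le_card hsub).trans (Finset.card_union_le _ _)
    have h6 := h5.trans (Nat.add_le_add (Finset.card_union_le _ _) Finset.card_biUnion_le)
    exact_mod_cast h6
  have hsum : ∑ j ∈ Finset.range (J + 1),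
      (((Sq N).filter (fun d : ℤ => ε / 8 * Real.log (G j) ≤ |TT W d (N ^ 4) (G j)|)).card : ℝ) ≤
      (1 / Real.log (1 + h) + 1) * KK * 20 * Real.log (Real.log Y) := by
    refine (Finset.sum_le_sum hone).trans ?_
    rw [Finset.sum_const, Finset.card_range, nsmul_eq_mul]
    have := mul_le_mul_of_nonneg_right hJR hKK0.le
    linarith
  linarith

end Pool.Agent.Lib.NagA
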