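import Pool.Agent.Lib.MP_60fb2a_nt.S.All
import Pool.Agent.Lib.MP_60fb2a_nt.S.Sxm
import Pool.Agent.Lib.MP_60fb2a_nt.S.Msw
import Pool.Agent.Lib.MP_60fb2a_nt.S.SbSel
import Pool.Agent.Lib.MP_60fb2a_nt.S.SbSga
import Pool.Agent.Lib.MP_60fb2a_nt.S.SbSla
import Pool.Agent.Lib.MP_60fb2a_nt.S.SbSlq

/-!
MP_60fb2a_nt, directory S: the final forms: at most `N^θ + K log Y` (natural averages) and at most
`N^θ + K log log Y` (logarithmic averages) exceptional twists, and a mean square uniform in `X`.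
-/

set_option autoImplicit false

namespace Pool.Agent.Lib.NagA

open Polynomial Finset Classical

/-- from large `|d|` to all `d`, and from `Sq` to sets, uniform in the extra bound `Z` -/
theorem Top_gen (E : Set ℤ) (hE : E.Finite) (d₁ : ℕ) (θ₁ θ : ℝ) (h0 : 0 < θ₁) (h1 : θ₁ < θ) :
    ∃ N₁ : ℕ, ∀ N : ℕ, N₁ ≤ N → ∀ (F G : ℤ → Prop) (Z : ℝ),
      (∀ d : ℤ, (d₁ : ℝ) ≤ |(d : ℝ)| → Squarefree d → d ∉ E → F d → G d) →
      (((Sq N).filter G).card : ℝ) ≤ (N : ℝ) ^ θ₁ + Z →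
      (({d : ℤ | Squarefree d ∧ |d| ≤ N ∧ F d}).ncard : ℝ) ≤ (N : ℝ) ^ θ + Z := by
  obtain ⟨D₄, h4⟩ := Filter.eventually_atTop.1 (((tendsto_rpow_atTop (show 0 < θ - θ₁ by linarith)).comp
    (tendsto_natCast_atTop_atTop (R := ℝ))).eventually_ge_atTop (1 + ((2 * (d₁ : ℝ) + 1) + (E.ncard : ℝ))))
  refine ⟨max 1 D₄, fun N hN F G Z h H => ?_⟩
  have hN1 : (1 : ℝ) ≤ N := by exact_mod_cast le_trans (le_max_left _ _) hN
  have hN0 : (0 : ℝ) < N := by linarith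
  have hN3 : D₄ ≤ N := le_trans (le_max_right _ _) hN
  have hsub : {d : ℤ | Squarefree d ∧ |d| ≤ N ∧ F d} ⊆
      (((Sq N).filter G ∪ Finset.Icc (-(d₁ : ℤ)) d₁ ∪ hE.toFinset : Finset ℤ) : Set ℤ) := by
    rintro d ⟨hd1, hd2, hd3⟩
    rw [Finset.mem_coe, Finset.mem_union, Finset.mem_union]
    by_cases hdE : d ∈ E
    · right
      rw [Set.Finite.mem_toFinset]
      exact hdE
    · left
      by_cases hdd : (d₁ : ℝ) ≤ |(d : ℝ)|
      · left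
        rw [Finset.mem_filter]
        unfold Sq
        rw [Finset.mem_filter, Finset.mem_Icc]
        exact ⟨⟨abs_le.mp hd2, hd1⟩, h d hdd hd1 hdE hd3⟩
      · right
        rw [not_le] at hdd
        have h3 : |d| < (d₁ : ℤ) := by exact_mod_cast hdd
        rw [Finset.mem_Icc]
        exact abs_le.1 h3.le
  have hc : ((Finset.Icc (-(d₁ : ℤ)) d₁).card : ℝ) = 2 * (d₁ : ℝ) + 1 := by
    rw [Int.card_Icc]
    have : ((d₁ : ℤ) + 1 - -(d₁ : ℤ)).toNat = 2 * d₁ + 1 := by omega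
    rw [this]
    push_cast
    ring
  have hE2 : (hE.toFinset.card : ℝ) = (E.ncard : ℝ) := by
    rw [Set.ncard_eq_toFinset_card E hE]
  have h5 := Set.ncard_le_ncard hsub (Finset.finite_toSet _)
  rw [Set.ncard_coe_finset] at h5
  have h6 : ((((Sq N).filter G ∪ Finset.Icc (-(d₁ : ℤ)) d₁ ∪ hE.toFinset : Finset ℤ)).card : ℝ) ≤
      (((Sq N).filter G).card : ℝ) + ((Finset.Icc (-(d₁ : ℤ)) d₁).card : ℝ) + (hE.toFinset.card : ℝ) := by
    exact_mod_cast le_trans (Finset.card_union_le _ _) (Nat.add_le_add_right (Finset.card_union_le _ _) _)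
  have e4 : (N : ℝ) ^ θ = (N : ℝ) ^ (θ - θ₁) * (N : ℝ) ^ θ₁ := by
    rw [← Real.rpow_add hN0]
    congr 1
    ring
  have e5 : 1 ≤ (N : ℝ) ^ θ₁ := Real.one_le_rpow hN1 h0.le
  have e6 : 1 + ((2 * (d₁ : ℝ) + 1) + (E.ncard : ℝ)) ≤ (N : ℝ) ^ (θ - θ₁) := h4 N hN3
  have e7 : 0 ≤ (2 * (d₁ : ℝ) + 1) + (E.ncard : ℝ) := by positivity
  calc (({d : ℤ | Squarefree d ∧ |d| ≤ N ∧ F d}).ncard : ℝ) ≤
        ((((Sq N).filter G ∪ Finset.Icc (-(d₁ : ℤ)) d₁ ∪ hE.toFinset : Finset ℤ)).card : ℝ) := by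
        exact_mod_cast h5
    _ ≤ (((Sq N).filter G).card : ℝ) + ((Finset.Icc (-(d₁ : ℤ)) d₁).card : ℝ) + (hE.toFinset.card : ℝ) := h6
    _ ≤ (N : ℝ) ^ θ₁ + (2 * (d₁ : ℝ) + 1) + (E.ncard : ℝ) + Z := by
        rw [hc, hE2]
        linarith
    _ ≤ (1 + ((2 * (d₁ : ℝ) + 1) + (E.ncard : ℝ))) * (N : ℝ) ^ θ₁ + Z := by
        have := le_mul_of_one_le_right e7 e5
        linarith
    _ ≤ (N : ℝ) ^ (θ - θ₁) * (N : ℝ) ^ θ₁ + Z := by
        have := mul_le_mul_of_nonneg_right e6 (by positivity : 0 ≤ (N : ℝ) ^ θ₁)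
        linarith
    _ = (N : ℝ) ^ θ + Z := by rw [← e4]

/-- natural averages; `R d` is the expected limit for the twist by `d` -/
def TopA (A B : ℤ[X]) (R : ℤ → ℝ) : Prop := ∀ ε : ℝ, 0 < ε → ∃ K : ℝ, ∀ θ a : ℝ, 0 < θ → θ ≤ 1 → 1 + 2 / θ < a →
  ∃ N₀ : ℕ, ∀ N : ℕ, N₀ ≤ N → ∀ Y : ℝ, 1 ≤ Y →
    (({d : ℤ | Squarefree d ∧ |d| ≤ N ∧ ∃ X : ℝ, Real.log |(d : ℝ)| ^ a ≤ X ∧ X ≤ Y ∧
      ε < |NS (twA d A) (twB d B) X - R d|}).ncard : ℝ) ≤ (N : ℝ) ^ θ + K * Real.log Y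

/-- logarithmic averages -/
def TopL (A B : ℤ[X]) (R : ℤ → ℝ) : Prop := ∀ ε : ℝ, 0 < ε → ∃ K : ℝ, ∀ θ : ℝ, 0 < θ → θ ≤ 1 →
  ∃ N₀ : ℕ, ∀ N : ℕ, N₀ ≤ N → ∀ Y : ℝ, 3 ≤ Y →
    (({d : ℤ | Squarefree d ∧ |d| ≤ N ∧ ∃ X : ℝ, Real.exp (Real.log (Real.log |(d : ℝ)|) ^ 2) ≤ X ∧ X ≤ Y ∧
      ε < |NL (twA d A) (twB d B) X - R d|}).ncard : ℝ) ≤ (N : ℝ) ^ θ + K * Real.log (Real.log Y)

/-- mean square -/
def TopM (A B : ℤ[X]) (R : ℤ → ℝ) : Prop := ∀ c : ℝ, c < 1 / 2 → ∃ K : ℝ, ∀ X : ℝ, 1 ≤ X → ∀ S : Finset ℤ,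
  (∀ d ∈ S, Squarefree d ∧ |(d : ℝ)| ≤ X ^ c) → ∑ d ∈ S, (NS (twA d A) (twB d B) X - R d) ^ 2 ≤ K

theorem tTopA (h1 : SxlStmt) (h2 : SxgStmt) (hN : NssStmt) (A B : ℤ[X])
    (hC : ∃ C : ℝ, ∀ p : ℕ, p.Prime → |Av A B p| ≤ C) (R : ℤ → ℝ)
    (hR : {d : ℤ | Squarefree d ∧ R d ≠ 0}.Finite) : TopA A B R := by
  intro ε hε
  obtain ⟨C, hC⟩ := hC
  have hBd : Bd (Av A B) (max C 1) := fun p hp => le_trans (hC p hp) (le_max_left _ _)
  obtain ⟨K, N₂, hK0, H2⟩ := h2 (max C 1) (ε / 2) (by positivity) (by positivity)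
  refine ⟨K, fun θ a hθ hθ1 ha => ?_⟩
  obtain ⟨θ₁, a₁, g1, g2, g3, g4⟩ := Fix2_exp (θ / 2) θ a (by positivity) (by linarith) ha
  have hθ₁ : 0 < θ₁ := by linarith
  have ha0 : 1 < a := by
    have : 0 < 2 / θ₁ := by positivity
    linarith
  obtain ⟨N₁, H1⟩ := h1 (max C 1) (ε / 2) θ₁ a (by positivity) (by positivity) hθ₁ (by linarith) (by linarith)
  obtain ⟨d₁, hd₁⟩ := exists_nat_ge (Real.exp (max 1 (8 / ε)))
  obtain ⟨N₃, H3⟩ := Top_gen _ hR d₁ θ₁ θ hθ₁ g2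
  refine ⟨max (max N₁ N₂) N₃, fun N hN' Y hY => ?_⟩
  have n1 : N₁ ≤ N := le_trans (le_trans (le_max_left _ _) (le_max_left _ _)) hN'
  have n2 : N₂ ≤ N := le_trans (le_trans (le_max_right _ _) (le_max_left _ _)) hN'
  have n3 : N₃ ≤ N := le_trans (le_max_right _ _) hN'
  obtain ⟨G, hG⟩ : ∃ G : ℤ → Prop, ∀ d : ℤ, G d ↔ ((∃ X : ℝ, Real.log |(d : ℝ)| ^ a ≤ X ∧ X ≤ (N : ℝ) ^ 4 ∧
    ε / 2 < |SX (Av A B) d X|) ∨ (∃ X : ℝ, (N : ℝ) ^ 4 ≤ X ∧ X ≤ Y ∧ ε / 2 < |SX (Av A B) d X|)) :=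
    ⟨_, fun d => Iff.rfl⟩
  refine H3 N n3 _ G _ ?_ ?_
  · rintro d hd hsq hdE ⟨X, hX1, hX2, hX3⟩
    have hR0 : R d = 0 := by
      by_contra h
      exact hdE ⟨hsq, h⟩
    rw [hR0, sub_zero] at hX3
    have h1 : max 1 (8 / ε) ≤ Real.log |(d : ℝ)| := by
      rw [Real.le_log_iff_exp_le (lt_of_lt_of_le (Real.exp_pos _) (le_trans hd₁ hd))]
      exact le_trans hd₁ hd
    have h2 : 1 ≤ Real.log |(d : ℝ)| := le_trans (le_max_left _ _) h1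
    have h3 : Real.log |(d : ℝ)| ≤ Real.log |(d : ℝ)| ^ a := by
      calc Real.log |(d : ℝ)| = Real.log |(d : ℝ)| ^ (1 : ℝ) := (Real.rpow_one _).symm
        _ ≤ Real.log |(d : ℝ)| ^ a := Real.rpow_le_rpow_of_exponent_le h2 ha0.le
    have h4 : 1 ≤ X := le_trans h2 (le_trans h3 hX1)
    have h5 : 8 / ε ≤ X := le_trans (le_max_right _ _) (le_trans h1 (le_trans h3 hX1))
    have h6 : 4 / X ≤ ε / 2 := by
      rw [div_le_iff₀ (by linarith)]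
      rw [div_le_iff₀ hε] at h5
      linarith
    have h7 := hN A B d X h4
    have h8 : |NS (twA d A) (twB d B) X| ≤ |NS (twA d A) (twB d B) X + SX (Av A B) d X| +
        |SX (Av A B) d X| := by
      have := abs_sub (NS (twA d A) (twB d B) X + SX (Av A B) d X) (SX (Av A B) d X)
      rw [add_sub_cancel_right] at this
      exact this
    have h9 : ε / 2 < |SX (Av A B) d X| := by linarith
    rw [hG]
    rcases le_total X ((N : ℝ) ^ 4) with h10 | h10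
    · exact Or.inl ⟨X, hX1, h10, h9⟩
    · exact Or.inr ⟨X, h10, hX2, h9⟩
  · have e1 := H1 N n1 (Av A B) hBd
    have e2 := H2 N n2 (Av A B) hBd Y hY
    refine le_trans (Nat.cast_le.2 (Finset.card_le_card (t := ((Sq N).filter (fun d : ℤ => ∃ X : ℝ,
      Real.log |(d : ℝ)| ^ a ≤ X ∧ X ≤ (N : ℝ) ^ 4 ∧ ε / 2 < |SX (Av A B) d X|)) ∪ ((Sq N).filter (fun d : ℤ =>
      ∃ X : ℝ, (N : ℝ) ^ 4 ≤ X ∧ X ≤ Y ∧ ε / 2 < |SX (Av A B) d X|))) ?_)) ?_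
    · intro d hd
      obtain ⟨hq1, hq2⟩ := Finset.mem_filter.1 hd
      rw [hG] at hq2
      rw [Finset.mem_union, Finset.mem_filter, Finset.mem_filter]
      rcases hq2 with h | h
      · exact Or.inl ⟨hq1, h⟩
      · exact Or.inr ⟨hq1, h⟩
    · refine le_trans (Nat.cast_le.2 (Finset.card_union_le _ _)) ?_
      rw [Nat.cast_add]
      linarith

theorem tTopL (hF : SxmStmt) (hN : NlsStmt) (A B : ℤ[X]) (hC : ∃ C : ℝ, ∀ p : ℕ, p.Prime → |Av A B p| ≤ C)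
    (R : ℤ → ℝ) (hR : {d : ℤ | Squarefree d ∧ R d ≠ 0}.Finite) : TopL A B R := by
  intro ε hε
  obtain ⟨C, hC⟩ := hC
  have hBd : Bd (Av A B) (max C 1) := fun p hp => le_trans (hC p hp) (le_max_left _ _)
  obtain ⟨K, hK0, H⟩ := hF (max C 1) (ε / 2) (by positivity) (by positivity)
  refine ⟨K, fun θ hθ hθ1 => ?_⟩
  obtain ⟨θ₁, g1, g2⟩ := exists_between hθ
  obtain ⟨N₂, H2⟩ := H θ₁ g1 (by linarith)
  obtain ⟨m, hm⟩ : ∃ m : ℝ, m = max 1 (8 / ε) := ⟨_, rfl⟩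
  have hm1 : 1 ≤ m := by rw [hm]; exact le_max_left _ _
  have hm2 : 8 / ε ≤ m := by rw [hm]; exact le_max_right _ _
  obtain ⟨d₁, hd₁⟩ := exists_nat_ge (Real.exp (Real.exp m))
  obtain ⟨N₃, H3⟩ := Top_gen _ hR d₁ θ₁ θ g1 g2
  refine ⟨max N₂ N₃, fun N hN' Y hY => ?_⟩
  refine H3 N (le_trans (le_max_right _ _) hN') _ _ _ ?_
    (H2 N (le_trans (le_max_left _ _) hN') (Av A B) hBd Y hY)
  rintro d hd hsq hdE ⟨X, hX1, hX2, hX3⟩
  have hR0 : R d = 0 := by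
    by_contra h
    exact hdE ⟨hsq, h⟩
  rw [hR0, sub_zero] at hX3
  refine ⟨X, hX1, hX2, ?_⟩
  have hX0 : 0 < X := lt_of_lt_of_le (Real.exp_pos _) hX1
  have h0 : Real.exp m ≤ Real.log |(d : ℝ)| := by
    rw [Real.le_log_iff_exp_le (lt_of_lt_of_le (Real.exp_pos _) (le_trans hd₁ hd))]
    exact le_trans hd₁ hd
  have h0' : m ≤ Real.log (Real.log |(d : ℝ)|) := by
    rw [Real.le_log_iff_exp_le (lt_of_lt_of_le (Real.exp_pos _) h0)]
    exact h0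
  have hlX : m ≤ Real.log X := by
    have h1 : Real.log (Real.log |(d : ℝ)|) ^ 2 ≤ Real.log X := by
      rw [Real.le_log_iff_exp_le hX0]
      exact hX1
    nlinarith
  have h2 : 1 ≤ Real.log X := le_trans hm1 hlX
  have h5 : 8 / ε ≤ Real.log X := le_trans hm2 hlX
  have h4 : 1 < X := by
    have h3 : Real.exp 1 ≤ X := by
      rw [← Real.le_log_iff_exp_le hX0]
      exact h2
    have := Real.add_one_le_exp (1 : ℝ)
    linarith
  have h6 : 4 / Real.log X ≤ ε / 2 := by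
    rw [div_le_iff₀ (by linarith)]
    rw [div_le_iff₀ hε] at h5
    linarith
  have h7 := hN A B d X h4
  have h8 : |NL (twA d A) (twB d B) X| ≤ |NL (twA d A) (twB d B) X + SL (Av A B) d X| +
      |SL (Av A B) d X| := by
    have := abs_sub (NL (twA d A) (twB d B) X + SL (Av A B) d X) (SL (Av A B) d X)
    rw [add_sub_cancel_right] at this
    exact this
  linarith

theorem tTopM (hM : MswStmt) (hN : NssStmt) (A B : ℤ[X]) (hC : ∃ C : ℝ, ∀ p : ℕ, p.Prime → |Av A B p| ≤ C)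
    (R : ℤ → ℝ) (hR : {d : ℤ | Squarefree d ∧ R d ≠ 0}.Finite) : TopM A B R := by
  intro c hc
  obtain ⟨C, hC⟩ := hC
  have hBd : Bd (Av A B) (max C 1) := fun p hp => le_trans (hC p hp) (le_max_left _ _)
  obtain ⟨η, hη1, hη2⟩ : ∃ η : ℝ, 0 < η ∧ η < 1 / 2 ∧ c ≤ 1 / 2 - η := by
    refine ⟨min (1 / 2 - c) (1 / 4), lt_min (by linarith) (by norm_num), ?_, ?_⟩
    · exact lt_of_le_of_lt (min_le_right _ _) (by norm_num)
    · have := min_le_left (1 / 2 - c) (1 / 4 : ℝ)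
      linarith
  obtain ⟨hη3, hη4⟩ := hη2
  obtain ⟨K, hK⟩ := hM (max C 1) η (by positivity) hη1 hη3
  refine ⟨4 * K + 200 + 2 * ∑ d ∈ hR.toFinset, R d ^ 2, fun X hX S hS => ?_⟩
  have hX0 : 0 < X := by linarith
  obtain ⟨D, hD⟩ : ∃ D : ℕ, D = ⌊X ^ c⌋₊ := ⟨_, rfl⟩
  have hDc : (D : ℝ) ≤ X ^ c := by
    rw [hD]
    exact Nat.floor_le (by positivity)
  have hDη : (D : ℝ) ≤ X ^ (1 / 2 - η) := hDc.trans (Real.rpow_le_rpow_of_exponent_le hX hη4)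
  have h1 := hK (Av A B) hBd X hX D hDη
  have hSD : S ⊆ Sq D := by
    intro d hd
    obtain ⟨hs1, hs2⟩ := hS d hd
    unfold Sq
    rw [Finset.mem_filter, Finset.mem_Icc]
    refine ⟨abs_le.1 ?_, hs1⟩
    have h6 : |(d : ℝ)| = (d.natAbs : ℝ) := by
      rw [Nat.cast_natAbs]
      push_cast
      rfl
    rw [h6] at hs2
    have h7 : d.natAbs ≤ D := by
      rw [hD]
      exact Nat.le_floor hs2
    rw [Int.abs_eq_natAbs]
    exact_mod_cast h7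
  have h2 : ∑ d ∈ S, SX (Av A B) d X ^ 2 ≤ K :=
    le_trans (Finset.sum_le_sum_of_subset_of_nonneg hSD fun _ _ _ => sq_nonneg _) h1
  have hcard : (S.card : ℝ) * (1 / X ^ 2) ≤ 3 := by
    have h3 : (S.card : ℝ) ≤ 2 * D + 1 := by
      have h4 : (S.card : ℝ) ≤ ((Sq D).card : ℝ) := by exact_mod_cast Finset.card_le_card hSD
      exact h4.trans (Msq_card D)
    have h4 : (D : ℝ) ≤ X ^ 2 := by
      refine hDc.trans ?_
      calc X ^ c ≤ X ^ ((2 : ℕ) : ℝ) := Real.rpow_le_rpow_of_exponent_le hX (by push_cast; linarith)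
        _ = X ^ 2 := Real.rpow_natCast X 2
    have h5 : 1 ≤ X ^ 2 := one_le_pow₀ hX
    rw [mul_one_div, div_le_iff₀ (by positivity)]
    linarith
  have h6 : ∑ d ∈ S, R d ^ 2 ≤ ∑ d ∈ hR.toFinset, R d ^ 2 := by
    have h7 : ∑ d ∈ S, R d ^ 2 = ∑ d ∈ S.filter (fun d => R d ≠ 0), R d ^ 2 := by
      symm
      apply Finset.sum_filter_of_ne
      intro d _ hd hd0
      apply hd
      rw [hd0]
      ring
    rw [h7]
    apply Finset.sum_le_sum_of_subset_of_nonneg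
    · intro d hd
      rw [Finset.mem_filter] at hd
      rw [Set.Finite.mem_toFinset]
      exact ⟨(hS d hd.1).1, hd.2⟩
    · intro d _ _
      positivity
  have h8 : ∀ d ∈ S, (NS (twA d A) (twB d B) X - R d) ^ 2 ≤
      4 * SX (Av A B) d X ^ 2 + 64 * (1 / X ^ 2) + 2 * R d ^ 2 := by
    intro d _
    have h9 := hN A B d X hX
    obtain ⟨u, hu⟩ : ∃ u : ℝ, u = NS (twA d A) (twB d B) X := ⟨_, rfl⟩
    obtain ⟨v, hv⟩ : ∃ v : ℝ, v = SX (Av A B) d X := ⟨_, rfl⟩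
    rw [← hu, ← hv] at h9
    rw [← hu, ← hv]
    have h10 : (u + v) ^ 2 ≤ 16 * (1 / X ^ 2) := by
      have h11 : |u + v| ^ 2 ≤ (4 / X) ^ 2 := pow_le_pow_left₀ (abs_nonneg _) h9 2
      rw [sq_abs, div_pow] at h11
      calc (u + v) ^ 2 ≤ 4 ^ 2 / X ^ 2 := h11
        _ = 16 * (1 / X ^ 2) := by ring
    have h12 : (u - R d) ^ 2 ≤ 2 * u ^ 2 + 2 * R d ^ 2 := by nlinarith [sq_nonneg (u + R d)]
    have h13 : u ^ 2 ≤ 2 * (u + v) ^ 2 + 2 * v ^ 2 := by nlinarith [sq_nonneg (u + 2 * v)]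
    linarith
  calc ∑ d ∈ S, (NS (twA d A) (twB d B) X - R d) ^ 2 ≤
        ∑ d ∈ S, (4 * SX (Av A B) d X ^ 2 + 64 * (1 / X ^ 2) + 2 * R d ^ 2) := Finset.sum_le_sum h8
    _ = 4 * ∑ d ∈ S, SX (Av A B) d X ^ 2 + 64 * ((S.card : ℝ) * (1 / X ^ 2)) + 2 * ∑ d ∈ S, R d ^ 2 := by
        rw [Finset.sum_add_distrib, Finset.sum_add_distrib, Finset.sum_const, nsmul_eq_mul, ← Finset.mul_sum,
          ← Finset.mul_sum]
        ring
    _ ≤ 4 * K + 200 + 2 * ∑ d ∈ hR.toFinset, R d ^ 2 := by linarith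

theorem bSel : Sb.SelStmt := Sb.tSel Sb.tSga Sb.tSla Sb.tSlq
theorem bSlv : SlvStmt := tSlv aSch aPer aSqf bSel
theorem bMsq : MsqStmt := tMsq bSlv aChb
theorem bSlx : SlxStmt := tSlx aSch aNsq aSqf bSel
theorem bMsw : MswStmt := tMsw bSlx aChb
theorem bSxb : SxbStmt := tSxb bMsq
theorem bSxg : SxgStmt := tSxg bSxb aLip
theorem bSxl : SxlStmt := tSxl aFix2
theorem bSxm : SxmStmt := tSxm aChb bMsq bSxl aLgl

section

variable (A B : ℤ[X]) (hd : 4 * A ^ 3 + 27 * B ^ 2 ≠ 0)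

include hd

/-- natural averages, non-split quadratic twists of constant curves -/
theorem topA (hc : ConstTwist A B) (hs : ¬ Split A B) : TopA A B (fun d => (rk (twA d A) (twB d B) : ℝ)) :=
  tTopA bSxl bSxg aNss A B (Cls_bd aBdd A B hd hc hs) _ (rk_cast A B (Cls_rk R.rankAll R.tGrp A B hd hc hs))

/-- logarithmic averages, non-split quadratic twists of constant curves -/
theorem topL (hc : ConstTwist A B) (hs : ¬ Split A B) : TopL A B (fun d => (rk (twA d A) (twB d B) : ℝ)) :=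
  tTopL bSxm aNls A B (Cls_bd aBdd A B hd hc hs) _ (rk_cast A B (Cls_rk R.rankAll R.tGrp A B hd hc hs))

/-- mean square, non-split quadratic twists of constant curves -/
theorem topM (hc : ConstTwist A B) (hs : ¬ Split A B) : TopM A B (fun d => (rk (twA d A) (twB d B) : ℝ)) :=
  tTopM bMsw aNss A B (Cls_bd aBdd A B hd hc hs) _ (rk_cast A B (Cls_rk R.rankAll R.tGrp A B hd hc hs))

/-- natural averages, all curves with bounded averages and finitely generated group over `kk(T)` -/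
theorem topG (hb : ∃ K : ℝ, ∀ p : ℕ, p.Prime → |Av A B p| ≤ K)
    (hf : Module.Finite ℤ (R.Pt (R.dd A) (R.dd B))) : TopA A B (fun d => (rk (twA d A) (twB d B) : ℝ)) :=
  tTopA bSxl bSxg aNss A B hb _ (rk_cast A B (aLne A B hd hf))

/-- logarithmic averages, all curves with bounded averages and finitely generated group over `kk(T)` -/
theorem topGL (hb : ∃ K : ℝ, ∀ p : ℕ, p.Prime → |Av A B p| ≤ K)
    (hf : Module.Finite ℤ (R.Pt (R.dd A) (R.dd B))) : TopL A B (fun d => (rk (twA d A) (twB d B) : ℝ)) :=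
  tTopL bSxm aNls A B hb _ (rk_cast A B (aLne A B hd hf))

/-- mean square, all curves with bounded averages and finitely generated group over `kk(T)` -/
theorem topGM (hb : ∃ K : ℝ, ∀ p : ℕ, p.Prime → |Av A B p| ≤ K)
    (hf : Module.Finite ℤ (R.Pt (R.dd A) (R.dd B))) : TopM A B (fun d => (rk (twA d A) (twB d B) : ℝ)) :=
  tTopM bMsw aNss A B hb _ (rk_cast A B (aLne A B hd hf))

end

end Pool.Agent.Lib.NagA
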